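import Mathlib

/-!
# The Beurling algebra of a weight on a discrete group

`WAlg G ω` is the group algebra `ℂ[G]` with the norm `∑ |c_s| ω(s)`, and `L1 G ω` is its
completion, the Beurling algebra `ℓ¹(G, ω)` with the convolution product.
-/

namespace H263R3.Arens

open Finset

noncomputable section

/-- A weight on a (discrete) group: a positive submultiplicative function with `ω(1) = 1`. -/
structure Weight (G : Type*) [Group G] where
  /-- the underlying function -/
  toFun : G → ℝ
  pos : ∀ s, 0 < toFun s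
  mul_le : ∀ s t, toFun (s * t) ≤ toFun s * toFun t
  one : toFun 1 = 1

/-- The trivial weight. -/
def Weight.trivial (G : Type*) [Group G] : Weight G where
  toFun _ := 1
  pos _ := one_pos
  mul_le _ _ := by norm_num
  one := rfl

variable {G : Type*} [Group G]

/-- The weighted norm `∑ |c_s| ω(s)` of an element of the group algebra. -/
def wnorm (ω : Weight G) (x : MonoidAlgebra ℂ G) : ℝ :=
  x.coeff.sum fun s c => ‖c‖ * ω.toFun s

theorem wnorm_eq (ω : Weight G) (x : MonoidAlgebra ℂ G) (S : Finset G)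
    (hS : x.coeff.support ⊆ S) : wnorm ω x = ∑ s ∈ S, ‖x.coeff s‖ * ω.toFun s :=
  Finsupp.sum_of_support_subset _ hS _ (fun i _ => by simp)

theorem wnorm_nonneg (ω : Weight G) (x : MonoidAlgebra ℂ G) : 0 ≤ wnorm ω x :=
  Finset.sum_nonneg fun s _ => mul_nonneg (norm_nonneg _) (ω.pos s).le

theorem wnorm_zero (ω : Weight G) : wnorm ω (0 : MonoidAlgebra ℂ G) = 0 := by
  simp [wnorm]

theorem wnorm_neg (ω : Weight G) (x : MonoidAlgebra ℂ G) : wnorm ω (-x) = wnorm ω x := by
  have h1 : (-x).coeff = -x.coeff := rfl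
  rw [wnorm_eq ω (-x) x.coeff.support (by rw [h1, Finsupp.support_neg]),
    wnorm_eq ω x x.coeff.support subset_rfl]
  simp [h1]

theorem wnorm_add_le (ω : Weight G) (x y : MonoidAlgebra ℂ G) :
    wnorm ω (x + y) ≤ wnorm ω x + wnorm ω y := by
  classical
  have h1 : (x + y).coeff = x.coeff + y.coeff := rfl
  rw [wnorm_eq ω (x + y) (x.coeff.support ∪ y.coeff.support)
      (by rw [h1]; exact Finsupp.support_add),
    wnorm_eq ω x (x.coeff.support ∪ y.coeff.support) subset_union_left,
    wnorm_eq ω y (x.coeff.support ∪ y.coeff.support) subset_union_right, ← sum_add_distrib]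
  refine sum_le_sum fun s _ => ?_
  rw [← add_mul, h1, Finsupp.add_apply]
  exact mul_le_mul_of_nonneg_right (norm_add_le _ _) (ω.pos s).le

theorem wnorm_sum_le (ω : Weight G) {ι : Type*} (S : Finset ι) (f : ι → MonoidAlgebra ℂ G) :
    wnorm ω (∑ i ∈ S, f i) ≤ ∑ i ∈ S, wnorm ω (f i) :=
  Finset.le_sum_of_subadditive (wnorm ω) (wnorm_zero ω).le (wnorm_add_le ω) S f

theorem wnorm_single (ω : Weight G) (s : G) (c : ℂ) :
    wnorm ω (MonoidAlgebra.single s c) = ‖c‖ * ω.toFun s := by
  rw [wnorm, MonoidAlgebra.coeff_single, Finsupp.sum_single_index (by simp)]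

theorem wnorm_mul_le (ω : Weight G) (x y : MonoidAlgebra ℂ G) :
    wnorm ω (x * y) ≤ wnorm ω x * wnorm ω y := by
  rw [MonoidAlgebra.mul_def]
  refine (wnorm_sum_le ω _ _).trans ?_
  have h2 : wnorm ω x * wnorm ω y = ∑ s ∈ x.coeff.support, ∑ t ∈ y.coeff.support,
      (‖x.coeff s‖ * ω.toFun s) * (‖y.coeff t‖ * ω.toFun t) := by
    rw [← Finset.sum_mul_sum]; rfl
  rw [h2]
  refine sum_le_sum fun s _ => (wnorm_sum_le ω _ _).trans (sum_le_sum fun t _ => ?_)
  rw [wnorm_single, norm_mul]
  calc ‖x.coeff s‖ * ‖y.coeff t‖ * ω.toFun (s * t)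
      ≤ ‖x.coeff s‖ * ‖y.coeff t‖ * (ω.toFun s * ω.toFun t) :=
        mul_le_mul_of_nonneg_left (ω.mul_le s t) (by positivity)
    _ = _ := by ring

theorem eq_zero_of_wnorm (ω : Weight G) (x : MonoidAlgebra ℂ G) (h : wnorm ω x = 0) : x = 0 := by
  rw [wnorm_eq ω x x.coeff.support subset_rfl,
    Finset.sum_eq_zero_iff_of_nonneg
      (fun s _ => mul_nonneg (norm_nonneg _) (ω.pos s).le)] at h
  rw [← MonoidAlgebra.coeff_eq_zero]
  ext s
  by_contra hs
  have h1 := h s (Finsupp.mem_support_iff.mpr hs)
  rcases mul_eq_zero.mp h1 with h2 | h2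
  · exact hs (norm_eq_zero.mp h2)
  · exact (ω.pos s).ne' h2

/-- The group algebra `ℂ[G]`, as a type to carry the norm of the weight `ω`. -/
def WAlg (G : Type*) [Group G] (_ω : Weight G) : Type _ := MonoidAlgebra ℂ G

instance instRingWAlg (ω : Weight G) : Ring (WAlg G ω) :=
  (inferInstance : Ring (MonoidAlgebra ℂ G))

instance instAlgebraWAlg (ω : Weight G) : Algebra ℂ (WAlg G ω) :=
  (inferInstance : Algebra ℂ (MonoidAlgebra ℂ G))

/-- The weighted norm as a ring norm. -/
def ringNormW (ω : Weight G) : RingNorm (WAlg G ω) where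
  toFun := wnorm ω
  map_zero' := wnorm_zero ω
  add_le' := wnorm_add_le ω
  neg' := wnorm_neg ω
  mul_le' := wnorm_mul_le ω
  eq_zero_of_map_eq_zero' := eq_zero_of_wnorm ω

instance instNormedRingWAlg (ω : Weight G) : NormedRing (WAlg G ω) := (ringNormW ω).toNormedRing

theorem norm_WAlg (ω : Weight G) (x : WAlg G ω) : ‖x‖ = wnorm ω x := rfl

theorem wnorm_smul (ω : Weight G) (c : ℂ) (x : MonoidAlgebra ℂ G) :
    wnorm ω (c • x) = ‖c‖ * wnorm ω x := by
  have h1 : (c • x).coeff = c • x.coeff := rfl
  rw [wnorm_eq ω (c • x) x.coeff.support (by rw [h1]; exact Finsupp.support_smul),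
    wnorm_eq ω x x.coeff.support subset_rfl, mul_sum]
  refine sum_congr rfl fun s _ => ?_
  rw [h1, Finsupp.smul_apply, smul_eq_mul, norm_mul, mul_assoc]

instance instNormedAlgebraWAlg (ω : Weight G) : NormedAlgebra ℂ (WAlg G ω) where
  norm_smul_le c x := (wnorm_smul ω c x).le

/-- The Beurling algebra `ℓ¹(G, ω)`: the completion of the group algebra in the weighted norm. -/
abbrev L1 (G : Type*) [Group G] (ω : Weight G) : Type _ :=
  UniformSpace.Completion (WAlg G ω)

instance instNormedAlgebraL1 (ω : Weight G) : NormedAlgebra ℂ (L1 G ω) where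
  norm_smul_le := norm_smul_le

/-- The Beurling algebra `ℓ¹(G, ω)`, the completion of the group algebra in the weighted norm, as
a type of its own. -/
def Beurling (G : Type*) [Group G] (ω : Weight G) : Type _ := UniformSpace.Completion (WAlg G ω)

instance instNormedRingBeurling (ω : Weight G) : NormedRing (Beurling G ω) :=
  (inferInstance : NormedRing (UniformSpace.Completion (WAlg G ω)))

instance instNormedAlgebraBeurling (ω : Weight G) : NormedAlgebra ℂ (Beurling G ω) :=
  (inferInstance : NormedAlgebra ℂ (L1 G ω))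

/-- The element `c s` of the group algebra. -/
def sgl (ω : Weight G) (s : G) (c : ℂ) : WAlg G ω := MonoidAlgebra.single s c

/-- The point masses, as a homomorphism from `G` to `ℓ¹(G, ω)`. -/
def delta (ω : Weight G) : G →* L1 G ω where
  toFun s := (sgl ω s 1 : L1 G ω)
  map_one' := UniformSpace.Completion.coe_one _
  map_mul' s t := by
    rw [← UniformSpace.Completion.coe_mul]
    congr 1
    have h := MonoidAlgebra.single_mul_single (R := ℂ) s t 1 1
    rw [mul_one] at h
    exact h.symm

theorem norm_delta (ω : Weight G) (s : G) : ‖delta ω s‖ = ω.toFun s := by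
  show ‖(sgl ω s 1 : L1 G ω)‖ = _
  rw [UniformSpace.Completion.norm_coe, norm_WAlg, sgl, wnorm_single, norm_one, one_mul]

theorem sgl_eq_smul (ω : Weight G) (s : G) (c : ℂ) : sgl ω s c = c • sgl ω s 1 := by
  have h := MonoidAlgebra.smul_single c s (1 : ℂ)
  rw [smul_eq_mul, mul_one] at h
  exact h.symm

theorem walg_eq_sum (ω : Weight G) (x : WAlg G ω) :
    x = ∑ s ∈ (MonoidAlgebra.coeff x).support, (MonoidAlgebra.coeff x s) • sgl ω s 1 := by
  have h := MonoidAlgebra.sum_coeff_single (R := ℂ) (M := G) x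
  have h2 : x = ∑ s ∈ (MonoidAlgebra.coeff x).support, sgl ω s (MonoidAlgebra.coeff x s) :=
    h.symm
  conv_lhs => rw [h2]
  exact sum_congr rfl fun s _ => sgl_eq_smul ω s _

theorem coe_sum_smul {E ι : Type*} [NormedAddCommGroup E] [NormedSpace ℂ E] (S : Finset ι)
    (c : ι → ℂ) (v : ι → E) : ((∑ i ∈ S, c i • v i : E) : UniformSpace.Completion E)
      = ∑ i ∈ S, c i • (v i : UniformSpace.Completion E) := by
  have := map_sum (UniformSpace.Completion.toComplL (𝕜 := ℂ) (E := E)) (fun i => c i • v i) S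
  refine this.trans (sum_congr rfl fun s _ => ?_)
  rw [map_smul]
  rfl

/-- A functional on `ℓ¹(G, ω)` is bounded by its values on the point masses. -/
theorem norm_le_of_delta (ω : Weight G) (f : StrongDual ℂ (L1 G ω)) (C : ℝ)
    (hC : ∀ s, ‖f (delta ω s)‖ ≤ C * ω.toFun s) : ‖f‖ ≤ C := by
  have hC0 : 0 ≤ C := by
    have := (norm_nonneg _).trans (hC 1)
    rwa [ω.one, mul_one] at this
  refine ContinuousLinearMap.opNorm_le_bound _ hC0 fun a => ?_
  induction a using UniformSpace.Completion.induction_on with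
  | hp => exact isClosed_le (by fun_prop) (by fun_prop)
  | ih x =>
    rw [UniformSpace.Completion.norm_coe, norm_WAlg]
    have h1 : (x : L1 G ω) = ∑ s ∈ (MonoidAlgebra.coeff x).support,
        (MonoidAlgebra.coeff x s) • delta ω s := by
      conv_lhs => rw [walg_eq_sum ω x]
      exact coe_sum_smul (E := WAlg G ω) (MonoidAlgebra.coeff x).support
        (fun s => MonoidAlgebra.coeff x s) (fun s => sgl ω s 1)
    rw [h1, map_sum]
    refine (norm_sum_le _ _).trans ?_
    rw [wnorm_eq ω x _ subset_rfl, mul_sum]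
    refine sum_le_sum fun s _ => ?_
    rw [map_smul, norm_smul]
    calc ‖MonoidAlgebra.coeff x s‖ * ‖f (delta ω s)‖
        ≤ ‖MonoidAlgebra.coeff x s‖ * (C * ω.toFun s) :=
          mul_le_mul_of_nonneg_left (hC s) (norm_nonneg _)
      _ = C * (‖MonoidAlgebra.coeff x s‖ * ω.toFun s) := by ring

/-- Every function dominated by the weight extends to a bounded functional. -/
theorem exists_functional (ω : Weight G) (h : G → ℂ) (C : ℝ)
    (hC : ∀ s, ‖h s‖ ≤ C * ω.toFun s) :
    ∃ f : StrongDual ℂ (L1 G ω), ∀ s, f (delta ω s) = h s := by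
  let φ : WAlg G ω →ₗ[ℂ] ℂ :=
    { toFun := fun x => ∑ s ∈ (MonoidAlgebra.coeff x).support, MonoidAlgebra.coeff x s * h s
      map_add' := by
        intro x y
        classical
        have h1 : MonoidAlgebra.coeff (x + y) = MonoidAlgebra.coeff x + MonoidAlgebra.coeff y :=
          rfl
        have key : ∀ (z : G →₀ ℂ) (S : Finset G), z.support ⊆ S →
            ∑ s ∈ z.support, z s * h s = ∑ s ∈ S, z s * h s := by
          intro z S hS
          exact Finsupp.sum_of_support_subset z hS (fun s c => c * h s) (fun i _ => by simp)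
        rw [key (MonoidAlgebra.coeff (x + y))
            ((MonoidAlgebra.coeff x).support ∪ (MonoidAlgebra.coeff y).support)
            (by rw [h1]; exact Finsupp.support_add),
          key (MonoidAlgebra.coeff x)
            ((MonoidAlgebra.coeff x).support ∪ (MonoidAlgebra.coeff y).support)
            subset_union_left,
          key (MonoidAlgebra.coeff y)
            ((MonoidAlgebra.coeff x).support ∪ (MonoidAlgebra.coeff y).support)
            subset_union_right, ← sum_add_distrib]
        refine sum_congr rfl fun s _ => ?_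
        rw [← add_mul, h1, Finsupp.add_apply]
      map_smul' := by
        intro c x
        have h1 : MonoidAlgebra.coeff (c • x) = c • MonoidAlgebra.coeff x := rfl
        have key : ∀ (z : G →₀ ℂ) (S : Finset G), z.support ⊆ S →
            ∑ s ∈ z.support, z s * h s = ∑ s ∈ S, z s * h s := by
          intro z S hS
          exact Finsupp.sum_of_support_subset z hS (fun s c => c * h s) (fun i _ => by simp)
        rw [key (MonoidAlgebra.coeff (c • x)) (MonoidAlgebra.coeff x).support
            (by rw [h1]; exact Finsupp.support_smul), RingHom.id_apply, smul_eq_mul, mul_sum]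
        refine sum_congr rfl fun s _ => ?_
        rw [h1, Finsupp.smul_apply, smul_eq_mul, mul_assoc] }
  have hφ : ∀ x, ‖φ x‖ ≤ C * ‖x‖ := by
    intro x
    have e1 : φ x = ∑ s ∈ (MonoidAlgebra.coeff x).support, MonoidAlgebra.coeff x s * h s := rfl
    rw [e1, norm_WAlg, wnorm_eq ω x _ subset_rfl, mul_sum]
    refine (norm_sum_le _ _).trans (sum_le_sum fun s _ => ?_)
    rw [norm_mul]
    calc ‖MonoidAlgebra.coeff x s‖ * ‖h s‖
        ≤ ‖MonoidAlgebra.coeff x s‖ * (C * ω.toFun s) :=
          mul_le_mul_of_nonneg_left (hC s) (norm_nonneg _)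
      _ = C * (‖MonoidAlgebra.coeff x s‖ * ω.toFun s) := by ring
  let ψ : WAlg G ω →L[ℂ] ℂ := φ.mkContinuous C hφ
  have hψs : ∀ s, ψ (sgl ω s 1) = h s := by
    intro s
    have e1 : ψ (sgl ω s 1) = ∑ t ∈ (Finsupp.single s (1 : ℂ)).support,
        (Finsupp.single s (1 : ℂ)) t * h t := rfl
    rw [e1, Finsupp.support_single _ one_ne_zero, sum_singleton, Finsupp.single_eq_same,
      one_mul]
  refine ⟨ψ.extend (UniformSpace.Completion.toComplL (𝕜 := ℂ) (E := WAlg G ω)), fun s => ?_⟩
  have := ContinuousLinearMap.extend_eq ψ (e := UniformSpace.Completion.toComplL)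
    UniformSpace.Completion.denseRange_coe
    (UniformSpace.Completion.isUniformInducing_coe _) (sgl ω s 1)
  exact this.trans (hψs s)

end

end H263R3.Arens
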