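import Mathlib

/-!
# The bidual of a Banach algebra with the first Arens product

Light definitions for the statement.
-/

namespace H263R3.ArensBidual

noncomputable section

variable (A : Type*) [NormedRing A] [NormedAlgebra ℂ A]

/-- The dual Banach space `A'`: the continuous linear functionals on `A`. -/
def Dual1 : Type _ := StrongDual ℂ A

instance instNACGDual1 : NormedAddCommGroup (Dual1 A) :=
  (inferInstance : NormedAddCommGroup (StrongDual ℂ A))

instance instNSDual1 : NormedSpace ℂ (Dual1 A) := (inferInstance : NormedSpace ℂ (StrongDual ℂ A))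

/-- The bidual `A''`: the continuous linear functionals on `A'`. -/
def Bidual : Type _ := StrongDual ℂ (Dual1 A)

instance instNACGBidual : NormedAddCommGroup (Bidual A) :=
  (inferInstance : NormedAddCommGroup (StrongDual ℂ (Dual1 A)))

variable {A}

/-- Value of a functional `f ∈ A'` at `a ∈ A`. -/
def ev (f : Dual1 A) (a : A) : ℂ := (show StrongDual ℂ A from f) a

/-- Value of `Φ ∈ A''` at `f ∈ A'`. -/
def ev2 (Φ : Bidual A) (f : Dual1 A) : ℂ := (show StrongDual ℂ (Dual1 A) from Φ) f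

theorem ev_add (f : Dual1 A) (a b : A) : ev f (a + b) = ev f a + ev f b :=
  map_add (show StrongDual ℂ A from f) a b

theorem ev_smul (f : Dual1 A) (c : ℂ) (a : A) : ev f (c • a) = c * ev f a :=
  map_smul (show StrongDual ℂ A from f) c a

theorem ev_bound (f : Dual1 A) (a : A) : ‖ev f a‖ ≤ ‖f‖ * ‖a‖ :=
  ContinuousLinearMap.le_opNorm (show StrongDual ℂ A from f) a

theorem ev2_add (Φ : Bidual A) (f g : Dual1 A) : ev2 Φ (f + g) = ev2 Φ f + ev2 Φ g :=
  map_add (show StrongDual ℂ (Dual1 A) from Φ) f g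

theorem ev2_smul (Φ : Bidual A) (c : ℂ) (f : Dual1 A) : ev2 Φ (c • f) = c * ev2 Φ f :=
  map_smul (show StrongDual ℂ (Dual1 A) from Φ) c f

theorem ev2_bound (Φ : Bidual A) (f : Dual1 A) : ‖ev2 Φ f‖ ≤ ‖Φ‖ * ‖f‖ :=
  ContinuousLinearMap.le_opNorm (show StrongDual ℂ (Dual1 A) from Φ) f

/-- Build an element of `A'` from a bounded linear functional. -/
def mk1 (g : A → ℂ) (hadd : ∀ a b, g (a + b) = g a + g b) (hsmul : ∀ (c : ℂ) a, g (c • a) = c * g a)
    (C : ℝ) (hC : ∀ a, ‖g a‖ ≤ C * ‖a‖) : Dual1 A :=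
  LinearMap.mkContinuous { toFun := g, map_add' := hadd, map_smul' := hsmul } C hC

/-- Build an element of `A''` from a bounded linear functional on `A'`. -/
def mk2 (g : Dual1 A → ℂ) (hadd : ∀ a b, g (a + b) = g a + g b)
    (hsmul : ∀ (c : ℂ) a, g (c • a) = c * g a)
    (C : ℝ) (hC : ∀ a, ‖g a‖ ≤ C * ‖a‖) : Bidual A :=
  LinearMap.mkContinuous { toFun := g, map_add' := hadd, map_smul' := hsmul } C hC

theorem actR_add (f : Dual1 A) (a b c : A) : ev f (a * (b + c)) = ev f (a * b) + ev f (a * c) := by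
  rw [mul_add, ev_add]

theorem actR_smul (f : Dual1 A) (a : A) (c : ℂ) (b : A) :
    ev f (a * (c • b)) = c * ev f (a * b) := by
  rw [mul_smul_comm, ev_smul]

theorem actR_bound (f : Dual1 A) (a b : A) : ‖ev f (a * b)‖ ≤ (‖f‖ * ‖a‖) * ‖b‖ := by
  refine (ev_bound f _).trans ?_
  rw [mul_assoc]
  exact mul_le_mul_of_nonneg_left (norm_mul_le a b) (norm_nonneg _)

/-- The module action of `A` on `A'`: `(f · a)(b) = f (a * b)`. -/
def actR (f : Dual1 A) (a : A) : Dual1 A :=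
  mk1 (fun b => ev f (a * b)) (actR_add f a) (actR_smul f a) (‖f‖ * ‖a‖) (actR_bound f a)

theorem ev_actR (f : Dual1 A) (a b : A) : ev (actR f a) b = ev f (a * b) := rfl

theorem dual_ext {f g : Dual1 A} (h : ∀ a, ev f a = ev g a) : f = g :=
  ContinuousLinearMap.ext h

theorem bidual_ext {f g : Bidual A} (h : ∀ a, ev2 f a = ev2 g a) : f = g :=
  ContinuousLinearMap.ext h

theorem norm_actR_le (f : Dual1 A) (a : A) : ‖actR f a‖ ≤ ‖f‖ * ‖a‖ :=
  ContinuousLinearMap.opNorm_le_bound (show StrongDual ℂ A from actR f a) (by positivity)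
    (actR_bound f a)

theorem actR_add_right (f : Dual1 A) (a b : A) : actR f (a + b) = actR f a + actR f b :=
  dual_ext fun c => by
    show ev f ((a + b) * c) = ev f (a * c) + ev f (b * c)
    rw [add_mul, ev_add]

theorem actR_smul_right (f : Dual1 A) (c : ℂ) (a : A) : actR f (c • a) = c • actR f a :=
  dual_ext fun b => by
    show ev f ((c • a) * b) = c * ev f (a * b)
    rw [smul_mul_assoc, ev_smul]

theorem actR_add_left (f g : Dual1 A) (a : A) : actR (f + g) a = actR f a + actR g a :=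
  dual_ext fun _ => rfl

theorem actR_smul_left (c : ℂ) (f : Dual1 A) (a : A) : actR (c • f) a = c • actR f a :=
  dual_ext fun _ => rfl

theorem actL_add (Ψ : Bidual A) (f : Dual1 A) (a b : A) :
    ev2 Ψ (actR f (a + b)) = ev2 Ψ (actR f a) + ev2 Ψ (actR f b) := by
  rw [actR_add_right, ev2_add]

theorem actL_smul (Ψ : Bidual A) (f : Dual1 A) (c : ℂ) (a : A) :
    ev2 Ψ (actR f (c • a)) = c * ev2 Ψ (actR f a) := by
  rw [actR_smul_right, ev2_smul]

theorem actL_bound (Ψ : Bidual A) (f : Dual1 A) (a : A) :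
    ‖ev2 Ψ (actR f a)‖ ≤ (‖Ψ‖ * ‖f‖) * ‖a‖ := by
  refine (ev2_bound Ψ _).trans ?_
  rw [mul_assoc]
  exact mul_le_mul_of_nonneg_left (norm_actR_le f a) (norm_nonneg _)

/-- The action of `A''` on `A'`: `(Ψ · f)(a) = Ψ (f · a)`. -/
def actL (Ψ : Bidual A) (f : Dual1 A) : Dual1 A :=
  mk1 (fun a => ev2 Ψ (actR f a)) (actL_add Ψ f) (actL_smul Ψ f) (‖Ψ‖ * ‖f‖) (actL_bound Ψ f)

theorem ev_actL (Ψ : Bidual A) (f : Dual1 A) (a : A) : ev (actL Ψ f) a = ev2 Ψ (actR f a) := rfl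

theorem norm_actL_le (Ψ : Bidual A) (f : Dual1 A) : ‖actL Ψ f‖ ≤ ‖Ψ‖ * ‖f‖ :=
  ContinuousLinearMap.opNorm_le_bound (show StrongDual ℂ A from actL Ψ f) (by positivity)
    (actL_bound Ψ f)

theorem actL_add_right (Ψ : Bidual A) (f g : Dual1 A) : actL Ψ (f + g) = actL Ψ f + actL Ψ g :=
  dual_ext fun a => by
    show ev2 Ψ (actR (f + g) a) = ev2 Ψ (actR f a) + ev2 Ψ (actR g a)
    rw [actR_add_left, ev2_add]

theorem actL_smul_right (Ψ : Bidual A) (c : ℂ) (f : Dual1 A) : actL Ψ (c • f) = c • actL Ψ f :=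
  dual_ext fun a => by
    show ev2 Ψ (actR (c • f) a) = c * ev2 Ψ (actR f a)
    rw [actR_smul_left, ev2_smul]

theorem arens_add (Φ Ψ : Bidual A) (f g : Dual1 A) :
    ev2 Φ (actL Ψ (f + g)) = ev2 Φ (actL Ψ f) + ev2 Φ (actL Ψ g) := by
  rw [actL_add_right, ev2_add]

theorem arens_smul (Φ Ψ : Bidual A) (c : ℂ) (f : Dual1 A) :
    ev2 Φ (actL Ψ (c • f)) = c * ev2 Φ (actL Ψ f) := by
  rw [actL_smul_right, ev2_smul]

theorem arens_bound (Φ Ψ : Bidual A) (f : Dual1 A) :
    ‖ev2 Φ (actL Ψ f)‖ ≤ (‖Φ‖ * ‖Ψ‖) * ‖f‖ := by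
  refine (ev2_bound Φ _).trans ?_
  rw [mul_assoc]
  exact mul_le_mul_of_nonneg_left (norm_actL_le Ψ f) (norm_nonneg _)

/-- The first Arens product: `(Φ □ Ψ)(f) = Φ (Ψ · f)`. -/
def arens (Φ Ψ : Bidual A) : Bidual A :=
  mk2 (fun f => ev2 Φ (actL Ψ f)) (arens_add Φ Ψ) (arens_smul Φ Ψ) (‖Φ‖ * ‖Ψ‖) (arens_bound Φ Ψ)

theorem ev2_arens (Φ Ψ : Bidual A) (f : Dual1 A) : ev2 (arens Φ Ψ) f = ev2 Φ (actL Ψ f) := rfl

theorem one_bound (f : Dual1 A) : ‖ev f 1‖ ≤ ‖(1 : A)‖ * ‖f‖ := by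
  rw [mul_comm]
  exact ev_bound f 1

theorem one_add (f g : Dual1 A) : ev (f + g) 1 = ev f 1 + ev g 1 := rfl

theorem one_smul' (c : ℂ) (f : Dual1 A) : ev (c • f) 1 = c * ev f 1 := rfl

/-- The unit of the bidual: evaluation at `1`. -/
def unit2 : Bidual A := mk2 (fun f => ev f 1) one_add one_smul' ‖(1 : A)‖ one_bound

theorem arens_assoc (Φ Ψ Θ : Bidual A) : arens (arens Φ Ψ) Θ = arens Φ (arens Ψ Θ) := by
  refine bidual_ext fun f => ?_
  show ev2 Φ (actL Ψ (actL Θ f)) = ev2 Φ (actL (arens Ψ Θ) f)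
  congr 1
  refine dual_ext fun a => ?_
  show ev2 Ψ (actR (actL Θ f) a) = ev2 Ψ (actL Θ (actR f a))
  congr 1
  refine dual_ext fun b => ?_
  show ev2 Θ (actR f (a * b)) = ev2 Θ (actR (actR f a) b)
  congr 1
  refine dual_ext fun c => ?_
  show ev f (a * b * c) = ev f (a * (b * c))
  rw [mul_assoc]

theorem unit2_arens (Φ : Bidual A) : arens unit2 Φ = Φ := by
  refine bidual_ext fun f => ?_
  show ev2 Φ (actR f 1) = ev2 Φ f
  congr 1
  refine dual_ext fun b => ?_
  show ev f (1 * b) = ev f b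
  rw [one_mul]

theorem arens_unit2 (Φ : Bidual A) : arens Φ unit2 = Φ := by
  refine bidual_ext fun f => ?_
  show ev2 Φ (actL unit2 f) = ev2 Φ f
  congr 1
  refine dual_ext fun a => ?_
  show ev f (a * 1) = ev f a
  rw [mul_one]

theorem arens_add_right (Φ Ψ Θ : Bidual A) : arens Φ (Ψ + Θ) = arens Φ Ψ + arens Φ Θ := by
  refine bidual_ext fun f => ?_
  show ev2 Φ (actL (Ψ + Θ) f) = ev2 Φ (actL Ψ f) + ev2 Φ (actL Θ f)
  rw [← ev2_add]
  rfl

theorem arens_add_left (Φ Ψ Θ : Bidual A) : arens (Φ + Ψ) Θ = arens Φ Θ + arens Ψ Θ :=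
  bidual_ext fun _ => rfl

theorem arens_zero (Φ : Bidual A) : arens Φ 0 = 0 := by
  have h := arens_add_right Φ 0 0
  rw [add_zero] at h
  exact left_eq_add.mp h

theorem zero_arens (Φ : Bidual A) : arens 0 Φ = 0 := by
  have h := arens_add_left 0 0 Φ
  rw [add_zero] at h
  exact left_eq_add.mp h

/-- The ring structure of the bidual given by the first Arens product. -/
instance instRingBidual : Ring (Bidual A) :=
  { instNACGBidual A with
    mul := arens
    one := unit2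
    mul_assoc := arens_assoc
    one_mul := unit2_arens
    mul_one := arens_unit2
    left_distrib := arens_add_right
    right_distrib := arens_add_left
    zero_mul := zero_arens
    mul_zero := arens_zero }

theorem bidual_mul (Φ Ψ : Bidual A) : Φ * Ψ = arens Φ Ψ := rfl

end

end H263R3.ArensBidual
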