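import Pool.Agent.H263R3.ArensMain
import Pool.Agent.H263R3.ArensStmt

/-!
# The two descriptions of the Arens product agree
-/

namespace H263R3.ArensBidual

noncomputable section

variable {A : Type*} [NormedRing A] [NormedAlgebra ℂ A]

/-- identity map to the concrete bidual -/
def toOld (Φ : Bidual A) : StrongDual ℂ (StrongDual ℂ A) := Φ

/-- identity map from the concrete bidual -/
def ofOld (Φ : StrongDual ℂ (StrongDual ℂ A)) : Bidual A := Φ

theorem arens_eq (Φ Ψ : Bidual A) : arens Φ Ψ = ofOld (Arens.arens (toOld Φ) (toOld Ψ)) := by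
  refine bidual_ext fun f => ?_
  have h : actL Ψ f = Arens.actL (toOld Ψ) f := by
    refine dual_ext fun a => ?_
    show ev2 Ψ (actR f a) = toOld Ψ (Arens.actR f a)
    have h2 : actR f a = Arens.actR f a := dual_ext fun b => rfl
    rw [h2]
    rfl
  show ev2 Φ (actL Ψ f) = toOld Φ (Arens.actL (toOld Ψ) f)
  rw [h]
  rfl

theorem sandwich_of_old (Φ : StrongDual ℂ (StrongDual ℂ A)) (h0 : Φ ≠ 0)
    (h : ∀ Ψ, Arens.arens (Arens.arens Φ Ψ) Φ = 0) :
    ∃ Φ' : Bidual A, Φ' ≠ 0 ∧ ∀ Ψ' : Bidual A, Φ' * Ψ' * Φ' = 0 := by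
  refine ⟨ofOld Φ, h0, fun Ψ => ?_⟩
  rw [bidual_mul, bidual_mul, arens_eq, arens_eq]
  exact h (toOld Ψ)

end

end H263R3.ArensBidual
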