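import Mathlib

/-!
# The dual of a complex normed space with its weak-star topology
-/

namespace H263R3

open Set Filter Topology

/-- The dual of `E` with the weak-star topology. -/
def WV (E : Type*) [NormedAddCommGroup E] [NormedSpace ℂ E] : Type _ := WeakDual ℂ E

namespace WV
variable {E : Type*} [NormedAddCommGroup E] [NormedSpace ℂ E]
noncomputable section
instance : AddCommGroup (WV E) := inferInstanceAs (AddCommGroup (WeakDual ℂ E))
instance : Module ℂ (WV E) := inferInstanceAs (Module ℂ (WeakDual ℂ E))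
instance : TopologicalSpace (WV E) := inferInstanceAs (TopologicalSpace (WeakDual ℂ E))
instance : IsTopologicalAddGroup (WV E) := inferInstanceAs (IsTopologicalAddGroup (WeakDual ℂ E))
instance : ContinuousSMul ℂ (WV E) := inferInstanceAs (ContinuousSMul ℂ (WeakDual ℂ E))
instance : T2Space (WV E) := inferInstanceAs (T2Space (WeakDual ℂ E))
instance : FunLike (WV E) E ℂ := inferInstanceAs (FunLike (WeakDual ℂ E) E ℂ)

/-- identity -/
def of (x : StrongDual ℂ E) : WV E := StrongDual.toWeakDual x
/-- identity -/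
def toD (x : WV E) : StrongDual ℂ E := WeakDual.toStrongDual x

theorem of_apply (x : StrongDual ℂ E) (f : E) : of x f = x f := rfl
theorem toD_apply (x : WV E) (f : E) : toD x f = x f := rfl
theorem add_apply (x y : WV E) (f : E) : (x + y) f = x f + y f := rfl
theorem sub_apply (x y : WV E) (f : E) : (x - y) f = x f - y f := rfl
theorem smul_apply (c : ℂ) (x : WV E) (f : E) : (c • x) f = c * x f := rfl
theorem real_smul_apply (c : ℝ) (x : WV E) (f : E) : (c • x) f = c * x f := rfl

instance : IsScalarTower ℝ ℂ (WV E) := inferInstance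
instance : ContinuousSMul ℝ (WV E) := IsScalarTower.continuousSMul (M := ℝ) (α := WV E) ℂ
instance : LocallyConvexSpace ℝ (WV E) := by
  have h := LinearMap.weakBilin_withSeminorms (topDualPairing ℂ E)
  exact @WithSeminorms.toLocallyConvexSpace ℂ (WV E) E _ _ _ _ _ _ _ _ h

theorem eval_continuous (f : E) : Continuous fun x : WV E => x f := WeakDual.eval_continuous f

theorem continuous_of_eval {α : Type*} [TopologicalSpace α] {g : α → WV E}
    (h : ∀ f, Continuous fun a => (g a) f) : Continuous g :=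
  WeakDual.continuous_of_continuous_eval (g := g) h

theorem functional (φ : StrongDual ℂ (WV E)) : ∃ f : E, ∀ x, φ x = x f := by
  obtain ⟨f, hf⟩ := LinearMap.dualEmbedding_surjective (topDualPairing ℂ E) φ
  refine ⟨f, fun x => ?_⟩
  have := DFunLike.congr_fun hf x
  exact this.symm

/-- The bounded ball, written pointwise. -/
def wball (E : Type*) [NormedAddCommGroup E] [NormedSpace ℂ E] (K : ℝ) : Set (WV E) :=
  {x | ∀ f : E, ‖x f‖ ≤ K * ‖f‖}

theorem isCompact_wball (E : Type*) [NormedAddCommGroup E] [NormedSpace ℂ E] {K : ℝ}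
    (hK : 0 ≤ K) : IsCompact (wball E K) := by
  have hB := WeakDual.isCompact_closedBall (𝕜 := ℂ) (E := E) 0 K
  have h : wball E K = (toD ⁻¹' Metric.closedBall (0 : StrongDual ℂ E) K : Set (WV E)) := by
    ext x
    rw [mem_preimage, mem_closedBall_zero_iff]
    constructor
    · intro hx
      exact ContinuousLinearMap.opNorm_le_bound _ hK hx
    · intro hx f
      exact (ContinuousLinearMap.le_opNorm (toD x) f).trans
        (mul_le_mul_of_nonneg_right hx (norm_nonneg _))
  rw [h]
  exact hB

theorem convex_wball (E : Type*) [NormedAddCommGroup E] [NormedSpace ℂ E] (K : ℝ) :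
    Convex ℝ (wball E K) := by
  intro x hx y hy a b ha hb hab f
  rw [add_apply, real_smul_apply, real_smul_apply]
  calc ‖(a : ℂ) * x f + (b : ℂ) * y f‖ ≤ ‖(a : ℂ) * x f‖ + ‖(b : ℂ) * y f‖ := norm_add_le _ _
    _ = a * ‖x f‖ + b * ‖y f‖ := by
        rw [norm_mul, norm_mul, Complex.norm_of_nonneg ha, Complex.norm_of_nonneg hb]
    _ ≤ a * (K * ‖f‖) + b * (K * ‖f‖) :=
        add_le_add (mul_le_mul_of_nonneg_left (hx f) ha) (mul_le_mul_of_nonneg_left (hy f) hb)
    _ = (a + b) * (K * ‖f‖) := by ring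
    _ = K * ‖f‖ := by rw [hab, one_mul]

/-- A sequence of averages has a cluster point, which is a fixed point. -/
theorem exists_fixed (K : Set (WV E)) (hK : IsCompact K) (hc : Convex ℝ K) (hne : K.Nonempty)
    (T : WV E →ₗ[ℝ] WV E) (hT : Continuous T) (hTK : ∀ x ∈ K, T x ∈ K) :
    ∃ x ∈ K, T x = x := by
  obtain ⟨x0, hx0⟩ := hne
  have hit : ∀ n : ℕ, (T ^ n) x0 ∈ K := by
    intro n
    induction n with
    | zero => simpa using hx0
    | succ n ih => rw [pow_succ', Module.End.mul_apply]; exact hTK _ ih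
  set S : ℕ → WV E := fun n => ∑ k ∈ Finset.range (n + 1), ((n + 1 : ℝ)⁻¹) • (T ^ k) x0
    with hS
  have hSK : ∀ n, S n ∈ K := by
    intro n
    refine hc.sum_mem (fun i _ => by positivity) ?_ (fun i _ => hit i)
    rw [Finset.sum_const, Finset.card_range, nsmul_eq_mul]
    push_cast
    field_simp
  have hTS : ∀ n, T (S n) - S n = ((n + 1 : ℝ)⁻¹) • ((T ^ (n + 1)) x0 - x0) := by
    intro n
    simp only [hS, map_sum, map_smul]
    rw [← Finset.smul_sum, ← Finset.smul_sum, ← smul_sub]
    congr 1
    have h1 : ∀ k, T ((T ^ k) x0) = (T ^ (k + 1)) x0 := by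
      intro k
      rw [pow_succ', Module.End.mul_apply]
    simp only [h1]
    rw [← Finset.sum_sub_distrib, Finset.sum_range_sub (fun k => (T ^ k) x0)]
    simp
  obtain ⟨x, hxK, hx⟩ : ∃ x ∈ K, MapClusterPt x atTop S :=
    hK.exists_mapClusterPt_of_frequently (Frequently.of_forall hSK)
  refine ⟨x, hxK, ?_⟩
  apply DFunLike.ext
  intro f
  have hφ : Continuous fun z : WV E => (T z - z) f :=
    (eval_continuous f).comp (hT.sub continuous_id)
  have h2 : MapClusterPt ((T x - x) f) atTop (fun n => (T (S n) - S n) f) :=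
    MapClusterPt.continuousAt_comp (f := fun z : WV E => (T z - z) f) (x := x) (u := S)
      hφ.continuousAt hx
  obtain ⟨M, hM⟩ : ∃ M : ℝ, ∀ z ∈ K, ‖z f‖ ≤ M := by
    have hb := (hK.image (eval_continuous f)).isBounded
    obtain ⟨M, hM⟩ := hb.exists_norm_le
    exact ⟨M, fun z hz => hM _ (mem_image_of_mem _ hz)⟩
  have h3 : Tendsto (fun n => (T (S n) - S n) f) atTop (𝓝 0) := by
    apply squeeze_zero_norm (a := fun n : ℕ => ((n + 1 : ℝ)⁻¹) * (2 * M))
    · intro n
      rw [hTS n, real_smul_apply, norm_mul, Complex.norm_of_nonneg (by positivity), sub_apply]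
      gcongr
      calc ‖((T ^ (n + 1)) x0) f - x0 f‖ ≤ ‖((T ^ (n + 1)) x0) f‖ + ‖x0 f‖ := norm_sub_le _ _
        _ ≤ M + M := add_le_add (hM _ (hit _)) (hM _ hx0)
        _ = 2 * M := by ring
    · have : Tendsto (fun n : ℕ => ((n + 1 : ℝ)⁻¹) * (2 * M)) atTop (𝓝 (0 * (2 * M))) := by
        apply Tendsto.mul_const
        have := tendsto_one_div_add_atTop_nhds_zero_nat (𝕜 := ℝ)
        simpa [one_div] using this
      simpa using this
  have h4 : (T x - x) f = 0 := by
    have h5 : ClusterPt ((T x - x) f) (𝓝 (0 : ℂ)) := ClusterPt.mono h2 h3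
    exact eq_of_nhds_neBot h5
  rw [sub_apply] at h4
  exact sub_eq_zero.mp h4

end

end WV

end H263R3
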