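import Pool.Agent.H263R3.ArensDef
import Pool.Agent.H263R3.WV

/-!
# Minimal invariant compact convex sets in the bidual
-/

namespace H263R3.Arens

open Set Filter Topology

noncomputable section

variable {A : Type*} [NormedRing A] [NormedAlgebra ℂ A]

/-- The bidual with its weak-star topology. -/
abbrev W2 (A : Type*) [NormedRing A] [NormedAlgebra ℂ A] := WV (StrongDual ℂ A)

/-- Arens product on the bidual with weak-star topology. -/
def wmul (Φ Ψ : W2 A) : W2 A :=
  WV.of (arens (WV.toD Φ) (WV.toD Ψ))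

theorem wmul_apply (Φ Ψ : W2 A) (f : StrongDual ℂ A) :
    wmul Φ Ψ f = Φ (actL (WV.toD Ψ) f) := rfl

/-- The canonical image of `a` in the bidual. -/
def wiota (a : A) : W2 A := WV.of (iota a)

theorem wiota_apply (a : A) (f : StrongDual ℂ A) : wiota a f = f a := rfl

theorem wmul_assoc (x y z : W2 A) : wmul (wmul x y) z = wmul x (wmul y z) :=
  arens_assoc _ _ _

theorem wmul_iota_apply (a : A) (x : W2 A) (f : StrongDual ℂ A) :
    wmul (wiota a) x f = x (actR f a) := rfl

theorem wmul_add (x y z : W2 A) : wmul x (y + z) = wmul x y + wmul x z := arens_add _ _ _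

theorem add_wmul (x y z : W2 A) : wmul (x + y) z = wmul x z + wmul y z := add_arens _ _ _

theorem wmul_smul (c : ℂ) (x y : W2 A) : wmul x (c • y) = c • wmul x y := arens_smul _ _ _

theorem smul_wmul (c : ℂ) (x y : W2 A) : wmul (c • x) y = c • wmul x y := smul_arens _ _ _

theorem real_smul_wmul (c : ℝ) (x y : W2 A) : wmul (c • x) y = c • wmul x y :=
  smul_wmul (c : ℂ) x y

theorem wmul_real_smul (c : ℝ) (x y : W2 A) : wmul x (c • y) = c • wmul x y :=
  wmul_smul (c : ℂ) x y

theorem continuous_wmul_left (y : W2 A) : Continuous fun x : W2 A => wmul x y :=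
  WV.continuous_of_eval fun f => WV.eval_continuous (actL _ f)

theorem continuous_iota_wmul (a : A) : Continuous fun x : W2 A => wmul (wiota a) x :=
  WV.continuous_of_eval fun f => WV.eval_continuous (actR f a)

/-- right multiplication as a real linear map -/
def rmulLin (y : W2 A) : W2 A →ₗ[ℝ] W2 A where
  toFun x := wmul x y
  map_add' a b := add_wmul a b y
  map_smul' c a := real_smul_wmul c a y

variable {G : Type*} [Group G]

/-- closed convex invariant nonempty set -/
structure Inv (δ : G →* A) (Λ : Set (W2 A)) : Prop where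
  closed : IsClosed Λ
  conv : Convex ℝ Λ
  ne : Λ.Nonempty
  inv : ∀ s, ∀ x ∈ Λ, wmul (wiota (δ s)) x ∈ Λ

/-- minimal ones -/
structure IsMin (δ : G →* A) (Λ : Set (W2 A)) : Prop extends Inv δ Λ where
  min : ∀ Λ' ⊆ Λ, Inv δ Λ' → Λ' = Λ

/-- The weak-star closed convex hull of the point masses. -/
def means (δ : G →* A) : Set (W2 A) :=
  closure (convexHull ℝ (Set.range fun s => wiota (δ s)))

theorem isClosed_means (δ : G →* A) : IsClosed (means δ) := isClosed_closure

theorem convex_means (δ : G →* A) : Convex ℝ (means δ) := (convex_convexHull ℝ _).closure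

theorem wiota_mem_means (δ : G →* A) (s : G) : wiota (δ s) ∈ means δ :=
  subset_closure (subset_convexHull ℝ _ ⟨s, rfl⟩)

theorem means_subset_wball (δ : G →* A) (K : ℝ) (hδ : ∀ s, ‖δ s‖ ≤ K) :
    means δ ⊆ WV.wball (StrongDual ℂ A) K := by
  have hK : 0 ≤ K := (norm_nonneg _).trans (hδ 1)
  refine closure_minimal (convexHull_min ?_ (WV.convex_wball _ K)) (WV.isCompact_wball _ hK).isClosed
  rintro _ ⟨s, rfl⟩ f
  rw [wiota_apply, mul_comm]
  exact (f.le_opNorm (δ s)).trans (mul_le_mul_of_nonneg_left (hδ s) (norm_nonneg _))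

theorem isCompact_means (δ : G →* A) (K : ℝ) (hδ : ∀ s, ‖δ s‖ ≤ K) : IsCompact (means δ) :=
  (WV.isCompact_wball _ ((norm_nonneg _).trans (hδ 1))).of_isClosed_subset (isClosed_means δ)
    (means_subset_wball δ K hδ)

theorem wmul_mem_of_means (δ : G →* A) {Λ : Set (W2 A)} (hcl : IsClosed Λ) (hco : Convex ℝ Λ)
    {y : W2 A} (hy : ∀ s, wmul (wiota (δ s)) y ∈ Λ) {x : W2 A} (hx : x ∈ means δ) :
    wmul x y ∈ Λ := by
  have h : means δ ⊆ {x | wmul x y ∈ Λ} := by
    refine closure_minimal (convexHull_min ?_ ?_) (hcl.preimage (continuous_wmul_left y))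
    · rintro _ ⟨s, rfl⟩
      exact hy s
    · intro p hp q hq a b ha hb hab
      show wmul (a • p + b • q) y ∈ Λ
      rw [add_wmul, real_smul_wmul, real_smul_wmul]
      exact hco hp hq ha hb hab
  exact h hx

theorem exists_isMin (δ : G →* A) {K : Set (W2 A)} (hK : IsCompact K) (hI : Inv δ K) :
    ∃ Λ ⊆ K, IsMin δ Λ := by
  obtain ⟨m, hmK, hm⟩ := zorn_superset_nonempty {Λ : Set (W2 A) | Λ ⊆ K ∧ Inv δ Λ} (by
    intro c hc hchain hne
    refine ⟨⋂₀ c, ⟨?_, ?_⟩, fun s hs => sInter_subset_of_mem hs⟩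
    · obtain ⟨s, hs⟩ := hne
      exact (sInter_subset_of_mem hs).trans (hc hs).1
    · constructor
      · exact isClosed_sInter fun s hs => (hc hs).2.closed
      · exact convex_sInter fun s hs => (hc hs).2.conv
      · have hdir : DirectedOn (· ⊇ ·) c := by
          intro a ha b hb
          rcases hchain.total ha hb with h | h
          · exact ⟨a, ha, subset_rfl, h⟩
          · exact ⟨b, hb, h, subset_rfl⟩
        have : Nonempty c := hne.to_subtype
        exact IsCompact.nonempty_sInter_of_directed_nonempty_isCompact_isClosed hdir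
          (fun s hs => (hc hs).2.ne)
          (fun s hs => hK.of_isClosed_subset (hc hs).2.closed (hc hs).1)
          (fun s hs => (hc hs).2.closed)
      · intro s x hx
        rw [mem_sInter] at hx ⊢
        intro t ht
        exact (hc ht).2.inv s x (hx t ht)) K ⟨subset_rfl, hI⟩
  refine ⟨m, hmK, hm.prop.2, ?_⟩
  intro Λ' hsub hΛ'
  exact subset_antisymm hsub (hm.le_of_le ⟨hsub.trans hm.prop.1, hΛ'⟩ hsub)

theorem left_zero (δ : G →* A) {K : ℝ} (hδ : ∀ s, ‖δ s‖ ≤ K) {Λ : Set (W2 A)}
    (hΛ : IsMin δ Λ) (hP : Λ ⊆ means δ) {x y : W2 A} (hx : x ∈ Λ) (hy : y ∈ Λ) :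
    wmul x y = x := by
  have hcomp : IsCompact Λ := (isCompact_means δ K hδ).of_isClosed_subset hΛ.closed hP
  obtain ⟨x0, hx0, hfix⟩ := WV.exists_fixed Λ hcomp hΛ.conv hΛ.ne (rmulLin y)
    (continuous_wmul_left y)
    (fun z hz => wmul_mem_of_means δ hΛ.closed hΛ.conv (fun s => hΛ.inv s y hy) (hP hz))
  have hmin := hΛ.min {z ∈ Λ | wmul z y = z} (fun z hz => hz.1) (by
    constructor
    · exact hΛ.closed.inter (isClosed_eq (continuous_wmul_left y) continuous_id)
    · intro p hp q hq a b ha hb hab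
      refine ⟨hΛ.conv hp.1 hq.1 ha hb hab, ?_⟩
      show wmul (a • p + b • q) y = a • p + b • q
      rw [add_wmul, real_smul_wmul, real_smul_wmul, hp.2, hq.2]
    · exact ⟨x0, hx0, hfix⟩
    · intro s z hz
      refine ⟨hΛ.inv s z hz.1, ?_⟩
      show wmul (wmul (wiota (δ s)) z) y = wmul (wiota (δ s)) z
      rw [wmul_assoc, hz.2])
  rw [← hmin] at hx
  exact hx.2

end

end H263R3.Arens
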