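import Mathlib

/-!
# The first Arens product on the bidual of a Banach algebra
-/

namespace H263R3.Arens

noncomputable section

variable {A : Type*} [NormedRing A] [NormedAlgebra ℂ A]

/-- The right action of `A` on its dual: `(f · a)(b) = f (a * b)`. -/
def actR : StrongDual ℂ A →L[ℂ] A →L[ℂ] StrongDual ℂ A :=
  ((ContinuousLinearMap.compL ℂ A (A →L[ℂ] A) (A →L[ℂ] ℂ)).flip (ContinuousLinearMap.mul ℂ A)) ∘L
    (ContinuousLinearMap.compL ℂ A A ℂ)

theorem actR_apply (f : StrongDual ℂ A) (a b : A) : actR f a b = f (a * b) := rfl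

/-- The left action of the bidual on the dual: `(Ψ · f)(a) = Ψ (f · a)`. -/
def actL (Ψ : StrongDual ℂ (StrongDual ℂ A)) : StrongDual ℂ A →L[ℂ] StrongDual ℂ A :=
  (ContinuousLinearMap.compL ℂ A (StrongDual ℂ A) ℂ Ψ) ∘L actR

theorem actL_apply (Ψ : StrongDual ℂ (StrongDual ℂ A)) (f : StrongDual ℂ A) (a : A) :
    actL Ψ f a = Ψ (actR f a) := rfl

/-- The first Arens product: `(Φ □ Ψ)(f) = Φ (Ψ · f)`. -/
def arens (Φ Ψ : StrongDual ℂ (StrongDual ℂ A)) : StrongDual ℂ (StrongDual ℂ A) :=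
  Φ ∘L actL Ψ

theorem arens_apply (Φ Ψ : StrongDual ℂ (StrongDual ℂ A)) (f : StrongDual ℂ A) :
    arens Φ Ψ f = Φ (actL Ψ f) := rfl

/-- Evaluation at `a`, the canonical image of `a` in the bidual. -/
def iota (a : A) : StrongDual ℂ (StrongDual ℂ A) := ContinuousLinearMap.apply ℂ ℂ a

theorem iota_apply (a : A) (f : StrongDual ℂ A) : iota a f = f a := rfl

theorem actR_actR (f : StrongDual ℂ A) (a b : A) : actR (actR f a) b = actR f (a * b) := by
  ext c
  simp only [actR_apply, mul_assoc]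

theorem actL_actR (Ψ : StrongDual ℂ (StrongDual ℂ A)) (f : StrongDual ℂ A) (a : A) :
    actL Ψ (actR f a) = actR (actL Ψ f) a := by
  ext b
  rw [actL_apply, actR_apply, actL_apply, actR_actR]

theorem actL_arens (Φ Ψ : StrongDual ℂ (StrongDual ℂ A)) (f : StrongDual ℂ A) :
    actL (arens Φ Ψ) f = actL Φ (actL Ψ f) := by
  ext a
  rw [actL_apply, arens_apply, actL_actR, actL_apply]

theorem arens_assoc (Φ Ψ Θ : StrongDual ℂ (StrongDual ℂ A)) :
    arens (arens Φ Ψ) Θ = arens Φ (arens Ψ Θ) := by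
  ext f
  rw [arens_apply, arens_apply, arens_apply, actL_arens]

theorem actL_add (Φ Ψ : StrongDual ℂ (StrongDual ℂ A)) (f : StrongDual ℂ A) :
    actL (Φ + Ψ) f = actL Φ f + actL Ψ f := by
  ext a; simp [actL_apply]

theorem actL_smul (c : ℂ) (Φ : StrongDual ℂ (StrongDual ℂ A)) (f : StrongDual ℂ A) :
    actL (c • Φ) f = c • actL Φ f := by
  ext a; simp [actL_apply]

theorem arens_add (Φ Ψ Θ : StrongDual ℂ (StrongDual ℂ A)) :
    arens Φ (Ψ + Θ) = arens Φ Ψ + arens Φ Θ := by
  ext f
  simp [arens_apply, actL_add]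

theorem add_arens (Φ Ψ Θ : StrongDual ℂ (StrongDual ℂ A)) :
    arens (Φ + Ψ) Θ = arens Φ Θ + arens Ψ Θ := by
  ext f
  simp [arens_apply]

theorem arens_smul (c : ℂ) (Φ Ψ : StrongDual ℂ (StrongDual ℂ A)) :
    arens Φ (c • Ψ) = c • arens Φ Ψ := by
  ext f
  simp [arens_apply, actL_smul]

theorem smul_arens (c : ℂ) (Φ Ψ : StrongDual ℂ (StrongDual ℂ A)) :
    arens (c • Φ) Ψ = c • arens Φ Ψ := by
  ext f
  simp [arens_apply]

theorem arens_zero (Φ : StrongDual ℂ (StrongDual ℂ A)) : arens Φ 0 = 0 := by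
  ext f
  rw [arens_apply]
  have h : actL (0 : StrongDual ℂ (StrongDual ℂ A)) f = 0 := by
    ext a
    rw [actL_apply]
    rfl
  rw [h, map_zero]
  rfl

theorem zero_arens (Φ : StrongDual ℂ (StrongDual ℂ A)) : arens 0 Φ = 0 := by
  ext f
  rw [arens_apply]
  rfl

theorem iota_one_arens (Φ : StrongDual ℂ (StrongDual ℂ A)) : arens (iota 1) Φ = Φ := by
  ext f
  rw [arens_apply, iota_apply, actL_apply]
  congr 1
  ext b
  rw [actR_apply, one_mul]

theorem arens_iota_one (Φ : StrongDual ℂ (StrongDual ℂ A)) : arens Φ (iota 1) = Φ := by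
  ext f
  rw [arens_apply]
  congr 1
  ext a
  rw [actL_apply, iota_apply, actR_apply, mul_one]

/-- The bidual `A''` of a unital Banach algebra, as a type carrying the first Arens product. -/
def Bidual (A : Type*) [NormedRing A] [NormedAlgebra ℂ A] : Type _ :=
  StrongDual ℂ (StrongDual ℂ A)

instance : AddCommGroup (Bidual A) :=
  inferInstanceAs (AddCommGroup (StrongDual ℂ (StrongDual ℂ A)))

/-- The ring structure of the bidual given by the first Arens product. -/
instance : Ring (Bidual A) :=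
  { (inferInstance : AddCommGroup (Bidual A)) with
    mul := arens
    one := iota 1
    mul_assoc := arens_assoc
    one_mul := iota_one_arens
    mul_one := arens_iota_one
    left_distrib := arens_add
    right_distrib := add_arens
    zero_mul := zero_arens
    mul_zero := arens_zero }

theorem bidual_mul (Φ Ψ : Bidual A) : Φ * Ψ = arens Φ Ψ := rfl

/-- An element `x` with `x * y * x = 0` for all `y` lies in the Jacobson radical. -/
theorem mem_jacobson_of_sandwich {R : Type*} [Ring R] {x : R} (h : ∀ y, x * y * x = 0) :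
    x ∈ Ring.jacobson R := by
  have h2 : x ∈ Ideal.jacobson (⊥ : Ideal R) := by
    rw [Ideal.mem_jacobson_iff]
    intro y
    refine ⟨1 - y * x, ?_⟩
    have h1 : (1 - y * x) * y * x + (1 - y * x) - 1 = - (y * (x * y * x)) := by noncomm_ring
    rw [h1, h y]
    simp
  simpa [Ring.jacobson_eq_sInf_isMaximal, Ideal.jacobson] using h2

end

end H263R3.Arens
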