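import Pool.Agent.H263R3.ArensSep

/-!
# The nilpotent element
-/

namespace H263R3.Arens

open Set Filter Topology Pointwise

noncomputable section

variable {A : Type*} [NormedRing A] [NormedAlgebra ℂ A] {G : Type*} [Group G]

/-- The means on which all translates of `h` take the value `c`. -/
def levelSet (δ : G →* A) (h : StrongDual ℂ A) (c : ℂ) : Set (W2 A) :=
  {x ∈ means δ | ∀ s, x (actR h (δ s)) = c}

theorem wiota_mul_mem_means (δ : G →* A) (s : G) {x : W2 A} (hx : x ∈ means δ) :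
    wmul (wiota (δ s)) x ∈ means δ := by
  have h : means δ ⊆ {x | wmul (wiota (δ s)) x ∈ means δ} := by
    refine closure_minimal (convexHull_min ?_ ?_)
      ((isClosed_means δ).preimage (continuous_iota_wmul (δ s)))
    · rintro _ ⟨t, rfl⟩
      have h2 : wmul (wiota (δ s)) (wiota (δ t)) = wiota (δ (s * t)) := by
        apply DFunLike.ext
        intro f
        rw [wmul_iota_apply, wiota_apply, wiota_apply, actR_apply, map_mul δ s t]
      show wmul (wiota (δ s)) (wiota (δ t)) ∈ means δ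
      rw [h2]
      exact wiota_mem_means δ _
    · intro p hp q hq a b ha hb hab
      show wmul _ (a • p + b • q) ∈ means δ
      rw [wmul_add, wmul_real_smul, wmul_real_smul]
      exact convex_means δ hp hq ha hb hab
  exact h hx

theorem inv_levelSet (δ : G →* A) {K : ℝ} (hδ : ∀ s, ‖δ s‖ ≤ K) (h : StrongDual ℂ A) (c : ℂ)
    (hc : ∀ F : Finset G, ∃ g, ∀ s ∈ F, h (δ (s * g)) = c) : Inv δ (levelSet δ h c) := by
  classical
  constructor
  · refine (isClosed_means δ).inter ?_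
    have : {x : W2 A | ∀ s, x (actR h (δ s)) = c} = ⋂ s, {x : W2 A | x (actR h (δ s)) = c} := by
      ext x; simp
    show IsClosed {x : W2 A | ∀ s, x (actR h (δ s)) = c}
    rw [this]
    exact isClosed_iInter fun s => isClosed_eq (WV.eval_continuous _) continuous_const
  · intro p hp q hq a b ha hb hab
    refine ⟨convex_means δ hp.1 hq.1 ha hb hab, fun s => ?_⟩
    rw [WV.add_apply, WV.real_smul_apply, WV.real_smul_apply, hp.2 s, hq.2 s, ← add_mul]
    have : ((a : ℂ) + b) = 1 := by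
      rw [← Complex.ofReal_add, hab, Complex.ofReal_one]
    rw [this, one_mul]
  · choose g hg using hc
    obtain ⟨x, hx, hcl⟩ : ∃ x ∈ means δ, MapClusterPt x atTop (fun F : Finset G => wiota (δ (g F))) :=
      (isCompact_means δ K hδ).exists_mapClusterPt_of_frequently
        (Frequently.of_forall fun F => wiota_mem_means δ _)
    refine ⟨x, hx, fun s => ?_⟩
    have hφ : Continuous fun z : W2 A => z (actR h (δ s)) := WV.eval_continuous _
    have h2 : MapClusterPt (x (actR h (δ s))) atTop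
        (fun F : Finset G => (wiota (δ (g F)) : W2 A) (actR h (δ s))) :=
      MapClusterPt.continuousAt_comp (f := fun z : W2 A => z (actR h (δ s))) (x := x)
        hφ.continuousAt hcl
    have h3 : Tendsto (fun F : Finset G => (wiota (δ (g F)) : W2 A) (actR h (δ s))) atTop
        (𝓝 c) := by
      apply tendsto_const_nhds.congr'
      filter_upwards [eventually_ge_atTop ({s} : Finset G)] with F hF
      have hs : s ∈ F := hF (Finset.mem_singleton_self s)
      rw [wiota_apply, actR_apply, ← map_mul, hg F s hs]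
    have h5 : ClusterPt (x (actR h (δ s))) (𝓝 c) := ClusterPt.mono h2 h3
    exact eq_of_nhds_neBot h5
  · intro s x hx
    refine ⟨wiota_mul_mem_means δ s hx.1, fun t => ?_⟩
    rw [wmul_iota_apply, actR_actR, ← map_mul]
    exact hx.2 (t * s)

/-- left multiplication as a complex linear map -/
def lmulLin (x : W2 A) : W2 A →ₗ[ℂ] W2 A where
  toFun y := wmul x y
  map_add' a b := wmul_add x a b
  map_smul' c a := wmul_smul c x a

/-- **Main abstract theorem.** -/
theorem exists_sandwich (δ : G →* A) {K : ℝ} (hδ : ∀ s, ‖δ s‖ ≤ K)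
    (h1 : ∀ (f : StrongDual ℂ A) (C : ℝ), (∀ s, ‖f (δ s)‖ ≤ C) → ‖f‖ ≤ K * C)
    (h : StrongDual ℂ A)
    (hone : ∀ F : Finset G, ∃ g, ∀ s ∈ F, h (δ (s * g)) = 1)
    (hzero : ∀ F : Finset G, ∃ g, ∀ s ∈ F, h (δ (s * g)) = 0) :
    ∃ Φ : StrongDual ℂ (StrongDual ℂ A), Φ ≠ 0 ∧
      ∀ Ψ : StrongDual ℂ (StrongDual ℂ A), arens (arens Φ Ψ) Φ = 0 := by
  have hK : 0 ≤ K := (norm_nonneg _).trans (hδ 1)
  have hcomp := isCompact_means δ K hδ
  have I1 := inv_levelSet δ hδ h 1 hone
  have I0 := inv_levelSet δ hδ h 0 hzero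
  obtain ⟨Λ, hΛs, hΛ⟩ := exists_isMin δ (hcomp.of_isClosed_subset I1.closed fun x hx => hx.1) I1
  obtain ⟨Λ', hΛ's, hΛ'⟩ := exists_isMin δ (hcomp.of_isClosed_subset I0.closed fun x hx => hx.1) I0
  have hP : Λ ⊆ means δ := fun x hx => (hΛs hx).1
  have hP' : Λ' ⊆ means δ := fun x hx => (hΛ's hx).1
  have hcΛ : IsCompact Λ := hcomp.of_isClosed_subset hΛ.closed hP
  have hcΛ' : IsCompact Λ' := hcomp.of_isClosed_subset hΛ'.closed hP'
  have L := fun x y (hx : x ∈ Λ) (hy : y ∈ Λ) => left_zero δ hδ hΛ hP hx hy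
  have L' := fun x y (hx : x ∈ Λ') (hy : y ∈ Λ') => left_zero δ hδ hΛ' hP' hx hy
  have mulΛ : ∀ x ∈ means δ, ∀ y ∈ Λ, wmul x y ∈ Λ := fun x hx y hy =>
    wmul_mem_of_means δ hΛ.closed hΛ.conv (fun s => hΛ.inv s y hy) hx
  have mulΛ' : ∀ x ∈ means δ, ∀ y ∈ Λ', wmul x y ∈ Λ' := fun x hx y hy =>
    wmul_mem_of_means δ hΛ'.closed hΛ'.conv (fun s => hΛ'.inv s y hy) hx
  obtain ⟨m, hm⟩ := hΛ.ne
  obtain ⟨n', hn'⟩ := hΛ'.ne
  set m' := wmul m n' with hm'def
  have hm' : m' ∈ Λ' := mulΛ' m (hP hm) n' hn'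
  -- `m' □ n = m` for `n ∈ Λ`
  have e1 : ∀ n ∈ Λ, wmul m' n = m := by
    intro n hn
    rw [hm'def, wmul_assoc]
    exact L m _ hm (mulΛ n' (hP' hn') n hn)
  have e2 : ∀ n ∈ Λ, wmul m n = m := fun n hn => L m n hm hn
  have e3 : ∀ n ∈ Λ', wmul m' n = m' := fun n hn => L' m' n hm' hn
  have e4 : ∀ n ∈ Λ', wmul m n = m' := by
    intro n hn
    have h2 : wmul m' m = m := e1 m hm
    calc wmul m n = wmul (wmul m' m) n := by rw [h2]
      _ = wmul m' (wmul m n) := wmul_assoc _ _ _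
      _ = m' := L' m' _ hm' (mulΛ' m (hP hm) n hn)
  have add_sub' : ∀ x y z : W2 A, wmul (x - y) z = wmul x z - wmul y z := by
    intro x y z
    have := add_wmul (x - y) y z
    rw [sub_add_cancel] at this
    rw [this, add_sub_cancel_right]
  set Φ : W2 A := m - m' with hΦ
  have k1 : ∀ z ∈ Submodule.span ℂ Λ, wmul Φ z = 0 := by
    intro z hz
    have hle : Submodule.span ℂ Λ ≤ LinearMap.ker (lmulLin Φ) := by
      rw [Submodule.span_le]
      intro n hn
      show wmul Φ n = 0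
      rw [hΦ, add_sub', e1 n hn, e2 n hn, sub_self]
    exact hle hz
  have k2 : ∀ z ∈ Submodule.span ℂ Λ', wmul Φ z = 0 := by
    intro z hz
    have hle : Submodule.span ℂ Λ' ≤ LinearMap.ker (lmulLin Φ) := by
      rw [Submodule.span_le]
      intro n hn
      show wmul Φ n = 0
      rw [hΦ, add_sub', e3 n hn, e4 n hn, sub_self]
    exact hle hz
  have k3 : ∀ Ψ : W2 A, wmul Φ (wmul Ψ Φ) = 0 := by
    intro Ψ
    have g1 := k1 _ (wmul_mem_span δ hK h1 hcΛ hΛ.toInv hm Ψ)
    have g2 := k2 _ (wmul_mem_span δ hK h1 hcΛ' hΛ'.toInv hm' Ψ)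
    have g3 : wmul Ψ Φ = wmul Ψ m - wmul Ψ m' := by
      have := wmul_add Ψ (m - m') m'
      rw [sub_add_cancel] at this
      rw [hΦ, this, add_sub_cancel_right]
    have g4 : wmul Φ (wmul Ψ m - wmul Ψ m') = wmul Φ (wmul Ψ m) - wmul Φ (wmul Ψ m') :=
      (lmulLin Φ).map_sub _ _
    rw [g3, g4, g1, g2, sub_zero]
  refine ⟨WV.toD Φ, ?_, ?_⟩
  · intro h0
    have h2 : Φ h = 0 := by
      show (WV.toD Φ) h = 0
      rw [h0]
      rfl
    have hh : actR h (δ 1) = h := by
      ext a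
      rw [actR_apply, map_one, one_mul]
    have v1 : m h = 1 := by
      have := (hΛs hm).2 1
      rwa [hh] at this
    have v0 : m' h = 0 := by
      have := (hΛ's hm').2 1
      rwa [hh] at this
    rw [hΦ, WV.sub_apply, v1, v0] at h2
    simp at h2
  · intro Ψ
    rw [arens_assoc]
    exact k3 (WV.of Ψ)

end

end H263R3.Arens
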