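import Pool.Agent.H263R3.ArensCore

/-!
# Multiples of an element of an invariant set stay in its complex span
-/

namespace H263R3.Arens

open Set Filter Topology Pointwise

noncomputable section

variable {A : Type*} [NormedRing A] [NormedAlgebra ℂ A]

/-- The set of `t x` with `t` in `[0, R]` and `x` in `Λ`. -/
def coneBase {E : Type*} [NormedAddCommGroup E] [NormedSpace ℂ E] (R : ℝ) (Λ : Set (WV E)) :
    Set (WV E) :=
  (fun p : ℝ × WV E => p.1 • p.2) '' (Icc 0 R ×ˢ Λ)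

section
variable {E : Type*} [NormedAddCommGroup E] [NormedSpace ℂ E]

theorem isCompact_coneBase (R : ℝ) {Λ : Set (WV E)} (h : IsCompact Λ) :
    IsCompact (coneBase R Λ) :=
  (isCompact_Icc.prod h).image (continuous_fst.smul continuous_snd)

theorem convex_coneBase (R : ℝ) {Λ : Set (WV E)} (h : Convex ℝ Λ) :
    Convex ℝ (coneBase R Λ) := by
  rintro _ ⟨⟨p, x⟩, ⟨⟨hp0, hpR⟩, hx⟩, rfl⟩ _ ⟨⟨q, y⟩, ⟨⟨hq0, hqR⟩, hy⟩, rfl⟩ a b ha hb hab
  simp only at hx hy hp0 hpR hq0 hqR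
  rcases eq_or_lt_of_le (add_nonneg (mul_nonneg ha hp0) (mul_nonneg hb hq0)) with hc | hc
  · have h1 : a * p = 0 := by nlinarith [mul_nonneg ha hp0, mul_nonneg hb hq0]
    have h2 : b * q = 0 := by nlinarith [mul_nonneg ha hp0, mul_nonneg hb hq0]
    refine ⟨(0, x), ⟨⟨le_refl _, hp0.trans hpR⟩, hx⟩, ?_⟩
    simp only [smul_smul, h1, h2, zero_smul, add_zero]
  · refine ⟨(a * p + b * q, (a * p / (a * p + b * q)) • x + (b * q / (a * p + b * q)) • y),
      ⟨⟨hc.le, ?_⟩, ?_⟩, ?_⟩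
    · simp only
      calc a * p + b * q ≤ a * R + b * R :=
            add_le_add (mul_le_mul_of_nonneg_left hpR ha) (mul_le_mul_of_nonneg_left hqR hb)
        _ = R := by rw [← add_mul, hab, one_mul]
    · refine h hx hy (div_nonneg (mul_nonneg ha hp0) hc.le)
        (div_nonneg (mul_nonneg hb hq0) hc.le) ?_
      rw [← add_div, div_self hc.ne']
    · simp only [smul_add, smul_smul]
      congr 2
      · field_simp
      · field_simp

/-- multiplication by `i` -/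
def mulI : WV E →ₗ[ℝ] WV E where
  toFun x := Complex.I • x
  map_add' a b := smul_add _ a b
  map_smul' c a := by
    simp only [RingHom.id_apply]
    exact smul_comm _ _ _

/-- The compact convex set used for separation. -/
def sepSet (R : ℝ) (Λ : Set (WV E)) : Set (WV E) :=
  (coneBase R Λ - coneBase R Λ) + mulI '' (coneBase R Λ - coneBase R Λ)

theorem isCompact_sepSet (R : ℝ) {Λ : Set (WV E)} (h : IsCompact Λ) :
    IsCompact (sepSet R Λ) := by
  have h1 : IsCompact (coneBase R Λ - coneBase R Λ) := by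
    rw [sub_eq_add_neg]
    exact (isCompact_coneBase R h).add (isCompact_coneBase R h).neg
  exact h1.add (h1.image (continuous_const_smul Complex.I))

theorem convex_sepSet (R : ℝ) {Λ : Set (WV E)} (h : Convex ℝ Λ) :
    Convex ℝ (sepSet R Λ) := by
  have h1 : Convex ℝ (coneBase R Λ - coneBase R Λ) :=
    (convex_coneBase R h).sub (convex_coneBase R h)
  exact h1.add (h1.linear_image mulI)

theorem coneBase_subset_span (R : ℝ) (Λ : Set (WV E)) :
    coneBase R Λ ⊆ (Submodule.span ℂ Λ : Set (WV E)) := by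
  rintro _ ⟨⟨p, x⟩, ⟨-, hx⟩, rfl⟩
  exact (Submodule.span ℂ Λ).smul_mem (p : ℂ) (Submodule.subset_span hx)

theorem sepSet_subset_span (R : ℝ) (Λ : Set (WV E)) :
    sepSet R Λ ⊆ (Submodule.span ℂ Λ : Set (WV E)) := by
  rintro _ ⟨_, ⟨a, ha, b, hb, rfl⟩, _, ⟨_, ⟨c, hc, d, hd, rfl⟩, rfl⟩, rfl⟩
  have h := coneBase_subset_span R Λ
  exact (Submodule.span ℂ Λ).add_mem ((Submodule.span ℂ Λ).sub_mem (h ha) (h hb))
    ((Submodule.span ℂ Λ).smul_mem _ ((Submodule.span ℂ Λ).sub_mem (h hc) (h hd)))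

theorem zero_mem_coneBase {R : ℝ} (hR : 0 ≤ R) {Λ : Set (WV E)} (h : Λ.Nonempty) :
    (0 : WV E) ∈ coneBase R Λ := by
  obtain ⟨x, hx⟩ := h
  exact ⟨(0, x), ⟨⟨le_refl _, hR⟩, hx⟩, zero_smul _ _⟩

theorem smul_mem_coneBase {R : ℝ} (hR : 0 ≤ R) {Λ : Set (WV E)} {x : WV E} (h : x ∈ Λ) :
    R • x ∈ coneBase R Λ :=
  ⟨(R, x), ⟨⟨hR, le_refl _⟩, h⟩, rfl⟩

/-- Separation: if `z` is dominated on every functional by the values of `Λ`, then `z` lies in
the complex span of `Λ`. -/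
theorem mem_span_of_bound {Λ : Set (WV E)} (hcomp : IsCompact Λ) (hconv : Convex ℝ Λ)
    (hne : Λ.Nonempty) (z : WV E) (M : ℝ) (hM : 0 ≤ M)
    (hz : ∀ (f : E) (C : ℝ), (∀ x ∈ Λ, ‖x f‖ ≤ C) → ‖z f‖ ≤ M * C) :
    z ∈ Submodule.span ℂ Λ := by
  set R : ℝ := 2 * M + 1 with hR
  have hR0 : 0 < R := by positivity
  apply sepSet_subset_span R Λ
  by_contra hzn
  obtain ⟨φ, u, hu, hzu⟩ := RCLike.geometric_hahn_banach_closed_point (𝕜 := ℂ)
    (convex_sepSet R hconv) (isCompact_sepSet R hcomp).isClosed hzn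
  obtain ⟨f, hf⟩ := WV.functional φ
  have hu' : ∀ a ∈ sepSet R Λ, (a f).re < u := by
    intro a ha
    have := hu a ha
    rw [hf] at this
    exact this
  have hzu' : u < (z f).re := by
    rw [hf] at hzu
    exact hzu
  have h0 := zero_mem_coneBase hR0.le hne
  have h00 : (0 : WV E) ∈ coneBase R Λ - coneBase R Λ := ⟨0, h0, 0, h0, sub_zero 0⟩
  have hI0 : (0 : WV E) ∈ mulI '' (coneBase R Λ - coneBase R Λ) := ⟨0, h00, map_zero _⟩
  have hupos : 0 < u := by
    have := hu' 0 ⟨0, h00, 0, hI0, add_zero 0⟩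
    have h2 : ((0 : WV E) f) = 0 := rfl
    rw [h2] at this
    simpa using this
  have key : ∀ x ∈ Λ, ‖x f‖ ≤ 2 * u / R := by
    intro x hx
    have hx1 := smul_mem_coneBase hR0.le hx
    have e1 := hu' (R • x) ⟨R • x, ⟨R • x, hx1, 0, h0, sub_zero _⟩, 0, hI0, add_zero _⟩
    have e2 := hu' (-(R • x)) ⟨-(R • x), ⟨0, h0, R • x, hx1, zero_sub _⟩, 0, hI0, add_zero _⟩
    have e3 := hu' (Complex.I • (R • x)) ⟨0, h00, Complex.I • (R • x),
      ⟨R • x, ⟨R • x, hx1, 0, h0, sub_zero _⟩, rfl⟩, zero_add _⟩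
    have e4 := hu' (Complex.I • (-(R • x))) ⟨0, h00, Complex.I • (-(R • x)),
      ⟨-(R • x), ⟨0, h0, R • x, hx1, zero_sub _⟩, rfl⟩, zero_add _⟩
    have f2 : (-(R • x)) f = -((R • x) f) := rfl
    rw [WV.real_smul_apply] at e1
    rw [f2, WV.real_smul_apply] at e2
    rw [WV.smul_apply, WV.real_smul_apply] at e3
    rw [WV.smul_apply, f2, WV.real_smul_apply] at e4
    simp only [Complex.mul_re, Complex.ofReal_re, Complex.ofReal_im, zero_mul, sub_zero,
      Complex.neg_re, Complex.I_re, Complex.I_im, Complex.mul_im, Complex.neg_im, one_mul,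
      add_zero, zero_sub, neg_neg] at e1 e2 e3 e4
    have g1 : |(x f).re| ≤ u / R := by
      rw [abs_le]
      constructor
      · rw [← neg_div, div_le_iff₀ hR0]; nlinarith
      · rw [le_div_iff₀ hR0]; nlinarith
    have g2 : |(x f).im| ≤ u / R := by
      rw [abs_le]
      constructor
      · rw [← neg_div, div_le_iff₀ hR0]; nlinarith
      · rw [le_div_iff₀ hR0]; nlinarith
    calc ‖x f‖ ≤ |(x f).re| + |(x f).im| := Complex.norm_le_abs_re_add_abs_im _
      _ ≤ u / R + u / R := add_le_add g1 g2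
      _ = 2 * u / R := by ring
  have h1 := hz f _ key
  have h2 : (z f).re ≤ ‖z f‖ := Complex.re_le_norm _
  have h3 : M * (2 * u / R) ≤ u := by
    rw [mul_div_assoc', div_le_iff₀ hR0, hR]
    nlinarith
  linarith

end

variable {G : Type*} [Group G]

/-- `Ψ □ m` lies in the complex span of an invariant set containing `m`. -/
theorem wmul_mem_span (δ : G →* A) {K : ℝ} (hK : 0 ≤ K)
    (h1 : ∀ (f : StrongDual ℂ A) (C : ℝ), (∀ s, ‖f (δ s)‖ ≤ C) → ‖f‖ ≤ K * C)
    {Λ : Set (W2 A)} (hcomp : IsCompact Λ) (hI : Inv δ Λ) {m : W2 A} (hm : m ∈ Λ) (Ψ : W2 A) :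
    wmul Ψ m ∈ Submodule.span ℂ Λ := by
  refine mem_span_of_bound hcomp hI.conv hI.ne _ (‖WV.toD Ψ‖ * K) (by positivity) ?_
  intro f C hC
  rw [wmul_apply]
  calc ‖Ψ (actL (WV.toD m) f)‖ ≤ ‖WV.toD Ψ‖ * ‖actL (WV.toD m) f‖ :=
        ContinuousLinearMap.le_opNorm (WV.toD Ψ) _
    _ ≤ ‖WV.toD Ψ‖ * (K * C) := by
        refine mul_le_mul_of_nonneg_left ?_ (norm_nonneg _)
        apply h1
        intro s
        exact hC _ (hI.inv s m hm)
    _ = ‖WV.toD Ψ‖ * K * C := by ring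

end

end H263R3.Arens
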