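import Mathlib

set_option autoImplicit false
open scoped ENNReal Topology
open Filter MeasureTheory

namespace Pool.Agent.H263R3.Coupling

/-- bounded reversed martingale differences -/
structure RMD {Ω : Type*} {m0 : MeasurableSpace Ω} (μ : Measure Ω) (F : ℕ → MeasurableSpace Ω)
    (u : ℕ → Ω → ℝ) : Prop where
  le : ∀ k, F k ≤ m0
  anti : ∀ k, F (k + 1) ≤ F k
  meas : ∀ k, Measurable[F k] (u k)
  bdd : ∀ k x, |u k x| ≤ 1
  ce : ∀ k, μ[u k | F (k + 1)] =ᵐ[μ] 0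

section one

variable {Ω : Type*} {m m0 : MeasurableSpace Ω} {μ : Measure Ω} [IsProbabilityMeasure μ]

/-- moving a conditional expectation -/
lemma integral_condExp_mul (hm : m ≤ m0) (φ g : Ω → ℝ) (hφ : Integrable φ μ)
    (hg : StronglyMeasurable[m] g) (hφg : Integrable (fun x => φ x * g x) μ) :
    ∫ x, (μ[φ | m]) x * g x ∂μ = ∫ x, φ x * g x ∂μ := by
  have h1 : μ[(φ * g) | m] =ᵐ[μ] μ[φ | m] * g :=
    condExp_mul_of_stronglyMeasurable_right hg hφg hφ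
  have h2 : ∫ x, (μ[(φ * g) | m]) x ∂μ = ∫ x, (φ * g) x ∂μ := integral_condExp hm
  rw [integral_congr_ae h1] at h2
  exact h2

lemma integrable_mul_of_two {f g : Ω → ℝ} (hf : MemLp f 2 μ) (hg : MemLp g 2 μ) :
    Integrable (fun x => f x * g x) μ := hf.integrable_mul hg

lemma integral_self_condExp (hm : m ≤ m0) (φ : Ω → ℝ) (hφ : MemLp φ 2 μ) :
    ∫ x, φ x * (μ[φ | m]) x ∂μ = ∫ x, (μ[φ | m]) x ^ 2 ∂μ := by
  have hA : MemLp (μ[φ | m]) 2 μ := hφ.condExp (by norm_num)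
  have := integral_condExp_mul hm φ (μ[φ | m]) (hφ.integrable (by norm_num))
    stronglyMeasurable_condExp (integrable_mul_of_two hφ hA)
  rw [← this]
  congr 1
  ext x
  ring

lemma integral_sub_sq (hm : m ≤ m0) (φ : Ω → ℝ) (hφ : MemLp φ 2 μ) :
    ∫ x, (φ x - (μ[φ | m]) x) ^ 2 ∂μ = ∫ x, φ x ^ 2 ∂μ - ∫ x, (μ[φ | m]) x ^ 2 ∂μ := by
  have hA : MemLp (μ[φ | m]) 2 μ := hφ.condExp (by norm_num)
  have h1 : (fun x => (φ x - (μ[φ | m]) x) ^ 2)
      = fun x => (φ x ^ 2 - 2 * (φ x * (μ[φ | m]) x)) + (μ[φ | m]) x ^ 2 := by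
    ext x; ring
  rw [h1, integral_add, integral_sub, integral_const_mul, integral_self_condExp hm φ hφ]
  · ring
  · exact hφ.integrable_sq
  · exact (integrable_mul_of_two hφ hA).const_mul 2
  · exact hφ.integrable_sq.sub ((integrable_mul_of_two hφ hA).const_mul 2)
  · exact hA.integrable_sq

lemma integral_condExp_sq_le (hm : m ≤ m0) (φ : Ω → ℝ) (hφ : MemLp φ 2 μ) :
    ∫ x, (μ[φ | m]) x ^ 2 ∂μ ≤ ∫ x, φ x ^ 2 ∂μ := by
  have h1 := integral_sub_sq hm φ hφ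
  have h2 : 0 ≤ ∫ x, (φ x - (μ[φ | m]) x) ^ 2 ∂μ := integral_nonneg (fun x => sq_nonneg _)
  linarith

lemma memLp_mul_bdd {φ u : Ω → ℝ} (hφ : MemLp φ 2 μ) (hu : AEStronglyMeasurable u μ)
    (hb : ∀ x, |u x| ≤ 1) : MemLp (fun x => φ x * u x) 2 μ := by
  apply hφ.of_le_mul (c := 1) (hφ.1.mul hu)
  filter_upwards with x
  rw [Real.norm_eq_abs, Real.norm_eq_abs, Pi.mul_apply, abs_mul, one_mul]
  exact mul_le_of_le_one_right (abs_nonneg _) (hb x)

/-- the basic norm splitting -/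
lemma split_le (hm : m ≤ m0) (φ u : Ω → ℝ) (hφ : MemLp φ 2 μ) (hu : Measurable[m0] u)
    (hb : ∀ x, |u x| ≤ 1) (hce : μ[u | m] =ᵐ[μ] 0) :
    ∫ x, (μ[φ | m]) x ^ 2 ∂μ + ∫ x, (μ[fun x => φ x * u x | m]) x ^ 2 ∂μ ≤ ∫ x, φ x ^ 2 ∂μ := by
  have hA : MemLp (μ[φ | m]) 2 μ := hφ.condExp (by norm_num)
  set ψ : Ω → ℝ := fun x => φ x - (μ[φ | m]) x with hψ
  have hψ2 : MemLp ψ 2 μ := hφ.sub hA
  have hus : AEStronglyMeasurable u μ := hu.stronglyMeasurable.aestronglyMeasurable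
  have hui : Integrable u μ := by
    apply Integrable.of_bound hus 1
    filter_upwards with x
    rw [Real.norm_eq_abs]; exact hb x
  have hAu : MemLp (fun x => (μ[φ | m]) x * u x) 2 μ := memLp_mul_bdd hA hus hb
  have hψu : MemLp (fun x => ψ x * u x) 2 μ := memLp_mul_bdd hψ2 hus hb
  have h1 : μ[fun x => φ x * u x | m] =ᵐ[μ] μ[fun x => ψ x * u x | m] := by
    have h2 : (fun x => φ x * u x) = (fun x => ψ x * u x) + (fun x => (μ[φ | m]) x * u x) := by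
      ext x
      simp only [Pi.add_apply, hψ]
      ring
    rw [h2]
    have h3 := condExp_add (hψu.integrable (by norm_num)) (hAu.integrable (by norm_num)) m
    have h4 : μ[(μ[φ | m]) * u | m] =ᵐ[μ] (μ[φ | m]) * μ[u | m] :=
      condExp_mul_of_stronglyMeasurable_left stronglyMeasurable_condExp
        (hAu.integrable (by norm_num)) hui
    have h4' : μ[fun x => (μ[φ | m]) x * u x | m] =ᵐ[μ] (μ[φ | m]) * μ[u | m] := h4
    filter_upwards [h3, h4', hce] with x hx3 hx4 hx5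
    rw [hx3, Pi.add_apply, hx4, Pi.mul_apply, hx5]
    simp
  have h5 : ∫ x, (μ[fun x => φ x * u x | m]) x ^ 2 ∂μ = ∫ x, (μ[fun x => ψ x * u x | m]) x ^ 2 ∂μ := by
    apply integral_congr_ae
    filter_upwards [h1] with x hx
    rw [hx]
  have h6 : ∫ x, (μ[fun x => ψ x * u x | m]) x ^ 2 ∂μ ≤ ∫ x, (ψ x * u x) ^ 2 ∂μ :=
    integral_condExp_sq_le hm _ hψu
  have h7 : ∫ x, (ψ x * u x) ^ 2 ∂μ ≤ ∫ x, ψ x ^ 2 ∂μ := by
    apply integral_mono hψu.integrable_sq hψ2.integrable_sq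
    intro x
    have := hb x
    show (ψ x * u x) ^ 2 ≤ ψ x ^ 2
    rw [mul_pow]
    apply mul_le_of_le_one_right (sq_nonneg _)
    rw [← sq_abs]
    exact pow_le_one₀ (abs_nonneg _) this
  have h8 := integral_sub_sq hm φ hφ
  rw [h5]
  linarith

lemma sq_integral_le (φ : Ω → ℝ) (hφ : MemLp φ 2 μ) : (∫ x, φ x ∂μ) ^ 2 ≤ ∫ x, φ x ^ 2 ∂μ := by
  set c := ∫ x, φ x ∂μ with hc
  have hi : Integrable φ μ := hφ.integrable (by norm_num)
  have h1 : (fun x => (φ x - c) ^ 2) = fun x => (φ x ^ 2 - 2 * c * φ x) + c ^ 2 := by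
    ext x; ring
  have h2 : 0 ≤ ∫ x, (φ x - c) ^ 2 ∂μ := integral_nonneg (fun x => sq_nonneg _)
  rw [h1, integral_add, integral_sub, integral_const_mul, integral_const] at h2
  · simp only [probReal_univ, smul_eq_mul, one_mul] at h2
    rw [← hc] at h2
    nlinarith
  · exact hφ.integrable_sq
  · exact hi.const_mul _
  · exact hφ.integrable_sq.sub (hi.const_mul _)
  · exact integrable_const _

end one

section two

variable {Ω Ω' : Type*} {m0 : MeasurableSpace Ω} {m0' : MeasurableSpace Ω'}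

/-- the product density -/
noncomputable def DD (ε : ℝ) (u : ℕ → Ω → ℝ) (v : ℕ → Ω' → ℝ) (s M : ℕ) (p : Ω × Ω') : ℝ :=
  ∏ k ∈ Finset.range M, (1 + ε * u (s + k) p.1 * v (s + k) p.2)

lemma DD_zero (ε : ℝ) (u : ℕ → Ω → ℝ) (v : ℕ → Ω' → ℝ) (s : ℕ) (p : Ω × Ω') :
    DD ε u v s 0 p = 1 := by simp [DD]

lemma DD_succ (ε : ℝ) (u : ℕ → Ω → ℝ) (v : ℕ → Ω' → ℝ) (s M : ℕ) (p : Ω × Ω') :
    DD ε u v s (M + 1) p = (1 + ε * u s p.1 * v s p.2) * DD ε u v (s + 1) M p := by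
  unfold DD
  rw [Finset.prod_range_succ', mul_comm]
  congr 1
  apply Finset.prod_congr rfl
  intro k _
  have : s + (k + 1) = s + 1 + k := by ring
  rw [this]

lemma factor_mem {ε a b : ℝ} (h0 : 0 ≤ ε) (h1 : ε ≤ 1) (ha : |a| ≤ 1) (hb : |b| ≤ 1) :
    0 ≤ 1 + ε * a * b ∧ 1 + ε * a * b ≤ 2 := by
  have h : |ε * a * b| ≤ 1 := by
    rw [abs_mul, abs_mul, abs_of_nonneg h0]
    have h2 : ε * |a| ≤ 1 := mul_le_one₀ h1 (abs_nonneg _) ha
    exact mul_le_one₀ h2 (abs_nonneg _) hb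
  have := abs_le.mp h
  constructor <;> linarith [this.1, this.2]

variable {μ : Measure Ω} {ν : Measure Ω'} [IsProbabilityMeasure μ] [IsProbabilityMeasure ν]
  {F : ℕ → MeasurableSpace Ω} {F' : ℕ → MeasurableSpace Ω'} {u : ℕ → Ω → ℝ} {v : ℕ → Ω' → ℝ}

lemma RMD.anti_add {μ : Measure Ω} (hu : RMD μ F u) (s k : ℕ) : F (s + k) ≤ F s := by
  induction k with
  | zero => exact le_rfl
  | succ k ih => exact (hu.anti (s + k)).trans ih

lemma DD_nonneg {ε : ℝ} (h0 : 0 ≤ ε) (h1 : ε ≤ 1) (hu : RMD μ F u) (hv : RMD ν F' v) (s M : ℕ)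
    (p : Ω × Ω') : 0 ≤ DD ε u v s M p := by
  unfold DD
  apply Finset.prod_nonneg
  intro k _
  exact (factor_mem h0 h1 (hu.bdd _ _) (hv.bdd _ _)).1

lemma DD_le {ε : ℝ} (h0 : 0 ≤ ε) (h1 : ε ≤ 1) (hu : RMD μ F u) (hv : RMD ν F' v) (s M : ℕ)
    (p : Ω × Ω') : DD ε u v s M p ≤ 2 ^ M := by
  unfold DD
  calc _ ≤ ∏ k ∈ Finset.range M, (2 : ℝ) := by
        apply Finset.prod_le_prod
        · intro k _
          exact (factor_mem h0 h1 (hu.bdd _ _) (hv.bdd _ _)).1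
        · intro k _
          exact (factor_mem h0 h1 (hu.bdd _ _) (hv.bdd _ _)).2
    _ = 2 ^ M := by simp

lemma DD_abs {ε : ℝ} (h0 : 0 ≤ ε) (h1 : ε ≤ 1) (hu : RMD μ F u) (hv : RMD ν F' v) (s M : ℕ)
    (p : Ω × Ω') : |DD ε u v s M p| ≤ 2 ^ M := by
  rw [abs_of_nonneg (DD_nonneg h0 h1 hu hv s M p)]
  exact DD_le h0 h1 hu hv s M p

lemma DD_meas {ε : ℝ} (hu : RMD μ F u) (hv : RMD ν F' v) (s M : ℕ) :
    Measurable (DD ε u v s M) := by
  unfold DD
  apply Finset.measurable_prod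
  intro k _
  have h1 : Measurable (u (s + k)) := (hu.meas (s + k)).mono (hu.le _) le_rfl
  have h2 : Measurable (v (s + k)) := (hv.meas (s + k)).mono (hv.le _) le_rfl
  exact measurable_const.add ((measurable_const.mul (h1.comp measurable_fst)).mul
    (h2.comp measurable_snd))

lemma DD_meas_left {ε : ℝ} (hu : RMD μ F u) (s M : ℕ) (y : Ω') :
    Measurable[F s] (fun x => DD ε u v s M (x, y)) := by
  unfold DD
  apply Finset.measurable_prod
  intro k _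
  have h1 : Measurable[F s] (u (s + k)) := (hu.meas (s + k)).mono (hu.anti_add s k) le_rfl
  have h2 : Measurable[F s] (fun x => (fun t : ℝ => 1 + ε * t * v (s + k) y) (u (s + k) x)) :=
    (Measurable.comp (g := fun t : ℝ => 1 + ε * t * v (s + k) y) (by fun_prop) h1)
  exact h2

lemma DD_meas_right {ε : ℝ} (hv : RMD ν F' v) (s M : ℕ) (x : Ω) :
    Measurable[F' s] (fun y => DD ε u v s M (x, y)) := by
  unfold DD
  apply Finset.measurable_prod
  intro k _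
  have h1 : Measurable[F' s] (v (s + k)) := (hv.meas (s + k)).mono (hv.anti_add s k) le_rfl
  have h2 : Measurable[F' s] (fun y => (fun t : ℝ => 1 + ε * u (s + k) x * t) (v (s + k) y)) :=
    (Measurable.comp (g := fun t : ℝ => 1 + ε * u (s + k) x * t) (by fun_prop) h1)
  exact h2

/-- the bilinear form -/
noncomputable def II (μ : Measure Ω) (ν : Measure Ω') (ε : ℝ) (u : ℕ → Ω → ℝ) (v : ℕ → Ω' → ℝ)
    (s M : ℕ) (φ : Ω → ℝ) (ψ : Ω' → ℝ) : ℝ :=
  ∫ p, φ p.1 * ψ p.2 * DD ε u v s M p ∂(μ.prod ν)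

lemma integrable_II {ε : ℝ} (h0 : 0 ≤ ε) (h1 : ε ≤ 1) (hu : RMD μ F u) (hv : RMD ν F' v) (s M : ℕ)
    (φ : Ω → ℝ) (ψ : Ω' → ℝ) (hφ : Integrable φ μ) (hψ : Integrable ψ ν) :
    Integrable (fun p : Ω × Ω' => φ p.1 * ψ p.2 * DD ε u v s M p) (μ.prod ν) := by
  have h2 : Integrable (fun p : Ω × Ω' => φ p.1 * ψ p.2) (μ.prod ν) := hφ.mul_prod hψ
  apply h2.mul_bdd (c := 2 ^ M) (DD_meas hu hv s M).aestronglyMeasurable
  filter_upwards with p
  rw [Real.norm_eq_abs]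
  exact DD_abs h0 h1 hu hv s M p

lemma integrable_fix_right {ε : ℝ} (h0 : 0 ≤ ε) (h1 : ε ≤ 1) (hu : RMD μ F u) (hv : RMD ν F' v)
    (s M : ℕ) (φ : Ω → ℝ) (hφ : Integrable φ μ) (y : Ω') :
    Integrable (fun x => φ x * DD ε u v s M (x, y)) μ := by
  apply hφ.mul_bdd (c := 2 ^ M)
    ((DD_meas_left (ε := ε) (v := v) hu s M y).mono (hu.le s) le_rfl).aestronglyMeasurable
  filter_upwards with p
  rw [Real.norm_eq_abs]
  exact DD_abs h0 h1 hu hv s M _

lemma integrable_fix_left {ε : ℝ} (h0 : 0 ≤ ε) (h1 : ε ≤ 1) (hu : RMD μ F u) (hv : RMD ν F' v)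
    (s M : ℕ) (ψ : Ω' → ℝ) (hψ : Integrable ψ ν) (x : Ω) :
    Integrable (fun y => ψ y * DD ε u v s M (x, y)) ν := by
  apply hψ.mul_bdd (c := 2 ^ M)
    ((DD_meas_right (ε := ε) (u := u) hv s M x).mono (hv.le s) le_rfl).aestronglyMeasurable
  filter_upwards with p
  rw [Real.norm_eq_abs]
  exact DD_abs h0 h1 hu hv s M _

lemma II_left {ε : ℝ} (h0 : 0 ≤ ε) (h1 : ε ≤ 1) (hu : RMD μ F u) (hv : RMD ν F' v) (s M : ℕ)
    (φ : Ω → ℝ) (ψ : Ω' → ℝ) (hφ : Integrable φ μ) (hψ : Integrable ψ ν) :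
    II μ ν ε u v s M φ ψ = II μ ν ε u v s M (μ[φ | F s]) ψ := by
  unfold II
  rw [integral_prod_symm _ (integrable_II h0 h1 hu hv s M φ ψ hφ hψ),
    integral_prod_symm _ (integrable_II h0 h1 hu hv s M _ ψ integrable_condExp hψ)]
  congr 1
  ext y
  have h2 := integral_condExp_mul (hu.le s) φ (fun x => DD ε u v s M (x, y)) hφ
    (DD_meas_left hu s M y).stronglyMeasurable (integrable_fix_right h0 h1 hu hv s M φ hφ y)
  have e1 : ∀ χ : Ω → ℝ, ∫ x, χ (x, y).1 * ψ (x, y).2 * DD ε u v s M (x, y) ∂μ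
      = ψ y * ∫ x, χ x * DD ε u v s M (x, y) ∂μ := by
    intro χ
    rw [← integral_const_mul]
    congr 1
    ext x
    ring
  rw [e1, e1, h2]

lemma II_right {ε : ℝ} (h0 : 0 ≤ ε) (h1 : ε ≤ 1) (hu : RMD μ F u) (hv : RMD ν F' v) (s M : ℕ)
    (φ : Ω → ℝ) (ψ : Ω' → ℝ) (hφ : Integrable φ μ) (hψ : Integrable ψ ν) :
    II μ ν ε u v s M φ ψ = II μ ν ε u v s M φ (ν[ψ | F' s]) := by
  unfold II
  rw [integral_prod _ (integrable_II h0 h1 hu hv s M φ ψ hφ hψ),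
    integral_prod _ (integrable_II h0 h1 hu hv s M φ _ hφ integrable_condExp)]
  congr 1
  ext x
  have h2 := integral_condExp_mul (hv.le s) ψ (fun y => DD ε u v s M (x, y)) hψ
    (DD_meas_right hv s M x).stronglyMeasurable (integrable_fix_left h0 h1 hu hv s M ψ hψ x)
  have e1 : ∀ χ : Ω' → ℝ, ∫ y, φ (x, y).1 * χ (x, y).2 * DD ε u v s M (x, y) ∂ν
      = φ x * ∫ y, χ y * DD ε u v s M (x, y) ∂ν := by
    intro χ
    rw [← integral_const_mul]
    congr 1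
    ext y
    ring
  rw [e1, e1, h2]

lemma II_succ {ε : ℝ} (h0 : 0 ≤ ε) (h1 : ε ≤ 1) (hu : RMD μ F u) (hv : RMD ν F' v) (s M : ℕ)
    (φ : Ω → ℝ) (ψ : Ω' → ℝ) (hφ : MemLp φ 2 μ) (hψ : MemLp ψ 2 ν) :
    II μ ν ε u v s (M + 1) φ ψ = II μ ν ε u v (s + 1) M (μ[φ | F (s + 1)]) (ν[ψ | F' (s + 1)])
      + ε * II μ ν ε u v (s + 1) M (μ[fun x => φ x * u s x | F (s + 1)])
        (ν[fun y => ψ y * v s y | F' (s + 1)]) := by
  have hφi : Integrable φ μ := hφ.integrable (by norm_num)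
  have hψi : Integrable ψ ν := hψ.integrable (by norm_num)
  have hus : AEStronglyMeasurable (u s) μ := ((hu.meas s).mono (hu.le s) le_rfl).aestronglyMeasurable
  have hvs : AEStronglyMeasurable (v s) ν := ((hv.meas s).mono (hv.le s) le_rfl).aestronglyMeasurable
  have hφu : Integrable (fun x => φ x * u s x) μ :=
    (memLp_mul_bdd hφ hus (hu.bdd s)).integrable (by norm_num)
  have hψv : Integrable (fun x => ψ x * v s x) ν :=
    (memLp_mul_bdd hψ hvs (hv.bdd s)).integrable (by norm_num)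
  rw [← II_right h0 h1 hu hv (s + 1) M _ ψ integrable_condExp hψi,
    ← II_left h0 h1 hu hv (s + 1) M φ ψ hφi hψi,
    ← II_right h0 h1 hu hv (s + 1) M _ _ integrable_condExp hψv,
    ← II_left h0 h1 hu hv (s + 1) M _ _ hφu hψv]
  unfold II
  rw [← integral_const_mul, ← integral_add]
  · congr 1
    ext p
    rw [DD_succ]
    ring
  · exact integrable_II h0 h1 hu hv (s + 1) M φ ψ hφi hψi
  · exact (integrable_II h0 h1 hu hv (s + 1) M _ _ hφu hψv).const_mul ε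

/-- The main expansion estimate. -/
theorem est {ε : ℝ} (h0 : 0 ≤ ε) (h1 : ε ≤ 1) (hu : RMD μ F u) (hv : RMD ν F' v) :
    ∀ (M s : ℕ) (φ : Ω → ℝ) (ψ : Ω' → ℝ), MemLp φ 2 μ → MemLp ψ 2 ν →
    |II μ ν ε u v s M φ ψ| ≤ (∫ x, φ x ^ 2 ∂μ + ∫ y, ψ y ^ 2 ∂ν) / 2 ∧
    |II μ ν ε u v s M φ ψ - (∫ x, φ x ∂μ) * ∫ y, ψ y ∂ν|
      ≤ ε * ((∫ x, φ x ^ 2 ∂μ + ∫ y, ψ y ^ 2 ∂ν) / 2) ∧
    |II μ ν ε u v s M φ ψ - (∫ x, φ x ∂μ) * (∫ y, ψ y ∂ν)
      - ε * ∑ k ∈ Finset.range M, (∫ x, φ x * u (s + k) x ∂μ) * ∫ y, ψ y * v (s + k) y ∂ν|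
      ≤ ε ^ 2 * ((∫ x, φ x ^ 2 ∂μ + ∫ y, ψ y ^ 2 ∂ν) / 2) := by
  intro M
  induction M with
  | zero =>
    intro s φ ψ hφ hψ
    have hI : II μ ν ε u v s 0 φ ψ = (∫ x, φ x ∂μ) * ∫ y, ψ y ∂ν := by
      unfold II
      simp only [DD_zero, mul_one]
      exact integral_prod_mul φ ψ
    have hφ2 : 0 ≤ ∫ x, φ x ^ 2 ∂μ := integral_nonneg (fun x => sq_nonneg _)
    have hψ2 : 0 ≤ ∫ x, ψ x ^ 2 ∂ν := integral_nonneg (fun x => sq_nonneg _)
    have h3 := sq_integral_le φ hφ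
    have h4 := sq_integral_le ψ hψ
    rw [hI]
    refine ⟨?_, ?_, ?_⟩
    · rw [abs_le]
      constructor
      · nlinarith [sq_nonneg ((∫ x, φ x ∂μ) + ∫ y, ψ y ∂ν)]
      · nlinarith [sq_nonneg ((∫ x, φ x ∂μ) - ∫ y, ψ y ∂ν)]
    · rw [sub_self, abs_zero]
      positivity
    · simp only [Finset.range_zero, Finset.sum_empty, mul_zero, sub_zero, sub_self, abs_zero]
      positivity
  | succ M ih =>
    intro s φ ψ hφ hψ
    have hum : Measurable[m0] (u s) := (hu.meas s).mono (hu.le s) le_rfl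
    have hvm : Measurable[m0'] (v s) := (hv.meas s).mono (hv.le s) le_rfl
    have hφu := memLp_mul_bdd hφ hum.aestronglyMeasurable (hu.bdd s)
    have hψv := memLp_mul_bdd hψ hvm.aestronglyMeasurable (hv.bdd s)
    set A := μ[φ | F (s + 1)] with hA
    set B := μ[fun x => φ x * u s x | F (s + 1)] with hB
    set A' := ν[ψ | F' (s + 1)] with hA'
    set B' := ν[fun y => ψ y * v s y | F' (s + 1)] with hB'
    have hA2 : MemLp A 2 μ := hφ.condExp (by norm_num)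
    have hB2 : MemLp B 2 μ := hφu.condExp (by norm_num)
    have hA2' : MemLp A' 2 ν := hψ.condExp (by norm_num)
    have hB2' : MemLp B' 2 ν := hψv.condExp (by norm_num)
    have hsp := split_le (hu.le (s + 1)) φ (u s) hφ hum (hu.bdd s) (hu.ce s)
    have hsp' := split_le (hv.le (s + 1)) ψ (v s) hψ hvm (hv.bdd s) (hv.ce s)
    rw [← hA, ← hB] at hsp
    rw [← hA', ← hB'] at hsp'
    obtain ⟨ia0, ia1, ia2⟩ := ih (s + 1) A A' hA2 hA2'
    obtain ⟨ib0, ib1, ib2⟩ := ih (s + 1) B B' hB2 hB2'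
    rw [II_succ h0 h1 hu hv s M φ ψ hφ hψ, ← hA, ← hB, ← hA', ← hB']
    have eA : ∫ x, A x ∂μ = ∫ x, φ x ∂μ := integral_condExp (hu.le _)
    have eA' : ∫ x, A' x ∂ν = ∫ x, ψ x ∂ν := integral_condExp (hv.le _)
    have eB : ∫ x, B x ∂μ = ∫ x, φ x * u s x ∂μ := integral_condExp (hu.le _)
    have eB' : ∫ x, B' x ∂ν = ∫ x, ψ x * v s x ∂ν := integral_condExp (hv.le _)
    have eAk : ∀ k, ∫ x, A x * u (s + 1 + k) x ∂μ = ∫ x, φ x * u (s + 1 + k) x ∂μ := by
      intro k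
      have hmk : Measurable[F (s + 1)] (u (s + 1 + k)) :=
        (hu.meas (s + 1 + k)).mono (hu.anti_add (s + 1) k) le_rfl
      apply integral_condExp_mul (hu.le (s + 1)) φ _ (hφ.integrable (by norm_num))
        hmk.stronglyMeasurable
      exact (memLp_mul_bdd hφ (hmk.mono (hu.le _) le_rfl).aestronglyMeasurable
        (hu.bdd _)).integrable (by norm_num)
    have eAk' : ∀ k, ∫ x, A' x * v (s + 1 + k) x ∂ν = ∫ x, ψ x * v (s + 1 + k) x ∂ν := by
      intro k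
      have hmk : Measurable[F' (s + 1)] (v (s + 1 + k)) :=
        (hv.meas (s + 1 + k)).mono (hv.anti_add (s + 1) k) le_rfl
      apply integral_condExp_mul (hv.le (s + 1)) ψ _ (hψ.integrable (by norm_num))
        hmk.stronglyMeasurable
      exact (memLp_mul_bdd hψ (hmk.mono (hv.le _) le_rfl).aestronglyMeasurable
        (hv.bdd _)).integrable (by norm_num)
    rw [eA, eA'] at ia1 ia2
    simp only [eAk, eAk'] at ia2
    rw [eB, eB'] at ib1
    have esum : ∑ k ∈ Finset.range (M + 1), (∫ x, φ x * u (s + k) x ∂μ) * ∫ y, ψ y * v (s + k) y ∂ν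
        = (∑ k ∈ Finset.range M, (∫ x, φ x * u (s + 1 + k) x ∂μ) * ∫ y, ψ y * v (s + 1 + k) y ∂ν)
          + (∫ x, φ x * u s x ∂μ) * ∫ y, ψ y * v s y ∂ν := by
      rw [Finset.sum_range_succ']
      congr 1
      apply Finset.sum_congr rfl
      intro k _
      have : s + (k + 1) = s + 1 + k := by ring
      rw [this]
    rw [esum]
    set IA := II μ ν ε u v (s + 1) M A A'
    set IB := II μ ν ε u v (s + 1) M B B'
    set a := ∫ x, A x ^ 2 ∂μ
    set b := ∫ x, B x ^ 2 ∂μ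
    set a' := ∫ x, A' x ^ 2 ∂ν
    set b' := ∫ x, B' x ^ 2 ∂ν
    set c := ∫ x, φ x ^ 2 ∂μ
    set c' := ∫ x, ψ x ^ 2 ∂ν
    set E1 := (∫ x, φ x ∂μ) * ∫ y, ψ y ∂ν
    set E2 := (∫ x, φ x * u s x ∂μ) * ∫ y, ψ y * v s y ∂ν
    set Sg := ∑ k ∈ Finset.range M, (∫ x, φ x * u (s + 1 + k) x ∂μ) * ∫ y, ψ y * v (s + 1 + k) y ∂ν
    have hb0 : 0 ≤ b := integral_nonneg (fun x => sq_nonneg _)
    have hb0' : 0 ≤ b' := integral_nonneg (fun x => sq_nonneg _)
    have hεb : ε * ((b + b') / 2) ≤ (b + b') / 2 := by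
      apply mul_le_of_le_one_left _ h1
      positivity
    have hε2 : 0 ≤ ε ^ 2 := sq_nonneg _
    refine ⟨?_, ?_, ?_⟩
    · calc |IA + ε * IB| ≤ |IA| + |ε * IB| := abs_add_le _ _
        _ = |IA| + ε * |IB| := by rw [abs_mul, abs_of_nonneg h0]
        _ ≤ (a + a') / 2 + ε * ((b + b') / 2) := by
            have := mul_le_mul_of_nonneg_left ib0 h0
            linarith
        _ ≤ (c + c') / 2 := by linarith
    · have e1 : IA + ε * IB - E1 = (IA - E1) + ε * IB := by ring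
      rw [e1]
      calc |(IA - E1) + ε * IB| ≤ |IA - E1| + |ε * IB| := abs_add_le _ _
        _ = |IA - E1| + ε * |IB| := by rw [abs_mul, abs_of_nonneg h0]
        _ ≤ ε * ((a + a') / 2) + ε * ((b + b') / 2) := by
            have := mul_le_mul_of_nonneg_left ib0 h0
            linarith
        _ = ε * ((a + a' + (b + b')) / 2) := by ring
        _ ≤ ε * ((c + c') / 2) := by
            apply mul_le_mul_of_nonneg_left _ h0
            linarith
    · have e1 : IA + ε * IB - E1 - ε * (Sg + E2) = (IA - E1 - ε * Sg) + ε * (IB - E2) := by ring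
      rw [e1]
      calc |(IA - E1 - ε * Sg) + ε * (IB - E2)| ≤ |IA - E1 - ε * Sg| + |ε * (IB - E2)| :=
            abs_add_le _ _
        _ = |IA - E1 - ε * Sg| + ε * |IB - E2| := by rw [abs_mul, abs_of_nonneg h0]
        _ ≤ ε ^ 2 * ((a + a') / 2) + ε * (ε * ((b + b') / 2)) := by
            have := mul_le_mul_of_nonneg_left ib1 h0
            linarith
        _ = ε ^ 2 * ((a + a' + (b + b')) / 2) := by ring
        _ ≤ ε ^ 2 * ((c + c') / 2) := by
            apply mul_le_mul_of_nonneg_left _ hε2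
            linarith

/-- one variable integral of the density -/
lemma integral_DD_right {ε : ℝ} (h0 : 0 ≤ ε) (h1 : ε ≤ 1) (hu : RMD μ F u) (hv : RMD ν F' v)
    (M : ℕ) : ∀ (s : ℕ) (x : Ω), ∫ y, DD ε u v s M (x, y) ∂ν = 1 := by
  induction M with
  | zero => intro s x; simp [DD_zero]
  | succ M ih =>
    intro s x
    have hi : Integrable (fun y => DD ε u v (s + 1) M (x, y)) ν := by
      have := integrable_fix_left h0 h1 hu hv (s + 1) M (fun _ => (1 : ℝ)) (integrable_const _) x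
      simpa using this
    have hvm : Measurable[m0'] (v s) := (hv.meas s).mono (hv.le s) le_rfl
    have hvi : Integrable (v s) ν := by
      apply Integrable.of_bound hvm.aestronglyMeasurable 1
      filter_upwards with y
      rw [Real.norm_eq_abs]; exact hv.bdd s y
    have hvi2 := integrable_fix_left h0 h1 hu hv (s + 1) M (v s) hvi x
    have e1 : (fun y => DD ε u v s (M + 1) (x, y))
        = fun y => DD ε u v (s + 1) M (x, y) + ε * u s x * (v s y * DD ε u v (s + 1) M (x, y)) := by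
      ext y
      rw [DD_succ]
      ring
    rw [e1, integral_add hi (hvi2.const_mul _), ih, integral_const_mul,
      ← integral_condExp_mul (hv.le (s + 1)) (v s) _ hvi
        (DD_meas_right hv (s + 1) M x).stronglyMeasurable hvi2]
    have e2 : ∫ y, (ν[v s | F' (s + 1)]) y * DD ε u v (s + 1) M (x, y) ∂ν = 0 := by
      rw [integral_congr_ae (g := fun _ => (0 : ℝ))]
      · simp
      · filter_upwards [hv.ce s] with y hy
        rw [hy]
        simp
    rw [e2]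
    simp

lemma DD_swap (ε : ℝ) (u : ℕ → Ω → ℝ) (v : ℕ → Ω' → ℝ) (s M : ℕ) (x : Ω) (y : Ω') :
    DD ε u v s M (x, y) = DD ε v u s M (y, x) := by
  unfold DD
  apply Finset.prod_congr rfl
  intro k _
  ring

lemma integral_DD_left {ε : ℝ} (h0 : 0 ≤ ε) (h1 : ε ≤ 1) (hu : RMD μ F u) (hv : RMD ν F' v)
    (M : ℕ) (s : ℕ) (y : Ω') : ∫ x, DD ε u v s M (x, y) ∂μ = 1 := by
  simp only [DD_swap ε u v s M _ y]
  exact integral_DD_right h0 h1 hv hu M s y

/-- the coupling -/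
noncomputable def cpl (μ : Measure Ω) (ν : Measure Ω') (ε : ℝ) (u : ℕ → Ω → ℝ) (v : ℕ → Ω' → ℝ)
    (M : ℕ) : Measure (Ω × Ω') :=
  (μ.prod ν).withDensity (fun p => ENNReal.ofReal (DD ε u v 0 M p))

lemma cpl_fst {ε : ℝ} (h0 : 0 ≤ ε) (h1 : ε ≤ 1) (hu : RMD μ F u) (hv : RMD ν F' v) (M : ℕ) :
    (cpl μ ν ε u v M).map Prod.fst = μ := by
  ext s hs
  rw [Measure.map_apply measurable_fst hs]
  unfold cpl
  have hm : Measurable (fun p => ENNReal.ofReal (DD ε u v 0 M p)) :=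
    (DD_meas hu hv 0 M).ennreal_ofReal
  rw [withDensity_apply _ (measurable_fst hs)]
  have h2 : ((Prod.fst : Ω × Ω' → Ω) ⁻¹' s) = s ×ˢ Set.univ := by
    ext p; simp
  rw [h2, ← Measure.prod_restrict, Measure.restrict_univ, lintegral_prod _ hm.aemeasurable]
  have h3 : ∀ x, ∫⁻ y, ENNReal.ofReal (DD ε u v 0 M (x, y)) ∂ν = 1 := by
    intro x
    rw [← ofReal_integral_eq_lintegral_ofReal, integral_DD_right h0 h1 hu hv M 0 x]
    · simp
    · have := integrable_fix_left h0 h1 hu hv 0 M (fun _ => (1 : ℝ)) (integrable_const _) x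
      simpa using this
    · filter_upwards with y
      exact DD_nonneg h0 h1 hu hv 0 M _
  simp only [h3]
  simp

lemma cpl_snd {ε : ℝ} (h0 : 0 ≤ ε) (h1 : ε ≤ 1) (hu : RMD μ F u) (hv : RMD ν F' v) (M : ℕ) :
    (cpl μ ν ε u v M).map Prod.snd = ν := by
  ext s hs
  rw [Measure.map_apply measurable_snd hs]
  unfold cpl
  have hm : Measurable (fun p => ENNReal.ofReal (DD ε u v 0 M p)) :=
    (DD_meas hu hv 0 M).ennreal_ofReal
  rw [withDensity_apply _ (measurable_snd hs)]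
  have h2 : ((Prod.snd : Ω × Ω' → Ω') ⁻¹' s) = Set.univ ×ˢ s := by
    ext p; simp
  rw [h2, ← Measure.prod_restrict, Measure.restrict_univ, lintegral_prod_symm _ hm.aemeasurable]
  have h3 : ∀ y, ∫⁻ x, ENNReal.ofReal (DD ε u v 0 M (x, y)) ∂μ = 1 := by
    intro y
    rw [← ofReal_integral_eq_lintegral_ofReal, integral_DD_left h0 h1 hu hv M 0 y]
    · simp
    · have := integrable_fix_right h0 h1 hu hv 0 M (fun _ => (1 : ℝ)) (integrable_const _) y
      simpa using this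
    · filter_upwards with x
      exact DD_nonneg h0 h1 hu hv 0 M _
  simp only [h3]
  simp

lemma cpl_prob {ε : ℝ} (h0 : 0 ≤ ε) (h1 : ε ≤ 1) (hu : RMD μ F u) (hv : RMD ν F' v) (M : ℕ) :
    IsProbabilityMeasure (cpl μ ν ε u v M) := by
  constructor
  have h := cpl_fst h0 h1 hu hv M
  have h2 : (cpl μ ν ε u v M).map Prod.fst Set.univ = 1 := by
    rw [h]; simp
  rwa [Measure.map_apply measurable_fst MeasurableSet.univ, Set.preimage_univ] at h2

lemma cpl_integral {ε : ℝ} (h0 : 0 ≤ ε) (h1 : ε ≤ 1) (hu : RMD μ F u) (hv : RMD ν F' v) (M : ℕ)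
    (φ : Ω → ℝ) (ψ : Ω' → ℝ) :
    ∫ p, φ p.1 * ψ p.2 ∂(cpl μ ν ε u v M) = II μ ν ε u v 0 M φ ψ := by
  unfold cpl II
  have hm : Measurable (fun p => ENNReal.ofReal (DD ε u v 0 M p)) :=
    (DD_meas hu hv 0 M).ennreal_ofReal
  rw [integral_withDensity_eq_integral_toReal_smul hm (by filter_upwards with p; simp)]
  congr 1
  ext p
  rw [ENNReal.toReal_ofReal (DD_nonneg h0 h1 hu hv 0 M p), smul_eq_mul]
  ring

end two

end Pool.Agent.H263R3.Coupling
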