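import Mathlib

set_option autoImplicit false
open scoped ENNReal Topology
open Filter MeasureTheory

namespace Pool.Agent.H263R3.Ent

/-- the shift -/
def T (x : ℕ → ℕ) : ℕ → ℕ := fun n => x (n + 1)

lemma T_iter (k : ℕ) (x : ℕ → ℕ) (n : ℕ) : (T^[k] x) n = x (n + k) := by
  induction k generalizing n with
  | zero => rfl
  | succ k ih =>
    rw [Function.iterate_succ_apply']
    show (T^[k] x) (n + 1) = _
    rw [ih]
    congr 1
    ring

lemma T_cont : Continuous T := by
  unfold T
  fun_prop

lemma T_meas : Measurable T := T_cont.measurable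

variable {m : ℕ}

/-- the coded sequence -/
def cod (f : ℕ → Fin m) (x : ℕ → ℕ) : ℕ → Fin m := fun n => f (x n)

lemma cod_meas (f : ℕ → Fin m) : Measurable (cod f) := by
  apply measurable_pi_lambda
  intro n
  exact (measurable_of_countable f).comp (measurable_pi_apply n)

/-- the sigma algebra of the coded sequence -/
def GG (f : ℕ → Fin m) : MeasurableSpace (ℕ → ℕ) := MeasurableSpace.comap (cod f) MeasurableSpace.pi

lemma GG_le (f : ℕ → Fin m) : GG f ≤ (MeasurableSpace.pi : MeasurableSpace (ℕ → ℕ)) :=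
  (cod_meas f).comap_le

/-- block starting at coordinate one -/
def blk (f : ℕ → Fin m) (n : ℕ) (x : ℕ → ℕ) : Fin n → Fin m := fun i => f (x (i.val + 1))

lemma blk_meas (f : ℕ → Fin m) (n : ℕ) : Measurable (blk f n) := by
  apply measurable_pi_lambda
  intro i
  exact (measurable_of_countable f).comp (measurable_pi_apply (i.val + 1))

/-- sigma algebra of the block -/
def GB (f : ℕ → Fin m) (n : ℕ) : MeasurableSpace (ℕ → ℕ) :=
  MeasurableSpace.comap (blk f n) MeasurableSpace.pi

lemma GB_mono (f : ℕ → Fin m) : Monotone (GB f) := by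
  intro n n' h
  show MeasurableSpace.comap (blk f n) MeasurableSpace.pi ≤ GB f n'
  apply Measurable.comap_le
  rw [@measurable_pi_iff]
  intro i
  have h1 : Measurable[GB f n'] (blk f n') := comap_measurable _
  have h2 := (measurable_pi_apply (X := fun _ : Fin n' => Fin m) (Fin.castLE h i)).comp h1
  exact h2

/-- the filtration -/
def fil (f : ℕ → Fin m) : Filtration ℕ (MeasurableSpace.pi : MeasurableSpace (ℕ → ℕ)) where
  seq := GB f
  mono' := GB_mono f
  le' n := (blk_meas f n).comap_le

lemma comap_T_GG (f : ℕ → Fin m) :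
    (GG f).comap T = MeasurableSpace.comap (fun x n => f (x (n + 1))) MeasurableSpace.pi := by
  unfold GG
  rw [MeasurableSpace.comap_comp]
  rfl

lemma iSup_GB (f : ℕ → Fin m) : ⨆ n, fil f n = (GG f).comap T := by
  apply le_antisymm
  · apply iSup_le
    intro n
    show MeasurableSpace.comap (blk f n) MeasurableSpace.pi ≤ _
    rw [comap_T_GG]
    apply Measurable.comap_le
    rw [@measurable_pi_iff]
    intro i
    have h1 : Measurable[MeasurableSpace.comap (fun (x : ℕ → ℕ) n => f (x (n + 1))) MeasurableSpace.pi]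
      (fun (x : ℕ → ℕ) n => f (x (n + 1))) := comap_measurable _
    exact (measurable_pi_apply (X := fun _ : ℕ => Fin m) i.val).comp h1
  · rw [comap_T_GG]
    apply Measurable.comap_le
    rw [@measurable_pi_iff]
    intro i
    have h1 : Measurable[GB f (i + 1)] (blk f (i + 1)) := comap_measurable _
    have h2 := (measurable_pi_apply (X := fun _ : Fin (i + 1) => Fin m) (Fin.last i)).comp h1
    have h3 : GB f (i + 1) ≤ ⨆ n, fil f n := le_iSup (fun n => fil f n) (i + 1)
    exact h2.mono h3 le_rfl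

/-- indicator of a letter -/
noncomputable def ind (f : ℕ → Fin m) (a : Fin m) (x : ℕ → ℕ) : ℝ := if f (x 0) = a then 1 else 0

variable {μ : Measure (ℕ → ℕ)} [IsProbabilityMeasure μ]

/-- integrals of functions of a finite valued variable -/
lemma integral_fin {W : Type*} [Fintype W] [MeasurableSpace W] [MeasurableSingletonClass W]
    (b : (ℕ → ℕ) → W) (hb : Measurable b) (h : W → ℝ) :
    ∫ x, h (b x) ∂μ = ∑ w, μ.real (b ⁻¹' {w}) * h w := by
  have hprob : IsProbabilityMeasure (μ.map b) := Measure.isProbabilityMeasure_map hb.aemeasurable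
  have h1 : ∫ w, h w ∂(μ.map b) = ∫ x, h (b x) ∂μ := by
    apply integral_map hb.aemeasurable
    exact (measurable_of_finite h).aestronglyMeasurable
  rw [← h1, integral_fintype]
  · apply Finset.sum_congr rfl
    intro w _
    rw [smul_eq_mul, map_measureReal_apply hb (measurableSet_singleton w)]
  · exact Integrable.of_finite

/-- probability of a block -/
noncomputable def PB (μ : Measure (ℕ → ℕ)) (f : ℕ → Fin m) (n : ℕ) (w : Fin n → Fin m) : ℝ :=
  (μ {x : ℕ → ℕ | ∀ i : Fin n, f (x i.val) = w i}).toReal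

lemma PB_eq_shift (hμ : MeasurePreserving T μ μ) (f : ℕ → Fin m) (n : ℕ) (w : Fin n → Fin m) :
    PB μ f n w = μ.real (blk f n ⁻¹' {w}) := by
  have hms : MeasurableSet {x : ℕ → ℕ | ∀ i : Fin n, f (x i.val) = w i} := by
    have : {x : ℕ → ℕ | ∀ i : Fin n, f (x i.val) = w i}
        = (fun (x : ℕ → ℕ) (i : Fin n) => f (x i.val)) ⁻¹' {w} := by
      ext x
      simp [funext_iff]
    rw [this]
    apply measurableSet_preimage _ (measurableSet_singleton w)
    apply measurable_pi_lambda
    intro i
    exact (measurable_of_countable f).comp (measurable_pi_apply i.val)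
  have h2 : blk f n ⁻¹' {w} = T ⁻¹' {x : ℕ → ℕ | ∀ i : Fin n, f (x i.val) = w i} := by
    ext x
    simp [blk, T, funext_iff]
  rw [h2, Measure.real, hμ.measure_preimage hms.nullMeasurableSet]
  rfl

lemma PB_cons (f : ℕ → Fin m) (n : ℕ) (a : Fin m) (w : Fin n → Fin m) :
    PB μ f (n + 1) (Fin.cons a w) = μ.real ((fun x => (f (x 0), blk f n x)) ⁻¹' {(a, w)}) := by
  unfold PB
  rw [Measure.real]
  congr 2
  ext x
  simp only [Set.mem_ofPred_eq, Set.mem_preimage, Set.mem_singleton_iff, Prod.mk.injEq]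
  rw [Fin.forall_fin_succ]
  simp only [Fin.val_zero, Fin.cons_zero, Fin.val_succ, Fin.cons_succ]
  constructor
  · rintro ⟨h1, h2⟩
    exact ⟨h1, funext h2⟩
  · rintro ⟨h1, h2⟩
    exact ⟨h1, fun i => congrFun h2 i⟩

/-- conditional probability -/
noncomputable def qq (μ : Measure (ℕ → ℕ)) (f : ℕ → Fin m) (n : ℕ) (a : Fin m) (w : Fin n → Fin m) :
    ℝ := PB μ f (n + 1) (Fin.cons a w) / PB μ f n w

lemma PB_nonneg (f : ℕ → Fin m) (n : ℕ) (w : Fin n → Fin m) : 0 ≤ PB μ f n w :=
  ENNReal.toReal_nonneg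

lemma pair_meas (f : ℕ → Fin m) (n : ℕ) :
    Measurable (fun x : ℕ → ℕ => (f (x 0), blk f n x)) :=
  ((measurable_of_countable f).comp (measurable_pi_apply 0)).prodMk (blk_meas f n)

lemma sum_PB_cons (hμ : MeasurePreserving T μ μ) (f : ℕ → Fin m) (n : ℕ) (w : Fin n → Fin m) :
    ∑ a, PB μ f (n + 1) (Fin.cons a w) = PB μ f n w := by
  have h1 := integral_fin (μ := μ) (fun x => (f (x 0), blk f n x)) (pair_meas f n)
    (fun p => if p.2 = w then (1 : ℝ) else 0)
  have h2 := integral_fin (μ := μ) (blk f n) (blk_meas f n) (fun v => if v = w then (1 : ℝ) else 0)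
  rw [Fintype.sum_prod_type] at h1
  simp only [mul_ite, mul_one, mul_zero, Finset.sum_ite_eq', Finset.mem_univ, if_true] at h1 h2
  rw [h2] at h1
  simp only [PB_cons]
  rw [PB_eq_shift hμ]
  exact h1.symm

lemma PB_cons_le (hμ : MeasurePreserving T μ μ) (f : ℕ → Fin m) (n : ℕ) (a : Fin m)
    (w : Fin n → Fin m) : PB μ f (n + 1) (Fin.cons a w) ≤ PB μ f n w := by
  rw [← sum_PB_cons hμ f n w]
  exact Finset.single_le_sum (f := fun a => PB μ f (n + 1) (Fin.cons a w))
    (fun b _ => PB_nonneg f (n + 1) _) (Finset.mem_univ a)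

lemma qq_mem (hμ : MeasurePreserving T μ μ) (f : ℕ → Fin m) (n : ℕ) (a : Fin m)
    (w : Fin n → Fin m) : 0 ≤ qq μ f n a w ∧ qq μ f n a w ≤ 1 := by
  unfold qq
  constructor
  · exact div_nonneg (PB_nonneg f _ _) (PB_nonneg f _ _)
  · exact div_le_one_of_le₀ (PB_cons_le hμ f n a w) (PB_nonneg f _ _)

lemma PB_mul_qq (hμ : MeasurePreserving T μ μ) (f : ℕ → Fin m) (n : ℕ) (a : Fin m)
    (w : Fin n → Fin m) : PB μ f n w * qq μ f n a w = PB μ f (n + 1) (Fin.cons a w) := by
  unfold qq
  by_cases h : PB μ f n w = 0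
  · have h1 := PB_cons_le hμ f n a w
    have h2 := PB_nonneg (μ := μ) f (n + 1) (Fin.cons a w)
    rw [h] at h1 ⊢
    linarith
  · field_simp

lemma ind_meas (f : ℕ → Fin m) (a : Fin m) : Measurable[GG f] (ind f a) := by
  have h1 : Measurable[GG f] (cod f) := comap_measurable _
  have h2 : Measurable (fun y : ℕ → Fin m => if y 0 = a then (1 : ℝ) else 0) := by
    have h3 : Measurable (fun y : ℕ → Fin m => y 0) := measurable_pi_apply 0
    have h4 : Measurable (fun b : Fin m => if b = a then (1 : ℝ) else 0) := measurable_of_countable _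
    exact h4.comp h3
  exact h2.comp h1

lemma ind_integrable (f : ℕ → Fin m) (a : Fin m) : Integrable (ind f a) μ := by
  apply Integrable.of_bound ((ind_meas f a).mono (GG_le f) le_rfl).aestronglyMeasurable 1
  filter_upwards with x
  unfold ind
  split_ifs <;> simp

/-- the conditional expectation on blocks -/
lemma condExp_blk (hμ : MeasurePreserving T μ μ) (f : ℕ → Fin m) (n : ℕ) (a : Fin m) :
    (fun x => qq μ f n a (blk f n x)) =ᵐ[μ] μ[ind f a | fil f n] := by
  have hq : Measurable[GB f n] (fun x => qq μ f n a (blk f n x)) :=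
    (measurable_of_finite (qq μ f n a)).comp (comap_measurable _)
  have hqi : Integrable (fun x => qq μ f n a (blk f n x)) μ := by
    apply Integrable.of_bound (hq.mono ((fil f).le n) le_rfl).aestronglyMeasurable 1
    filter_upwards with x
    rw [Real.norm_eq_abs, abs_of_nonneg (qq_mem hμ f n a _).1]
    exact (qq_mem hμ f n a _).2
  apply ae_eq_condExp_of_forall_setIntegral_eq ((fil f).le n) (ind_integrable f a)
  · intro s _ _
    exact hqi.integrableOn
  · intro s hs _
    obtain ⟨A, hA, rfl⟩ := hs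
    classical
    have hmsA : MeasurableSet (blk f n ⁻¹' A) := (blk_meas f n) (Set.toFinite A).measurableSet
    rw [← integral_indicator hmsA, ← integral_indicator hmsA]
    have e1 : (blk f n ⁻¹' A).indicator (fun x => qq μ f n a (blk f n x))
        = fun x => (fun w => if w ∈ A then qq μ f n a w else 0) (blk f n x) := by
      ext x
      simp only [Set.indicator, Set.mem_preimage]
    have e2 : (blk f n ⁻¹' A).indicator (ind f a)
        = fun x => (fun p : Fin m × (Fin n → Fin m) => if p.2 ∈ A then (if p.1 = a then (1 : ℝ) else 0) else 0)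
          (f (x 0), blk f n x) := by
      ext x
      simp only [Set.indicator, Set.mem_preimage, ind]
    rw [e1, e2, integral_fin (μ := μ) (blk f n) (blk_meas f n),
      integral_fin (μ := μ) (fun x => (f (x 0), blk f n x)) (pair_meas f n), Fintype.sum_prod_type,
      Finset.sum_comm]
    apply Finset.sum_congr rfl
    intro w _
    by_cases hw : w ∈ A
    · simp only [hw, if_true, mul_ite, mul_one, mul_zero, Finset.sum_ite_eq', Finset.mem_univ]
      rw [← PB_eq_shift hμ, PB_mul_qq hμ, PB_cons]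
    · simp [hw]
  · exact hq.stronglyMeasurable.aestronglyMeasurable

/-- block entropies -/
noncomputable def HH (μ : Measure (ℕ → ℕ)) (f : ℕ → Fin m) (n : ℕ) : ℝ :=
  ∑ w : Fin n → Fin m, Real.negMulLog (PB μ f n w)

lemma sum_qq_mul (hμ : MeasurePreserving T μ μ) (f : ℕ → Fin m) (n : ℕ) (w : Fin n → Fin m) :
    (∑ a, qq μ f n a w) * Real.negMulLog (PB μ f n w) = Real.negMulLog (PB μ f n w) := by
  by_cases h : PB μ f n w = 0
  · rw [h]; simp
  · have : ∑ a, qq μ f n a w = 1 := by
      unfold qq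
      rw [← Finset.sum_div, sum_PB_cons hμ, div_self h]
    rw [this, one_mul]

lemma HH_succ (hμ : MeasurePreserving T μ μ) (f : ℕ → Fin m) (n : ℕ) :
    HH μ f (n + 1) = HH μ f n
      + ∑ a, ∫ x, Real.negMulLog (qq μ f n a (blk f n x)) ∂μ := by
  have h1 : HH μ f (n + 1) = ∑ a, ∑ w : Fin n → Fin m,
      Real.negMulLog (PB μ f (n + 1) (Fin.cons a w)) := by
    unfold HH
    rw [← (Fin.consEquiv (fun _ : Fin (n + 1) => Fin m)).sum_comp, Fintype.sum_prod_type]
    rfl
  have h2 : ∀ a, ∫ x, Real.negMulLog (qq μ f n a (blk f n x)) ∂μ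
      = ∑ w, PB μ f n w * Real.negMulLog (qq μ f n a w) := by
    intro a
    rw [integral_fin (μ := μ) (blk f n) (blk_meas f n) (fun w => Real.negMulLog (qq μ f n a w))]
    apply Finset.sum_congr rfl
    intro w _
    rw [PB_eq_shift hμ]
  simp only [h2]
  rw [h1, Finset.sum_comm, Finset.sum_comm (s := (Finset.univ : Finset (Fin m))) (t := (Finset.univ : Finset (Fin n → Fin m)))]
  unfold HH
  rw [← Finset.sum_add_distrib]
  apply Finset.sum_congr rfl
  intro w _
  rw [← sum_qq_mul hμ f n w, Finset.sum_mul, ← Finset.sum_add_distrib]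
  apply Finset.sum_congr rfl
  intro a _
  rw [← PB_mul_qq hμ f n a w, Real.negMulLog_mul]

lemma HH_zero (f : ℕ → Fin m) : HH μ f 0 = 0 := by
  unfold HH PB
  simp

lemma negMulLog_bound {t : ℝ} (h0 : 0 ≤ t) (h1 : t ≤ 1) : |Real.negMulLog t| ≤ 1 := by
  rw [abs_of_nonneg (Real.negMulLog_nonneg h0 h1)]
  rcases eq_or_lt_of_le h0 with h | h
  · rw [← h]; simp
  · have h2 := Real.one_sub_inv_le_log_of_pos h
    unfold Real.negMulLog
    have h3 : t * (1 - t⁻¹) ≤ t * Real.log t := mul_le_mul_of_nonneg_left h2 h0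
    have h4 : t * (1 - t⁻¹) = t - 1 := by
      field_simp
    nlinarith

/-- Positive entropy gives a letter whose indicator is not determined by the later coordinates. -/
theorem exists_innovation (hμ : MeasurePreserving T μ μ) (f : ℕ → Fin m) (c : ℝ) (hc : 0 < c)
    (hH : ∀ n : ℕ, c * (n : ℝ) ≤ ∑ w : Fin n → Fin m,
      Real.negMulLog ((μ {x : ℕ → ℕ | ∀ i : Fin n, f (x i.val) = w i}).toReal)) :
    ∃ a : Fin m, ¬ (μ[ind f a | (GG f).comap T] =ᵐ[μ] ind f a) := by
  by_contra hcon
  push Not at hcon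
  -- conditional entropies tend to zero
  have hlim : ∀ a : Fin m, Tendsto (fun n => ∫ x, Real.negMulLog (qq μ f n a (blk f n x)) ∂μ) atTop
      (𝓝 0) := by
    intro a
    have h0 : (0 : ℝ) = ∫ x : ℕ → ℕ, (0 : ℝ) ∂μ := by simp
    rw [h0]
    apply tendsto_integral_of_dominated_convergence (fun _ => (1 : ℝ))
    · intro n
      have hq : Measurable (fun x => qq μ f n a (blk f n x)) :=
        (measurable_of_finite (qq μ f n a)).comp (blk_meas f n)
      exact (Real.continuous_negMulLog.measurable.comp hq).aestronglyMeasurable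
    · exact integrable_const _
    · intro n
      filter_upwards with x
      rw [Real.norm_eq_abs]
      exact negMulLog_bound (qq_mem hμ f n a _).1 (qq_mem hμ f n a _).2
    · have h1 := tendsto_ae_condExp (μ := μ) (ℱ := fil f) (ind f a)
      rw [iSup_GB] at h1
      have h2 : ∀ᵐ x ∂μ, ∀ n, qq μ f n a (blk f n x) = (μ[ind f a | fil f n]) x := by
        rw [ae_all_iff]
        intro n
        exact condExp_blk hμ f n a
      filter_upwards [h1, h2, hcon a] with x hx1 hx2 hx3
      rw [hx3] at hx1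
      simp only [← hx2] at hx1
      have h3 := (Real.continuous_negMulLog.tendsto (ind f a x)).comp hx1
      have h4 : Real.negMulLog (ind f a x) = 0 := by
        unfold ind
        split_ifs <;> simp
      rw [h4] at h3
      exact h3
  have hlim2 : Tendsto (fun n => ∑ a, ∫ x, Real.negMulLog (qq μ f n a (blk f n x)) ∂μ) atTop
      (𝓝 0) := by
    have := tendsto_finsetSum (Finset.univ : Finset (Fin m)) (fun a _ => hlim a)
    simpa using this
  have hsum : ∀ n : ℕ, HH μ f n
      = ∑ k ∈ Finset.range n, ∑ a, ∫ x, Real.negMulLog (qq μ f k a (blk f k x)) ∂μ := by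
    intro n
    induction n with
    | zero => simp [HH_zero]
    | succ n ih => rw [HH_succ hμ, ih, Finset.sum_range_succ]
  have hces := hlim2.cesaro
  have hge : ∀ᶠ n : ℕ in atTop, c ≤ (n⁻¹ : ℝ) * ∑ k ∈ Finset.range n,
      ∑ a, ∫ x, Real.negMulLog (qq μ f k a (blk f k x)) ∂μ := by
    filter_upwards [eventually_gt_atTop 0] with n hn
    rw [← hsum]
    have h1 : c * (n : ℝ) ≤ HH μ f n := hH n
    have hn' : (0 : ℝ) < n := by exact_mod_cast hn
    rw [← div_eq_inv_mul, le_div_iff₀ hn']
    exact h1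
  have := ge_of_tendsto hces hge
  linarith

end Pool.Agent.H263R3.Ent
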