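import Mathlib

/-!
Polynomial curves on the affine Fermat hypersurface `∑ x_i ^ d = 1` in `d` variables:
there is none, except the constant one, through a point at which `d - 1` of the coordinates
admit dual derivations of the ground field.
-/

open Polynomial Matrix

namespace Pool.Agent.H263R3

/-- apply a derivation to the coefficients of a polynomial -/
noncomputable def mapD (D : Derivation ℤ ℂ ℂ) : Derivation ℤ ℂ[X] ℂ[X] :=
  PolynomialModule.equivPolynomialSelf.compDer D.mapCoeffs

theorem coeff_mapD (D : Derivation ℤ ℂ ℂ) (p : ℂ[X]) (i : ℕ) :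
    (mapD D p).coeff i = D (p.coeff i) := rfl

theorem natDegree_mapD_le (D : Derivation ℤ ℂ ℂ) (p : ℂ[X]) :
    (mapD D p).natDegree ≤ p.natDegree := by
  rw [natDegree_le_iff_coeff_eq_zero]
  intro n hn
  rw [coeff_mapD, coeff_eq_zero_of_natDegree_lt hn, map_zero]

variable {ι : Type} [Fintype ι] [DecidableEq ι]

/-- Degree bound for a determinant one of whose rows is a unit vector or zero. -/
theorem natDegree_det_le (A : Matrix ι ι ℂ[X]) (i0 j0 : ι) (b : ι → ℕ)
    (hrow : ∀ j, j ≠ j0 → A i0 j = 0) (h0 : (A i0 j0).natDegree ≤ 0)
    (hb : ∀ i j, j ≠ j0 → (A i j).natDegree ≤ b j) :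
    A.det.natDegree ≤ ∑ j ∈ Finset.univ.erase j0, b j := by
  rw [Matrix.det_apply]
  refine natDegree_sum_le_of_forall_le _ _ (fun σ _ => ?_)
  refine (natDegree_smul_le _ _).trans ?_
  by_cases hσ : σ j0 = i0
  · rw [← Finset.mul_prod_erase _ _ (Finset.mem_univ j0)]
    refine natDegree_mul_le.trans ?_
    rw [hσ]
    refine (Nat.add_le_add h0 (natDegree_prod_le _ _)).trans ?_
    rw [zero_add]
    exact Finset.sum_le_sum (fun j hj => hb _ _ (Finset.ne_of_mem_erase hj))
  · have : ∏ j, A (σ j) j = 0 := by
      refine Finset.prod_eq_zero (Finset.mem_univ (σ.symm i0)) ?_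
      rw [Equiv.apply_symm_apply]
      apply hrow
      intro h
      apply hσ
      rw [← h, Equiv.apply_symm_apply]
    rw [this]
    simp

theorem const_of_sum_pow (d : ℕ) (hd : d = Fintype.card ι) (hd0 : 0 < d) (j0 : ι) (q : ι → ℂ[X])
    (hq : ∑ i, q i ^ d = 1) (D : ι → Derivation ℤ ℂ ℂ)
    (hD : ∀ j, j ≠ j0 → ∀ i, i ≠ j0 → D j ((q i).coeff 0) = if i = j then 1 else 0) :
    ∀ i, derivative (q i) = 0 := by
  classical
  obtain ⟨i0, -, hi0⟩ := Finset.exists_max_image Finset.univ (fun i => (q i).natDegree)
    ⟨j0, Finset.mem_univ _⟩
  set n := (q i0).natDegree with hn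
  rcases Nat.eq_zero_or_pos n with hn0 | hnpos
  · intro i
    have : (q i).natDegree = 0 := by
      have := hi0 i (Finset.mem_univ _)
      omega
    exact derivative_of_natDegree_zero this
  -- the tangency relations
  have hder : ∀ E : Derivation ℤ ℂ[X] ℂ[X], ∑ i, q i ^ (d - 1) * E (q i) = 0 := by
    intro E
    have h1 : E (∑ i, q i ^ d) = 0 := by rw [hq]; simp
    rw [map_sum] at h1
    have h2 : ∑ i, E (q i ^ d) = (d : ℂ[X]) * ∑ i, q i ^ (d - 1) * E (q i) := by
      rw [Finset.mul_sum]
      refine Finset.sum_congr rfl (fun i _ => ?_)
      rw [Derivation.leibniz_pow]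
      simp [nsmul_eq_mul]
    rw [h2] at h1
    rcases mul_eq_zero.1 h1 with h | h
    · exfalso
      have : (d : ℂ[X]) ≠ 0 := by exact_mod_cast hd0.ne'
      exact this h
    · exact h
  set A : Matrix ι ι ℂ[X] := Matrix.of fun i j => if j = j0 then q i else mapD (D j) (q i) with hA
  have hq0 : q i0 ≠ 0 := by
    rintro h
    rw [h] at hn
    simp at hn
    omega
  have hdq : d - 1 + 1 = d := by omega
  -- the key identity
  have key : ∀ B : Matrix ι ι ℂ[X],
      q i0 ^ (d - 1) * B.det =
        (B.updateRow i0 (fun j => ∑ k, q k ^ (d - 1) * B k j)).det := by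
    intro B
    have := Matrix.det_updateRow_sum B i0 (fun k => q k ^ (d - 1))
    rw [smul_eq_mul] at this
    rw [← this]
    congr 1
    ext i j
    by_cases hi : i = i0
    · subst hi
      simp
    · simp [Matrix.updateRow_ne hi]
  -- the radial column
  have hsumj0 : ∑ k, q k ^ (d - 1) * A k j0 = 1 := by
    rw [← hq]
    refine Finset.sum_congr rfl (fun i _ => ?_)
    simp only [hA, Matrix.of_apply, if_true]
    rw [← pow_succ, hdq]
  have hsumj : ∀ j, j ≠ j0 → ∑ k, q k ^ (d - 1) * A k j = 0 := by
    intro j hj
    have := hder (mapD (D j))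
    rw [← this]
    refine Finset.sum_congr rfl (fun i _ => ?_)
    simp only [hA, Matrix.of_apply, if_neg hj]
  have hcard : (Finset.univ.erase j0 : Finset ι).card = d - 1 := by
    rw [Finset.card_erase_of_mem (Finset.mem_univ _), Finset.card_univ, hd]
  have hAb : ∀ i j, j ≠ j0 → (A i j).natDegree ≤ n := by
    intro i j hj
    simp only [hA, Matrix.of_apply, if_neg hj]
    exact (natDegree_mapD_le _ _).trans (hi0 i (Finset.mem_univ _))
  -- determinant of A is constant
  have hdetA_deg : A.det.natDegree = 0 := by
    by_contra hne
    have hne0 : A.det ≠ 0 := by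
      intro h
      rw [h] at hne
      simp at hne
    have h1 := congrArg natDegree (key A)
    rw [natDegree_mul (pow_ne_zero _ hq0) hne0, natDegree_pow, ← hn] at h1
    have h2 := natDegree_det_le (A.updateRow i0 (fun j => ∑ k, q k ^ (d - 1) * A k j)) i0 j0
      (fun _ => n) (fun j hj => by rw [Matrix.updateRow_self]; exact hsumj j hj)
      (by rw [Matrix.updateRow_self, hsumj0]; simp) (fun i j hj => by
        by_cases hi : i = i0
        · subst hi
          rw [Matrix.updateRow_self, hsumj j hj]
          simp
        · rw [Matrix.updateRow_ne hi]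
          exact hAb i j hj)
    rw [Finset.sum_const, hcard, smul_eq_mul] at h2
    omega
  -- value at zero of the determinant
  have hdetA : A.det ≠ 0 := by
    intro h0
    have h1 : (A.map (fun p => p.coeff 0)).det = 0 := by
      have h2 : (A.map (constantCoeff : ℂ[X] →+* ℂ)).det = constantCoeff A.det := by
        rw [RingHom.map_det]
        rfl
      rw [h0, map_zero] at h2
      exact h2
    set c : ι → ℂ := fun i => (q i).coeff 0 with hc
    set N := A.map (fun p => p.coeff 0) with hN
    have h3 := Matrix.det_updateRow_sum N j0 (fun k => c k ^ (d - 1))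
    rw [h1, smul_zero] at h3
    have h4 : N.updateRow j0 (∑ k, (c k ^ (d - 1)) • N k) =
        (1 : Matrix ι ι ℂ).updateCol j0 (fun i => if i = j0 then 1 else c i) := by
      ext i j
      by_cases hi : i = j0
      · subst hi
        rw [Matrix.updateRow_self]
        by_cases hj : j = i
        · subst hj
          rw [Matrix.updateCol_self, if_pos rfl]
          have := congrArg (fun p => p.coeff 0) hsumj0
          simp only [finsetSum_coeff, mul_coeff_zero, coeff_one_zero] at this
          rw [Finset.sum_apply, ← this]
          refine Finset.sum_congr rfl (fun k _ => ?_)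
          simp only [Pi.smul_apply, smul_eq_mul, hN, Matrix.map_apply, hc]
          congr 1
          rw [coeff_zero_eq_eval_zero, coeff_zero_eq_eval_zero, eval_pow]
        · rw [Matrix.updateCol_ne hj, Matrix.one_apply_ne (Ne.symm hj)]
          have := congrArg (fun p => p.coeff 0) (hsumj j hj)
          simp only [finsetSum_coeff, mul_coeff_zero, coeff_zero] at this
          rw [Finset.sum_apply, ← this]
          refine Finset.sum_congr rfl (fun k _ => ?_)
          simp only [Pi.smul_apply, smul_eq_mul, hN, Matrix.map_apply, hc]
          congr 1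
          rw [coeff_zero_eq_eval_zero, coeff_zero_eq_eval_zero, eval_pow]
      · rw [Matrix.updateRow_ne hi]
        by_cases hj : j = j0
        · subst hj
          rw [Matrix.updateCol_self, if_neg hi]
          simp [hN, hA, hc]
        · rw [Matrix.updateCol_ne hj]
          simp only [hN, hA, Matrix.map_apply, Matrix.of_apply, if_neg hj, coeff_mapD]
          rw [hD j hj i hi, Matrix.one_apply]
    rw [h4, ← Matrix.cramer_apply, Matrix.cramer_one] at h3
    simp at h3
  -- the other determinants vanish
  have hcr : A.cramer (fun i => derivative (q i)) = 0 := by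
    ext1 j
    rw [Matrix.cramer_apply, Pi.zero_apply]
    by_contra hne
    set B := A.updateCol j (fun i => derivative (q i)) with hB
    have hder' : ∑ k, q k ^ (d - 1) * derivative (q k) = 0 :=
      hder ((derivative' (R := ℂ)).restrictScalars ℤ)
    by_cases hj : j = j0
    · have h1 := key B
      have h2 : (B.updateRow i0 (fun j => ∑ k, q k ^ (d - 1) * B k j)).det = 0 := by
        apply Matrix.det_eq_zero_of_row_eq_zero i0
        intro l
        rw [Matrix.updateRow_self]
        by_cases hl : l = j
        · subst hl
          simp only [hB, Matrix.updateCol_self]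
          exact hder'
        · simp only [hB, Matrix.updateCol_ne hl]
          exact hsumj l (by rw [← hj]; exact hl)
      rw [h2] at h1
      rcases mul_eq_zero.1 h1 with h | h
      · exact pow_ne_zero _ hq0 h
      · exact hne h
    · have h1 := congrArg natDegree (key B)
      rw [natDegree_mul (pow_ne_zero _ hq0) hne, natDegree_pow, ← hn] at h1
      have h2 := natDegree_det_le (B.updateRow i0 (fun j => ∑ k, q k ^ (d - 1) * B k j)) i0 j0
        (fun l => if l = j then n - 1 else n)
        (fun l hl => by
          rw [Matrix.updateRow_self]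
          by_cases hlj : l = j
          · subst hlj
            simp only [hB, Matrix.updateCol_self]
            exact hder'
          · simp only [hB, Matrix.updateCol_ne hlj]
            exact hsumj l hl)
        (by
          rw [Matrix.updateRow_self]
          simp only [hB, Matrix.updateCol_ne (Ne.symm hj)]
          rw [hsumj0]; simp) (fun i l hl => by
          by_cases hi : i = i0
          · subst hi
            rw [Matrix.updateRow_self]
            by_cases hlj : l = j
            · subst hlj
              simp only [hB, Matrix.updateCol_self]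
              rw [hder']
              simp
            · simp only [hB, Matrix.updateCol_ne hlj]
              rw [hsumj l hl]
              simp
          · rw [Matrix.updateRow_ne hi]
            by_cases hlj : l = j
            · subst hlj
              simp only [hB, Matrix.updateCol_self, if_true]
              refine (natDegree_derivative_le _).trans ?_
              have := hi0 i (Finset.mem_univ _)
              omega
            · simp only [hB, Matrix.updateCol_ne hlj, if_neg hlj]
              exact hAb i l hl)
      have hjm : j ∈ Finset.univ.erase j0 := Finset.mem_erase.2 ⟨hj, Finset.mem_univ _⟩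
      rw [← Finset.add_sum_erase _ _ hjm, if_pos rfl,
        Finset.sum_congr rfl (g := fun _ => n) (fun l hl => if_neg (Finset.ne_of_mem_erase hl)),
        Finset.sum_const, Finset.card_erase_of_mem hjm, hcard, smul_eq_mul] at h2
      have hd1 : 1 ≤ d - 1 := by
        have : 0 < (Finset.univ.erase j0 : Finset ι).card := Finset.card_pos.2 ⟨j, hjm⟩
        omega
      have h3 : (d - 1) * n = n + (d - 1 - 1) * n := by
        obtain ⟨m, hm⟩ : ∃ m, d - 1 = m + 1 := ⟨d - 1 - 1, by omega⟩
        rw [hm]
        simp
        ring
      omega
  have hfin := Matrix.mulVec_cramer A (fun i => derivative (q i))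
  rw [hcr, Matrix.mulVec_zero] at hfin
  intro i
  have := congrFun hfin i
  simp only [Pi.zero_apply, Pi.smul_apply, smul_eq_mul] at this
  rcases mul_eq_zero.1 this.symm with h | h
  · exact absurd h hdetA
  · exact h

end Pool.Agent.H263R3
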