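import Mathlib

set_option autoImplicit false
open scoped ENNReal Topology InnerProductSpace
open Filter

namespace Pool.Agent.H263R3.H2

/-- square summable real sequences on the integers -/
abbrev H := lp (fun _ : ℤ => ℝ) 2

lemma memlp_shift (n : ℤ) (a : H) : Memℓp (fun k : ℤ => (a (k - n) : ℝ)) 2 := by
  have h := lp.memℓp a
  rw [memℓp_gen_iff (by norm_num)] at h ⊢
  exact (Equiv.subRight n).summable_iff.mpr h

/-- the shifted sequence -/
noncomputable def shf (n : ℤ) (a : H) : H := ⟨fun k => a (k - n), memlp_shift n a⟩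

lemma shf_apply (n : ℤ) (a : H) (k : ℤ) : shf n a k = a (k - n) := rfl

lemma inner_def (a b : H) : ⟪a, b⟫_ℝ = ∑' k, a k * b k := by
  rw [lp.inner_eq_tsum]
  congr 1
  ext k
  simp [mul_comm]

lemma inner_shf (n : ℤ) (a b : H) : ⟪shf n a, shf n b⟫_ℝ = ⟪a, b⟫_ℝ := by
  rw [inner_def, inner_def]
  exact (Equiv.subRight n).tsum_eq (fun k => a k * b k)

/-- the shift as a linear isometry -/
noncomputable def sh (n : ℤ) : H →ₗᵢ[ℝ] H :=
  LinearMap.isometryOfInner
    { toFun := shf n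
      map_add' := by
        intro a b
        ext k
        simp [shf_apply]
      map_smul' := by
        intro c a
        ext k
        simp [shf_apply] }
    (fun a b => inner_shf n a b)

lemma sh_apply (n : ℤ) (a : H) (k : ℤ) : sh n a k = a (k - n) := rfl

lemma inner_sh (n : ℤ) (a b : H) : ⟪sh n a, sh n b⟫_ℝ = ⟪a, b⟫_ℝ := inner_shf n a b

lemma sh_add (m n : ℤ) (a : H) : sh (m + n) a = sh m (sh n a) := by
  ext k
  rw [sh_apply, sh_apply, sh_apply]
  have h : k - (m + n) = k - m - n := by ring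
  exact congrArg (fun j : ℤ => (a j : ℝ)) h

lemma sh_zero (a : H) : sh 0 a = a := by
  ext k
  rw [sh_apply]
  have h : k - 0 = k := by ring
  exact congrArg (fun j : ℤ => (a j : ℝ)) h

/-- coordinate functional, as inner product -/
lemma coord_eq (a : H) (k : ℤ) : ⟪(lp.single 2 k (1 : ℝ) : H), a⟫_ℝ = a k := by
  rw [lp.inner_single_left]
  simp

/-- If all shifts of `v` are orthogonal with unit norm, they are complete. -/
lemma complete_of_white (v : H) (hv : ‖v‖ = 1) (horth : ∀ n : ℤ, n ≠ 0 → ⟪sh n v, v⟫_ℝ = 0)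
    (b : H) (hb : ∀ n : ℤ, ⟪sh n v, b⟫_ℝ = 0) : b = 0 := by
  have hon : Orthonormal ℝ (fun n : ℤ => sh n v) := by
    refine ⟨fun n => ?_, ?_⟩
    · rw [LinearIsometry.norm_map, hv]
    · intro i j hij
      have h1 : ⟪sh i v, sh j v⟫_ℝ = ⟪sh (i - j) v, v⟫_ℝ := by
        have : sh i v = sh j (sh (i - j) v) := by
          rw [← sh_add]; congr 2; ring
        rw [this, inner_sh]
      show ⟪sh i v, sh j v⟫_ℝ = 0
      rw [h1]
      exact horth _ (sub_ne_zero.mpr hij)
  ext k
  set e : H := lp.single 2 k (1 : ℝ) with he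
  have hcoef : ∀ n : ℤ, ⟪sh n v, e⟫_ℝ = v (k - n) := by
    intro n
    rw [real_inner_comm, coord_eq, sh_apply]
  have hsum1 : ∑' n : ℤ, ‖⟪sh n v, e⟫_ℝ‖ ^ 2 = 1 := by
    have h2 : ∑' n : ℤ, ‖⟪sh n v, e⟫_ℝ‖ ^ 2 = ∑' n : ℤ, (v (k - n)) * (v (k - n)) := by
      congr 1
      ext n
      rw [hcoef, Real.norm_eq_abs, sq_abs]
      ring
    have h3 : ∑' n : ℤ, (v (k - n)) * (v (k - n)) = ∑' n : ℤ, v n * v n :=
      (Equiv.subLeft k).tsum_eq (fun j => v j * v j)
    rw [h2, h3, ← inner_def, real_inner_self_eq_norm_sq, hv]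
    norm_num
  have hkey : ∀ t : ℝ, 0 ≤ 2 * t * ⟪e, b⟫_ℝ + t ^ 2 * ‖b‖ ^ 2 := by
    intro t
    have h3 := hon.tsum_inner_products_le (x := e + t • b)
    have h4 : (fun n : ℤ => ‖⟪sh n v, e + t • b⟫_ℝ‖ ^ 2) = fun n : ℤ => ‖⟪sh n v, e⟫_ℝ‖ ^ 2 := by
      ext n
      rw [inner_add_right, inner_smul_right, hb n]
      simp
    rw [h4, hsum1] at h3
    have h5 : ‖e + t • b‖ ^ 2 = 1 + 2 * t * ⟪e, b⟫_ℝ + t ^ 2 * ‖b‖ ^ 2 := by
      rw [@norm_add_sq_real, inner_smul_right, norm_smul, mul_pow, Real.norm_eq_abs, sq_abs]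
      have h6 : ‖e‖ = 1 := by
        rw [he, lp.norm_single (by norm_num)]
        simp
      rw [h6]
      ring
    rw [h5] at h3
    linarith
  have hzero : ⟪e, b⟫_ℝ = 0 := by
    by_contra hne
    set c := ⟪e, b⟫_ℝ with hc
    have hb2 : 0 ≤ ‖b‖ ^ 2 := by positivity
    have h7 := hkey (-c / (‖b‖ ^ 2 + 1))
    have h8 : 0 < ‖b‖ ^ 2 + 1 := by linarith
    have h9 : 2 * (-c / (‖b‖ ^ 2 + 1)) * c + (-c / (‖b‖ ^ 2 + 1)) ^ 2 * ‖b‖ ^ 2
        = - (c ^ 2 * (‖b‖ ^ 2 + 2)) / (‖b‖ ^ 2 + 1) ^ 2 := by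
      field_simp
      ring
    rw [h9] at h7
    have h10 : 0 < c ^ 2 * (‖b‖ ^ 2 + 2) / (‖b‖ ^ 2 + 1) ^ 2 := by positivity
    rw [neg_div] at h7
    linarith
  rw [coord_eq] at hzero
  rw [hzero]
  rfl

/-- Two square summable sequences, the first one supported on the nonnegative integers with
nonzero value at zero: if all cross correlations vanish then the second vanishes. -/
theorem eq_zero_of_cross (a b : H) (hneg : ∀ k : ℤ, k < 0 → a k = 0) (h0 : a 0 ≠ 0)
    (hcross : ∀ n : ℤ, ⟪sh n a, b⟫_ℝ = 0) : b = 0 := by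
  -- the closed span of the strictly positive shifts
  set M : Submodule ℝ H := (Submodule.span ℝ {x : H | ∃ n : ℤ, 1 ≤ n ∧ x = sh n a}).topologicalClosure
    with hM
  have hMclosed : IsClosed (M : Set H) := Submodule.isClosed_topologicalClosure _
  have : CompleteSpace M := hMclosed.completeSpace_coe
  have hshM : ∀ n : ℤ, 1 ≤ n → sh n a ∈ M := by
    intro n hn
    exact Submodule.le_topologicalClosure _ (Submodule.subset_span ⟨n, hn, rfl⟩)
  -- closed predicates pass to M
  have hMind : ∀ (L : H →L[ℝ] ℝ), (∀ n : ℤ, 1 ≤ n → L (sh n a) = 0) → ∀ x ∈ M, L x = 0 := by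
    intro L hL x hx
    have hsub : (Submodule.span ℝ {x : H | ∃ n : ℤ, 1 ≤ n ∧ x = sh n a}) ≤ LinearMap.ker L.toLinearMap := by
      rw [Submodule.span_le]
      rintro y ⟨n, hn, rfl⟩
      simpa using hL n hn
    have hcl : M ≤ LinearMap.ker L.toLinearMap := by
      apply Submodule.topologicalClosure_minimal _ hsub
      exact ContinuousLinearMap.isClosed_ker L
    simpa using hcl hx
  -- shifts by a nonneg integer preserve M
  have hMsh : ∀ m : ℤ, 0 ≤ m → ∀ x ∈ M, sh m x ∈ M := by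
    intro m hm x hx
    have hsub : (Submodule.span ℝ {x : H | ∃ n : ℤ, 1 ≤ n ∧ x = sh n a})
        ≤ M.comap (sh m).toLinearMap := by
      rw [Submodule.span_le]
      rintro y ⟨n, hn, rfl⟩
      show sh m (sh n a) ∈ M
      rw [← sh_add]
      exact hshM _ (by linarith)
    have hcl : M ≤ M.comap (sh m).toLinearMap := by
      apply Submodule.topologicalClosure_minimal _ hsub
      exact hMclosed.preimage (sh m).continuous
    exact hcl hx
  set pr : H := M.starProjection a with hpr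
  have hprM : pr ∈ M := Submodule.starProjection_apply_mem M a
  set φ : H := a - pr with hφ
  have hφperp : ∀ x ∈ M, ⟪x, φ⟫_ℝ = 0 := by
    intro x hx
    have := Submodule.sub_starProjection_mem_orthogonal (K := M) a
    exact (Submodule.mem_orthogonal M _).mp this x hx
  have hφ0 : φ 0 = a 0 := by
    have h1 : pr 0 = 0 := by
      have := hMind (innerSL ℝ (lp.single 2 (0:ℤ) (1 : ℝ) : H)) (by
        intro n hn
        rw [innerSL_apply_apply, coord_eq, sh_apply]
        exact hneg _ (by linarith)) pr hprM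
      rwa [innerSL_apply_apply, coord_eq] at this
    have : φ 0 = a 0 - pr 0 := rfl
    rw [this, h1, sub_zero]
  have hφne : φ ≠ 0 := by
    intro h
    apply h0
    rw [← hφ0, h]
    rfl
  have hφorth : ∀ n : ℤ, 1 ≤ n → ⟪sh n φ, φ⟫_ℝ = 0 := by
    intro n hn
    apply hφperp
    rw [hφ, map_sub]
    exact M.sub_mem (hshM n hn) (hMsh n (by linarith) _ hprM)
  have hφcross : ∀ n : ℤ, ⟪sh n φ, b⟫_ℝ = 0 := by
    intro n
    have h1 : ⟪sh n pr, b⟫_ℝ = 0 := by
      have := hMind ((innerSL ℝ b).comp (sh n).toContinuousLinearMap) (by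
        intro m hm
        show ⟪b, sh n (sh m a)⟫_ℝ = 0
        rw [← sh_add, real_inner_comm]
        exact hcross _) pr hprM
      have h2 : ⟪b, sh n pr⟫_ℝ = 0 := this
      rwa [real_inner_comm] at h2
    rw [hφ, map_sub, inner_sub_left, hcross, h1, sub_zero]
  -- normalise
  have hnpos : 0 < ‖φ‖ := norm_pos_iff.mpr hφne
  apply complete_of_white ((‖φ‖)⁻¹ • φ)
  · rw [norm_smul, norm_inv, norm_norm, inv_mul_cancel₀ hnpos.ne']
  · intro n hn
    rw [map_smul, inner_smul_left, inner_smul_right]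
    have : ⟪sh n φ, φ⟫_ℝ = 0 := by
      rcases lt_or_gt_of_ne hn with h | h
      · have h2 : ⟪sh n φ, φ⟫_ℝ = ⟪sh (-n) φ, φ⟫_ℝ := by
          rw [← inner_sh (-n) (sh n φ) φ, ← sh_add, neg_add_cancel, sh_zero, real_inner_comm]
        rw [h2]
        exact hφorth _ (by omega)
      · exact hφorth _ (by omega)
    rw [this]
    simp
  · intro n
    rw [map_smul, inner_smul_left, hφcross]
    simp

/-- shift of a one-sided sequence by p -/
def ps (p : ℕ) (α : ℕ → ℝ) (k : ℕ) : ℝ := if p ≤ k then α (k - p) else 0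

/-- extension by zero -/
def ext0 (α : ℕ → ℝ) (k : ℤ) : ℝ := if 0 ≤ k then α k.toNat else 0

lemma ext0_natCast (α : ℕ → ℝ) (k : ℕ) : ext0 α (k : ℤ) = α k := by
  simp [ext0]

lemma ext0_neg (α : ℕ → ℝ) (k : ℤ) (hk : k < 0) : ext0 α k = 0 := by
  simp [ext0, hk]

lemma ps_eq_ext0 (p : ℕ) (α : ℕ → ℝ) (k : ℕ) : ps p α k = ext0 α ((k : ℤ) - p) := by
  unfold ps
  split_ifs with h
  · have : ((k : ℤ) - p) = ((k - p : ℕ) : ℤ) := by omega
    rw [this, ext0_natCast]
  · rw [ext0_neg]
    omega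

lemma memlp_ext0 (α : ℕ → ℝ) (hα : Summable (fun k => α k ^ 2)) :
    Memℓp (ext0 α) 2 := by
  rw [memℓp_gen_iff (by norm_num)]
  have h1 : (fun i : ℤ => ‖ext0 α i‖ ^ (2 : ℝ≥0∞).toReal) = fun i => (ext0 α i) ^ 2 := by
    ext i
    simp
  rw [h1]
  have hinj : Function.Injective (fun k : ℕ => (k : ℤ)) := Nat.cast_injective
  rw [← hinj.summable_iff]
  · convert hα using 1
    ext k
    simp [ext0_natCast]
  · intro x hx
    rw [ext0_neg]
    · simp
    · by_contra h
      apply hx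
      exact ⟨x.toNat, by simp; omega⟩

/-- One-sided square summable sequences with nonzero first terms have a nonzero cross
correlation. -/
theorem exists_cross_ne_zero (α β : ℕ → ℝ) (hα : Summable (fun k => α k ^ 2))
    (hβ : Summable (fun k => β k ^ 2)) (h0 : α 0 ≠ 0) (h1 : β 0 ≠ 0) :
    ∃ p q : ℕ, ∑' k : ℕ, ps p α k * ps q β k ≠ 0 := by
  by_contra hcon
  push Not at hcon
  set a : H := ⟨ext0 α, memlp_ext0 α hα⟩ with ha
  set b : H := ⟨ext0 β, memlp_ext0 β hβ⟩ with hb
  have haf : ∀ k, a k = ext0 α k := fun k => rfl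
  have hbf : ∀ k, b k = ext0 β k := fun k => rfl
  have key : ∀ p q : ℕ, ⟪sh p a, sh q b⟫_ℝ = 0 := by
    intro p q
    rw [inner_def]
    have hinj : Function.Injective (fun k : ℕ => (k : ℤ)) := Nat.cast_injective
    have h2 : ∑' k : ℕ, (fun k : ℤ => sh p a k * sh q b k) (k : ℤ)
        = ∑' k : ℤ, sh p a k * sh q b k := by
      apply hinj.tsum_eq (f := fun k : ℤ => sh p a k * sh q b k)
      intro x hx
      by_contra h
      apply hx
      have hx0 : x < 0 := by
        by_contra h'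
        apply h
        exact ⟨x.toNat, by simp; omega⟩
      show sh p a x * sh q b x = 0
      rw [sh_apply, haf, ext0_neg]
      · simp
      · omega
    rw [← h2, ← hcon p q]
    congr 1
    ext k
    show sh p a k * sh q b k = _
    rw [sh_apply, sh_apply, haf, hbf, ps_eq_ext0, ps_eq_ext0]
  have hbz : b = 0 := by
    apply eq_zero_of_cross a b
    · intro k hk
      rw [haf, ext0_neg _ _ hk]
    · rw [haf]
      have := ext0_natCast α 0
      simp only [Nat.cast_zero] at this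
      rw [this]
      exact h0
    · intro n
      rcases le_total 0 n with hn | hn
      · obtain ⟨m, rfl⟩ := Int.eq_ofNat_of_zero_le hn
        have := key m 0
        simpa [sh_zero] using this
      · obtain ⟨m, hm⟩ := Int.eq_ofNat_of_zero_le (neg_nonneg.mpr hn)
        have := key 0 m
        rw [← inner_sh (m : ℤ), ← sh_add]
        have h3 : (m : ℤ) + n = 0 := by omega
        rw [h3, sh_zero]
        simpa [sh_zero] using this
  apply h1
  have := ext0_natCast β 0
  rw [← this, ← hbf, hbz]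
  rfl

end Pool.Agent.H263R3.H2
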