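import Mathlib

set_option autoImplicit false
open scoped ENNReal Topology
open Filter MeasureTheory

namespace Pool.Agent.H263R3.Stat

variable {X : Type*} [MeasurableSpace X] [TopologicalSpace X] [PolishSpace X] [BorelSpace X]

/-- Cesaro averages of the images of a probability measure under a map. -/
noncomputable def ces {Y : Type*} [MeasurableSpace Y] (S : Y → Y) (η : Measure Y) (N : ℕ) :
    Measure Y := ((N : ℝ≥0∞) + 1)⁻¹ • ∑ n ∈ Finset.range (N + 1), η.map (S^[n])

lemma ces_prob {Y : Type*} [MeasurableSpace Y] (S : Y → Y) (hS : Measurable S) (η : Measure Y)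
    [IsProbabilityMeasure η] (N : ℕ) : IsProbabilityMeasure (ces S η N) := by
  constructor
  unfold ces
  rw [Measure.smul_apply, Measure.finsetSum_apply]
  have h : ∀ n ∈ Finset.range (N + 1), (η.map (S^[n])) Set.univ = 1 := by
    intro n _
    rw [Measure.map_apply (hS.iterate n) MeasurableSet.univ]
    simp
  rw [Finset.sum_congr rfl h]
  simp only [Finset.sum_const, Finset.card_range, smul_eq_mul, nsmul_eq_mul, mul_one, Nat.cast_add,
    Nat.cast_one]
  apply ENNReal.inv_mul_cancel
  · simp
  · exact ENNReal.add_ne_top.mpr ⟨ENNReal.natCast_ne_top N, ENNReal.one_ne_top⟩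

lemma integral_ces {Y : Type*} [MeasurableSpace Y] (S : Y → Y) (hS : Measurable S) (η : Measure Y)
    [IsProbabilityMeasure η] (N : ℕ) (F : Y → ℝ) (hF : StronglyMeasurable F) (C : ℝ)
    (hC : ∀ y, |F y| ≤ C) :
    ∫ y, F y ∂(ces S η N) = ((N : ℝ) + 1)⁻¹ * ∑ n ∈ Finset.range (N + 1), ∫ y, F (S^[n] y) ∂η := by
  unfold ces
  rw [integral_smul_measure]
  rw [integral_finsetSum_measure]
  · have h1 : (((N : ℝ≥0∞) + 1)⁻¹).toReal = ((N : ℝ) + 1)⁻¹ := by
      rw [ENNReal.toReal_inv, ENNReal.toReal_add (ENNReal.natCast_ne_top N) ENNReal.one_ne_top]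
      simp
    rw [h1, smul_eq_mul]
    have h2 : ∀ n ∈ Finset.range (N + 1), ∫ y, F y ∂(η.map (S^[n])) = ∫ y, F (S^[n] y) ∂η := by
      intro n _
      rw [integral_map (hS.iterate n).aemeasurable hF.aestronglyMeasurable]
    rw [Finset.sum_congr rfl h2]
  · intro n _
    have : IsProbabilityMeasure (η.map (S^[n])) := Measure.isProbabilityMeasure_map (hS.iterate n).aemeasurable
    apply Integrable.of_bound hF.aestronglyMeasurable C
    filter_upwards with y
    rw [Real.norm_eq_abs]
    exact hC y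

/-- From couplings whose shifted copies have controlled correlation, get a stationary joining. -/
theorem exists_stationary (μ ν : Measure X) [IsProbabilityMeasure μ] [IsProbabilityMeasure ν]
    (T : X → X) (hT : Continuous T) (hμ : MeasurePreserving T μ μ) (hν : MeasurePreserving T ν ν)
    (η : ℕ → Measure (X × X)) (hη : ∀ N, IsProbabilityMeasure (η N))
    (h1 : ∀ N, (η N).map Prod.fst = μ) (h2 : ∀ N, (η N).map Prod.snd = ν)
    (F : BoundedContinuousFunction (X × X) ℝ) (c e : ℝ) (eN : ℕ → ℝ)
    (heN : Tendsto eN atTop (𝓝 e))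
    (h : ∀ N, ∀ n ≤ N, |∫ p, F ((Prod.map T T)^[n] p) ∂(η N) - c| ≤ eN N) :
    ∃ ξ : Measure (X × X), IsProbabilityMeasure ξ ∧ MeasurePreserving (Prod.map T T) ξ ξ ∧
      ξ.map Prod.fst = μ ∧ ξ.map Prod.snd = ν ∧ |∫ p, F p ∂ξ - c| ≤ e := by
  set S : X × X → X × X := Prod.map T T with hS
  have hSc : Continuous S := hT.prodMap hT
  have hSm : Measurable S := hSc.measurable
  have hprob : ∀ N, IsProbabilityMeasure (ces S (η N) N) := fun N => ces_prob S hSm (η N) N
  set ζ : ℕ → ProbabilityMeasure (X × X) := fun N => ⟨ces S (η N) N, hprob N⟩ with hζ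
  -- marginals
  have hfst_iter : ∀ n : ℕ, (Prod.fst : X × X → X) ∘ S^[n] = T^[n] ∘ Prod.fst := by
    intro n
    have : S^[n] = Prod.map (T^[n]) (T^[n]) := by rw [hS, Prod.map_iterate]
    rw [this]; rfl
  have hsnd_iter : ∀ n : ℕ, (Prod.snd : X × X → X) ∘ S^[n] = T^[n] ∘ Prod.snd := by
    intro n
    have : S^[n] = Prod.map (T^[n]) (T^[n]) := by rw [hS, Prod.map_iterate]
    rw [this]; rfl
  have hcard : ∀ N : ℕ, ((N : ℝ≥0∞) + 1)⁻¹ * ((N : ℝ≥0∞) + 1) = 1 := by
    intro N
    apply ENNReal.inv_mul_cancel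
    · simp
    · exact ENNReal.add_ne_top.mpr ⟨ENNReal.natCast_ne_top N, ENNReal.one_ne_top⟩
  have hfst : ∀ N, (ces S (η N) N).map Prod.fst = μ := by
    intro N
    ext s hs
    unfold ces
    rw [Measure.map_smul, Measure.smul_apply, Measure.map_apply measurable_fst hs,
      Measure.finsetSum_apply]
    have hh : ∀ n ∈ Finset.range (N + 1), ((η N).map (S^[n])) (Prod.fst ⁻¹' s) = μ s := by
      intro n _
      rw [Measure.map_apply (hSm.iterate n) (measurable_fst hs), ← Set.preimage_comp, hfst_iter,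
        Set.preimage_comp, ← Measure.map_apply measurable_fst (hμ.measurable.iterate n hs), h1 N,
        (hμ.iterate n).measure_preimage hs.nullMeasurableSet]
    rw [Finset.sum_congr rfl hh]
    simp only [Finset.sum_const, Finset.card_range, smul_eq_mul, nsmul_eq_mul, Nat.cast_add,
      Nat.cast_one]
    rw [← mul_assoc, hcard, one_mul]
  have hsnd : ∀ N, (ces S (η N) N).map Prod.snd = ν := by
    intro N
    ext s hs
    unfold ces
    rw [Measure.map_smul, Measure.smul_apply, Measure.map_apply measurable_snd hs,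
      Measure.finsetSum_apply]
    have hh : ∀ n ∈ Finset.range (N + 1), ((η N).map (S^[n])) (Prod.snd ⁻¹' s) = ν s := by
      intro n _
      rw [Measure.map_apply (hSm.iterate n) (measurable_snd hs), ← Set.preimage_comp, hsnd_iter,
        Set.preimage_comp, ← Measure.map_apply measurable_snd (hν.measurable.iterate n hs), h2 N,
        (hν.iterate n).measure_preimage hs.nullMeasurableSet]
    rw [Finset.sum_congr rfl hh]
    simp only [Finset.sum_const, Finset.card_range, smul_eq_mul, nsmul_eq_mul, Nat.cast_add,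
      Nat.cast_one]
    rw [← mul_assoc, hcard, one_mul]
  -- tightness
  have htight : IsTightMeasureSet {((κ : ProbabilityMeasure (X × X)) : Measure (X × X)) | κ ∈ Set.range ζ} := by
    apply IsTightMeasureSet.prodMk
    · apply (isTightMeasureSet_singleton (μ := μ)).subset
      rintro _ ⟨_, ⟨κ, ⟨N, rfl⟩, rfl⟩, rfl⟩
      exact hfst N
    · apply (isTightMeasureSet_singleton (μ := ν)).subset
      rintro _ ⟨_, ⟨κ, ⟨N, rfl⟩, rfl⟩, rfl⟩
      exact hsnd N
  have hcomp : IsCompact (closure (Set.range ζ)) := isCompact_closure_of_isTightMeasureSet htight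
  -- limit along an ultrafilter
  obtain ⟨ξ, -, hξ⟩ := hcomp.ultrafilter_le_nhds ((Filter.hyperfilter ℕ).map ζ) (by
    rw [Filter.le_principal_iff]
    show closure (Set.range ζ) ∈ Ultrafilter.map ζ (hyperfilter ℕ)
    rw [Ultrafilter.mem_map]
    apply Filter.mem_of_superset Filter.univ_mem
    intro n _
    exact subset_closure ⟨n, rfl⟩)
  have hle : ((hyperfilter ℕ : Ultrafilter ℕ) : Filter ℕ) ≤ atTop := by
    rw [← Nat.cofinite_eq_atTop]
    exact hyperfilter_le_cofinite
  have hlim : Tendsto ζ ((hyperfilter ℕ : Ultrafilter ℕ) : Filter ℕ) (𝓝 ξ) := hξ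
  have hint : ∀ G : BoundedContinuousFunction (X × X) ℝ,
      Tendsto (fun N => ∫ p, G p ∂(ces S (η N) N)) ((hyperfilter ℕ : Ultrafilter ℕ) : Filter ℕ)
        (𝓝 (∫ p, G p ∂(ξ : Measure (X × X)))) := by
    intro G
    exact (ProbabilityMeasure.tendsto_iff_forall_integral_tendsto.mp hlim) G
  have hGb : ∀ G : BoundedContinuousFunction (X × X) ℝ, ∀ y, |G y| ≤ ‖G‖ := by
    intro G y
    rw [← Real.norm_eq_abs]
    exact G.norm_coe_le_norm y
  refine ⟨(ξ : Measure (X × X)), inferInstance, ⟨hSm, ?_⟩, ?_, ?_, ?_⟩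
  · -- invariance
    have : IsProbabilityMeasure ((ξ : Measure (X × X)).map S) :=
      Measure.isProbabilityMeasure_map hSm.aemeasurable
    apply ext_of_forall_integral_eq_of_IsFiniteMeasure
    intro G
    rw [integral_map hSm.aemeasurable G.continuous.stronglyMeasurable.aestronglyMeasurable]
    set G' : BoundedContinuousFunction (X × X) ℝ := G.compContinuous ⟨S, hSc⟩ with hG'
    have hG'a : ∀ p, G' p = G (S p) := fun p => rfl
    have hdiff : Tendsto (fun N => ∫ p, G' p ∂(ces S (η N) N) - ∫ p, G p ∂(ces S (η N) N))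
        ((hyperfilter ℕ : Ultrafilter ℕ) : Filter ℕ) (𝓝 0) := by
      have hbound : ∀ N, ‖∫ p, G' p ∂(ces S (η N) N) - ∫ p, G p ∂(ces S (η N) N)‖
          ≤ (2 * ‖G‖) * ((N : ℝ) + 1)⁻¹ := by
        intro N
        rw [integral_ces S hSm (η N) N G' G'.continuous.stronglyMeasurable ‖G'‖ (hGb G'),
          integral_ces S hSm (η N) N G G.continuous.stronglyMeasurable ‖G‖ (hGb G), ← mul_sub]
        have h3 : ∀ n, ∫ y, G' (S^[n] y) ∂(η N) = ∫ y, G (S^[n + 1] y) ∂(η N) := by
          intro n
          simp only [hG'a, Function.iterate_succ_apply']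
        simp only [h3]
        rw [← Finset.sum_sub_distrib, Finset.sum_range_sub (fun n => ∫ y, G (S^[n] y) ∂(η N))]
        rw [norm_mul, mul_comm]
        have h4 : ‖((N : ℝ) + 1)⁻¹‖ = ((N : ℝ) + 1)⁻¹ := by
          rw [Real.norm_eq_abs, abs_of_nonneg]
          positivity
        rw [h4]
        apply mul_le_mul_of_nonneg_right _ (by positivity)
        have h5 : ∀ n, ‖∫ y, G (S^[n] y) ∂(η N)‖ ≤ ‖G‖ := by
          intro n
          have := norm_integral_le_of_norm_le_const (μ := η N) (f := fun y => G (S^[n] y)) (C := ‖G‖)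
            (Filter.Eventually.of_forall (fun y => G.norm_coe_le_norm _))
          simpa using this
        calc _ ≤ ‖∫ y, G (S^[N + 1] y) ∂(η N)‖ + ‖∫ y, G (S^[0] y) ∂(η N)‖ := norm_sub_le _ _
          _ ≤ ‖G‖ + ‖G‖ := add_le_add (h5 _) (h5 _)
          _ = 2 * ‖G‖ := by ring
      have h6 : Tendsto (fun N : ℕ => (2 * ‖G‖) * ((N : ℝ) + 1)⁻¹) atTop (𝓝 0) := by
        have := (tendsto_one_div_add_atTop_nhds_zero_nat (𝕜 := ℝ)).const_mul (2 * ‖G‖)
        simpa [one_div] using this
      exact squeeze_zero_norm hbound (h6.mono_left hle)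
    have hd2 := (hint G').sub (hint G)
    have := tendsto_nhds_unique hdiff hd2
    simp only [hG'a] at this
    linarith
  · -- first marginal
    have : IsProbabilityMeasure ((ξ : Measure (X × X)).map Prod.fst) :=
      Measure.isProbabilityMeasure_map measurable_fst.aemeasurable
    apply ext_of_forall_integral_eq_of_IsFiniteMeasure
    intro g
    rw [integral_map measurable_fst.aemeasurable g.continuous.stronglyMeasurable.aestronglyMeasurable]
    set G : BoundedContinuousFunction (X × X) ℝ := g.compContinuous ⟨Prod.fst, continuous_fst⟩ with hG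
    have hGa : ∀ p, G p = g p.1 := fun p => rfl
    have h3 : ∀ N, ∫ p, G p ∂(ces S (η N) N) = ∫ x, g x ∂μ := by
      intro N
      have h4 : ∫ x, g x ∂((ces S (η N) N).map Prod.fst) = ∫ p, g p.1 ∂(ces S (η N) N) :=
        integral_map measurable_fst.aemeasurable g.continuous.stronglyMeasurable.aestronglyMeasurable
      rw [hfst N] at h4
      rw [h4]
      rfl
    have h5 := hint G
    simp only [h3] at h5
    have := tendsto_nhds_unique h5 tendsto_const_nhds
    rw [← this]
    rfl
  · -- second marginal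
    have : IsProbabilityMeasure ((ξ : Measure (X × X)).map Prod.snd) :=
      Measure.isProbabilityMeasure_map measurable_snd.aemeasurable
    apply ext_of_forall_integral_eq_of_IsFiniteMeasure
    intro g
    rw [integral_map measurable_snd.aemeasurable g.continuous.stronglyMeasurable.aestronglyMeasurable]
    set G : BoundedContinuousFunction (X × X) ℝ := g.compContinuous ⟨Prod.snd, continuous_snd⟩ with hG
    have hGa : ∀ p, G p = g p.2 := fun p => rfl
    have h3 : ∀ N, ∫ p, G p ∂(ces S (η N) N) = ∫ x, g x ∂ν := by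
      intro N
      have h4 : ∫ x, g x ∂((ces S (η N) N).map Prod.snd) = ∫ p, g p.2 ∂(ces S (η N) N) :=
        integral_map measurable_snd.aemeasurable g.continuous.stronglyMeasurable.aestronglyMeasurable
      rw [hsnd N] at h4
      rw [h4]
      rfl
    have h5 := hint G
    simp only [h3] at h5
    have := tendsto_nhds_unique h5 tendsto_const_nhds
    rw [← this]
    rfl
  · -- correlation
    have h3 : ∀ N, |∫ p, F p ∂(ces S (η N) N) - c| ≤ eN N := by
      intro N
      rw [integral_ces S hSm (η N) N F F.continuous.stronglyMeasurable ‖F‖ (hGb F)]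
      have hN : (0 : ℝ) < (N : ℝ) + 1 := by positivity
      have h4 : ((N : ℝ) + 1)⁻¹ * ∑ n ∈ Finset.range (N + 1), ∫ y, F (S^[n] y) ∂(η N) - c
          = ((N : ℝ) + 1)⁻¹ * ∑ n ∈ Finset.range (N + 1), (∫ y, F (S^[n] y) ∂(η N) - c) := by
        rw [Finset.sum_sub_distrib]
        simp only [Finset.sum_const, Finset.card_range, nsmul_eq_mul, Nat.cast_add, Nat.cast_one]
        field_simp
      rw [h4, abs_mul, abs_of_nonneg (by positivity : (0 : ℝ) ≤ ((N : ℝ) + 1)⁻¹)]
      have h5 : |∑ n ∈ Finset.range (N + 1), (∫ y, F (S^[n] y) ∂(η N) - c)|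
          ≤ ((N : ℝ) + 1) * eN N := by
        calc _ ≤ ∑ n ∈ Finset.range (N + 1), |∫ y, F (S^[n] y) ∂(η N) - c| :=
              Finset.abs_sum_le_sum_abs _ _
          _ ≤ ∑ n ∈ Finset.range (N + 1), eN N := by
              apply Finset.sum_le_sum
              intro n hn
              exact h N n (by simpa [Nat.lt_succ_iff] using Finset.mem_range.mp hn)
          _ = ((N : ℝ) + 1) * eN N := by simp
      calc _ ≤ ((N : ℝ) + 1)⁻¹ * (((N : ℝ) + 1) * eN N) :=
            mul_le_mul_of_nonneg_left h5 (by positivity)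
        _ = eN N := by field_simp
    have h6 : Tendsto (fun N => |∫ p, F p ∂(ces S (η N) N) - c|)
        ((hyperfilter ℕ : Ultrafilter ℕ) : Filter ℕ) (𝓝 (|∫ p, F p ∂(ξ : Measure (X × X)) - c|)) :=
      ((hint F).sub_const c).abs
    exact le_of_tendsto_of_tendsto h6 (heN.mono_left hle) (Filter.Eventually.of_forall h3)

end Pool.Agent.H263R3.Stat
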