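import Mathlib
import Pool.Agent.H263R3.H2
import Pool.Agent.H263R3.Stat
import Pool.Agent.H263R3.Coupling
import Pool.Agent.H263R3.Ent

set_option autoImplicit false
open scoped ENNReal Topology
open Filter MeasureTheory

namespace Pool.Agent.H263R3.Join

open Coupling Ent

/-- Bessel bound for reversed martingale differences -/
lemma bessel {Ω : Type*} {m0 : MeasurableSpace Ω} {μ : Measure Ω} [IsProbabilityMeasure μ]
    {F : ℕ → MeasurableSpace Ω} {u : ℕ → Ω → ℝ} (hu : RMD μ F u) :
    ∀ (M s : ℕ) (φ : Ω → ℝ), MemLp φ 2 μ →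
      ∑ k ∈ Finset.range M, (∫ x, φ x * u (s + k) x ∂μ) ^ 2 ≤ ∫ x, φ x ^ 2 ∂μ := by
  intro M
  induction M with
  | zero =>
    intro s φ hφ
    simp only [Finset.range_zero, Finset.sum_empty]
    exact integral_nonneg (fun x => sq_nonneg _)
  | succ M ih =>
    intro s φ hφ
    have hum : Measurable[m0] (u s) := (hu.meas s).mono (hu.le s) le_rfl
    have hφu := memLp_mul_bdd hφ hum.aestronglyMeasurable (hu.bdd s)
    set A := μ[φ | F (s + 1)] with hA
    set B := μ[fun x => φ x * u s x | F (s + 1)] with hB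
    have hA2 : MemLp A 2 μ := hφ.condExp (by norm_num)
    have hB2 : MemLp B 2 μ := hφu.condExp (by norm_num)
    have hsp := split_le (hu.le (s + 1)) φ (u s) hφ hum (hu.bdd s) (hu.ce s)
    rw [← hA, ← hB] at hsp
    have h1 := ih (s + 1) A hA2
    have eAk : ∀ k, ∫ x, A x * u (s + 1 + k) x ∂μ = ∫ x, φ x * u (s + 1 + k) x ∂μ := by
      intro k
      have hmk : Measurable[F (s + 1)] (u (s + 1 + k)) :=
        (hu.meas (s + 1 + k)).mono (hu.anti_add (s + 1) k) le_rfl
      apply integral_condExp_mul (hu.le (s + 1)) φ _ (hφ.integrable (by norm_num))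
        hmk.stronglyMeasurable
      exact (memLp_mul_bdd hφ (hmk.mono (hu.le _) le_rfl).aestronglyMeasurable
        (hu.bdd _)).integrable (by norm_num)
    simp only [eAk] at h1
    have eB : ∫ x, B x ∂μ = ∫ x, φ x * u s x ∂μ := integral_condExp (hu.le _)
    have h2 := sq_integral_le B hB2
    rw [eB] at h2
    rw [Finset.sum_range_succ']
    have h3 : ∑ k ∈ Finset.range M, (∫ x, φ x * u (s + (k + 1)) x ∂μ) ^ 2
        = ∑ k ∈ Finset.range M, (∫ x, φ x * u (s + 1 + k) x ∂μ) ^ 2 := by
      apply Finset.sum_congr rfl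
      intro k _
      have : s + (k + 1) = s + 1 + k := by ring
      rw [this]
    rw [h3, add_zero]
    linarith

variable {m : ℕ} {μ : Measure (ℕ → ℕ)} [IsProbabilityMeasure μ]

/-- clipping to the unit interval -/
noncomputable def clip (t : ℝ) : ℝ := max 0 (min 1 t)

lemma clip_mem (t : ℝ) : 0 ≤ clip t ∧ clip t ≤ 1 := by
  unfold clip
  constructor
  · exact le_max_left _ _
  · exact max_le zero_le_one (min_le_left _ _)

lemma clip_eq {t : ℝ} (h0 : 0 ≤ t) (h1 : t ≤ 1) : clip t = t := by
  unfold clip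
  rw [min_eq_right h1, max_eq_right h0]

lemma clip_meas : Measurable clip := by
  unfold clip
  fun_prop

/-- the innovation -/
noncomputable def inn (μ : Measure (ℕ → ℕ)) (f : ℕ → Fin m) (a : Fin m) (x : ℕ → ℕ) : ℝ :=
  ind f a x - clip ((μ[ind f a | (GG f).comap T]) x)

lemma ind_mem (f : ℕ → Fin m) (a : Fin m) (x : ℕ → ℕ) : 0 ≤ ind f a x ∧ ind f a x ≤ 1 := by
  unfold ind
  split_ifs <;> norm_num

lemma comap_T_le (f : ℕ → Fin m) : (GG f).comap T ≤ GG f := by
  rw [comap_T_GG]
  apply Measurable.comap_le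
  have h1 : Measurable[GG f] (cod f) := comap_measurable _
  have h2 : Measurable (fun (y : ℕ → Fin m) (n : ℕ) => y (n + 1)) := by
    apply measurable_pi_lambda
    intro n
    exact measurable_pi_apply (n + 1)
  exact h2.comp h1

lemma comap_T_le' (f : ℕ → Fin m) :
    (GG f).comap T ≤ (MeasurableSpace.pi : MeasurableSpace (ℕ → ℕ)) :=
  (comap_T_le f).trans (GG_le f)

lemma inn_meas (f : ℕ → Fin m) (a : Fin m) : Measurable[GG f] (inn μ f a) := by
  have h1 : Measurable[(GG f).comap T] (μ[ind f a | (GG f).comap T]) :=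
    stronglyMeasurable_condExp.measurable
  have h2 : Measurable[GG f] (μ[ind f a | (GG f).comap T]) := h1.mono (comap_T_le f) le_rfl
  exact (ind_meas f a).sub (clip_meas.comp h2)

lemma inn_bdd (f : ℕ → Fin m) (a : Fin m) (x : ℕ → ℕ) : |inn μ f a x| ≤ 1 := by
  unfold inn
  have h1 := ind_mem f a x
  have h2 := clip_mem ((μ[ind f a | (GG f).comap T]) x)
  rw [abs_le]
  constructor <;> linarith [h1.1, h1.2, h2.1, h2.2]

lemma ce_mem (f : ℕ → Fin m) (a : Fin m) :
    ∀ᵐ x ∂μ, clip ((μ[ind f a | (GG f).comap T]) x) = (μ[ind f a | (GG f).comap T]) x := by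
  have h0 : (0 : (ℕ → ℕ) → ℝ) ≤ᵐ[μ] μ[ind f a | (GG f).comap T] := by
    apply condExp_nonneg
    filter_upwards with x
    exact (ind_mem f a x).1
  have h1 : μ[ind f a | (GG f).comap T] ≤ᵐ[μ] μ[(fun _ => (1 : ℝ)) | (GG f).comap T] := by
    apply condExp_mono (ind_integrable f a) (integrable_const _)
    filter_upwards with x
    exact (ind_mem f a x).2
  rw [condExp_const (comap_T_le' f)] at h1
  filter_upwards [h0, h1] with x hx0 hx1
  exact clip_eq hx0 hx1

lemma inn_ae (f : ℕ → Fin m) (a : Fin m) :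
    inn μ f a =ᵐ[μ] ind f a - μ[ind f a | (GG f).comap T] := by
  filter_upwards [ce_mem (μ := μ) f a] with x hx
  unfold inn
  rw [hx]
  rfl

lemma inn_integrable (f : ℕ → Fin m) (a : Fin m) : Integrable (inn μ f a) μ := by
  apply Integrable.of_bound ((inn_meas f a).mono (GG_le f) le_rfl).aestronglyMeasurable 1
  filter_upwards with x
  rw [Real.norm_eq_abs]
  exact inn_bdd f a x

lemma inn_ce (f : ℕ → Fin m) (a : Fin m) : μ[inn μ f a | (GG f).comap T] =ᵐ[μ] 0 := by
  have h1 : μ[inn μ f a | (GG f).comap T]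
      =ᵐ[μ] μ[ind f a - μ[ind f a | (GG f).comap T] | (GG f).comap T] :=
    condExp_congr_ae (inn_ae f a)
  have h2 := condExp_sub (μ := μ) (ind_integrable f a)
    (integrable_condExp (f := ind f a) (m := (GG f).comap T)) ((GG f).comap T)
  have h3 : μ[μ[ind f a | (GG f).comap T] | (GG f).comap T] = μ[ind f a | (GG f).comap T] :=
    condExp_of_stronglyMeasurable (comap_T_le' f) stronglyMeasurable_condExp integrable_condExp
  rw [h3] at h2
  filter_upwards [h1, h2] with x hx1 hx2
  rw [hx1, hx2]
  simp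

lemma iterate_comp (k : ℕ) : (T^[k + 1]) = T ∘ T^[k] := by
  ext x
  rw [Function.iterate_succ_apply']
  rfl

/-- the innovations form reversed martingale differences -/
lemma rmd (hμ : MeasurePreserving T μ μ) (f : ℕ → Fin m) (a : Fin m) :
    RMD μ (fun k => (GG f).comap (T^[k])) (fun k x => inn μ f a (T^[k] x)) where
  le k := by
    rintro s ⟨s', hs', rfl⟩
    exact (hμ.measurable.iterate k) (GG_le f _ hs')
  anti k := by
    show (GG f).comap (T^[k + 1]) ≤ (GG f).comap (T^[k])
    rw [iterate_comp, ← MeasurableSpace.comap_comp]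
    exact MeasurableSpace.comap_mono (comap_T_le f)
  meas k := by
    have h1 : @Measurable _ _ ((GG f).comap (T^[k])) (GG f) (T^[k]) := comap_measurable _
    exact (inn_meas f a).comp h1
  bdd k x := inn_bdd f a _
  ce k := by
    have hle : (GG f).comap (T^[k + 1]) ≤ (MeasurableSpace.pi : MeasurableSpace (ℕ → ℕ)) := by
      rintro s ⟨s', hs', rfl⟩
      exact (hμ.measurable.iterate (k + 1)) (GG_le f _ hs')
    have hint : Integrable (fun x => inn μ f a (T^[k] x)) μ :=
      (hμ.iterate k).integrable_comp_of_integrable (inn_integrable f a)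
    symm
    apply ae_eq_condExp_of_forall_setIntegral_eq hle hint
    · intro s _ _
      exact integrableOn_zero
    · intro s hs0 _
      have hs : MeasurableSet[(GG f).comap (T^[k + 1])] s := hs0
      rw [iterate_comp, ← MeasurableSpace.comap_comp] at hs
      obtain ⟨s', hs', rfl⟩ := hs
      have hs'm : MeasurableSet s' := comap_T_le' f _ hs'
      have h2 : ∫ x in (T^[k]) ⁻¹' s', inn μ f a (T^[k] x) ∂μ = ∫ x in s', inn μ f a x ∂μ := by
        rw [← integral_indicator ((hμ.measurable.iterate k) hs'm), ← integral_indicator hs'm]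
        have h3 : ((T^[k]) ⁻¹' s').indicator (fun x => inn μ f a (T^[k] x))
            = fun x => (s'.indicator (inn μ f a)) (T^[k] x) := by
          ext x
          simp only [Set.indicator]
          rfl
        rw [h3]
        have h4 := integral_map (μ := μ) (hμ.measurable.iterate k).aemeasurable
          (f := s'.indicator (inn μ f a))
          ((((inn_meas f a).mono (GG_le f) le_rfl).indicator hs'm).aestronglyMeasurable)
        rw [(hμ.iterate k).map_eq] at h4
        exact h4.symm
      rw [h2, ← setIntegral_condExp (comap_T_le' f) (inn_integrable f a) hs']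
      rw [setIntegral_congr_ae hs'm (g := fun _ => (0 : ℝ))]
      · simp
      · filter_upwards [inn_ce (μ := μ) f a] with x hx _
        exact hx
    · exact stronglyMeasurable_zero.aestronglyMeasurable

lemma ind_memLp (f : ℕ → Fin m) (a : Fin m) : MemLp (ind f a) 2 μ := by
  apply MemLp.of_bound ((ind_meas f a).mono (GG_le f) le_rfl).aestronglyMeasurable 1
  filter_upwards with x
  rw [Real.norm_eq_abs, abs_of_nonneg (ind_mem f a x).1]
  exact (ind_mem f a x).2

lemma inn_memLp (f : ℕ → Fin m) (a : Fin m) : MemLp (inn μ f a) 2 μ := by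
  apply MemLp.of_bound ((inn_meas f a).mono (GG_le f) le_rfl).aestronglyMeasurable 1
  filter_upwards with x
  rw [Real.norm_eq_abs]
  exact inn_bdd f a x

/-- response sequence -/
noncomputable def resp (μ : Measure (ℕ → ℕ)) (f : ℕ → Fin m) (a : Fin m) (k : ℕ) : ℝ :=
  ∫ x, ind f a x * inn μ f a (T^[k] x) ∂μ

lemma resp_zero_ne (f : ℕ → Fin m) (a : Fin m)
    (ha : ¬ (μ[ind f a | (GG f).comap T] =ᵐ[μ] ind f a)) : resp μ f a 0 ≠ 0 := by
  intro h0
  apply ha
  have hA : MemLp (μ[ind f a | (GG f).comap T]) 2 μ := (ind_memLp f a).condExp (by norm_num)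
  have hu := inn_memLp (μ := μ) f a
  have h1 : ∫ x, inn μ f a x ^ 2 ∂μ = 0 := by
    have e1 : ∫ x, (μ[ind f a | (GG f).comap T]) x * inn μ f a x ∂μ = 0 := by
      have h2 := integral_condExp_mul (μ := μ) (comap_T_le' f) (inn μ f a)
        (μ[ind f a | (GG f).comap T]) (inn_integrable f a) stronglyMeasurable_condExp
        (integrable_mul_of_two hu hA)
      have h3 : ∫ x, (μ[inn μ f a | (GG f).comap T]) x * (μ[ind f a | (GG f).comap T]) x ∂μ = 0 := by
        rw [integral_congr_ae (g := fun _ => (0 : ℝ))]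
        · simp
        · filter_upwards [inn_ce (μ := μ) f a] with x hx
          rw [hx]; simp
      rw [h3] at h2
      rw [h2]
      congr 1
      ext x
      ring
    have e2 : ∫ x, inn μ f a x ^ 2 ∂μ = ∫ x, (ind f a x * inn μ f a x
        - (μ[ind f a | (GG f).comap T]) x * inn μ f a x) ∂μ := by
      apply integral_congr_ae
      filter_upwards [inn_ae (μ := μ) f a] with x hx
      rw [Pi.sub_apply] at hx
      rw [← sub_mul, ← hx]
      ring
    have h0' : ∫ x, ind f a x * inn μ f a x ∂μ = 0 := h0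
    rw [e2, integral_sub (integrable_mul_of_two (ind_memLp f a) hu) (integrable_mul_of_two hA hu),
      e1, h0']
    ring
  have h2 : (fun x => inn μ f a x ^ 2) =ᵐ[μ] 0 := by
    rwa [integral_eq_zero_iff_of_nonneg (fun x => sq_nonneg _) hu.integrable_sq] at h1
  filter_upwards [h2, inn_ae (μ := μ) f a] with x hx1 hx2
  have h3 : inn μ f a x = 0 := by
    have : inn μ f a x ^ 2 = 0 := hx1
    exact pow_eq_zero_iff (by norm_num) |>.mp this
  rw [h3, Pi.sub_apply] at hx2
  linarith

lemma resp_summable (hμ : MeasurePreserving T μ μ) (f : ℕ → Fin m) (a : Fin m) :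
    Summable (fun k => resp μ f a k ^ 2) := by
  apply summable_of_sum_range_le (c := ∫ x, ind f a x ^ 2 ∂μ)
  · intro n; exact sq_nonneg _
  · intro n
    have := bessel (rmd hμ f a) n 0 (ind f a) (ind_memLp f a)
    simpa [resp] using this

/-- correlations of the shifted indicator with the innovations -/
lemma resp_shift (hμ : MeasurePreserving T μ μ) (f : ℕ → Fin m) (a : Fin m) (p k : ℕ) :
    ∫ x, ind f a (T^[p] x) * inn μ f a (T^[k] x) ∂μ = H2.ps p (resp μ f a) k := by
  unfold H2.ps
  split_ifs with h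
  · obtain ⟨j, rfl⟩ := Nat.exists_eq_add_of_le h
    have h1 : ∀ x, inn μ f a (T^[p + j] x) = inn μ f a (T^[j] (T^[p] x)) := by
      intro x
      rw [add_comm, Function.iterate_add_apply]
    simp only [h1]
    have hm : Measurable (fun x => ind f a x * inn μ f a (T^[j] x)) := by
      apply Measurable.mul ((ind_meas f a).mono (GG_le f) le_rfl)
      exact ((inn_meas f a).mono (GG_le f) le_rfl).comp (hμ.measurable.iterate j)
    have h4 := integral_map (μ := μ) (hμ.measurable.iterate p).aemeasurable
      (f := fun x => ind f a x * inn μ f a (T^[j] x)) hm.aestronglyMeasurable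
    rw [(hμ.iterate p).map_eq] at h4
    rw [← h4]
    unfold resp
    congr 2
    simp
  · push Not at h
    have hr := rmd hμ f a
    have hip : Integrable (fun x => inn μ f a (T^[k] x)) μ :=
      (hμ.iterate k).integrable_comp_of_integrable (inn_integrable f a)
    have hmeas : Measurable[(GG f).comap (T^[k + 1])] (fun x => ind f a (T^[p] x)) := by
      have h1 : @Measurable _ _ ((GG f).comap (T^[p])) (GG f) (T^[p]) := comap_measurable _
      have h2 := (ind_meas f a).comp h1
      have h3 : (GG f).comap (T^[p]) ≤ (GG f).comap (T^[k + 1]) := by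
        obtain ⟨j, rfl⟩ := Nat.exists_eq_add_of_le (Nat.succ_le_of_lt h)
        exact hr.anti_add (k + 1) j
      exact h2.mono h3 le_rfl
    have hmp : Measurable (fun x => ind f a (T^[p] x)) :=
      ((ind_meas f a).mono (GG_le f) le_rfl).comp (hμ.measurable.iterate p)
    have hprod : Integrable (fun x => inn μ f a (T^[k] x) * ind f a (T^[p] x)) μ := by
      apply hip.mul_bdd (c := 1) hmp.aestronglyMeasurable
      filter_upwards with x
      rw [Real.norm_eq_abs, abs_of_nonneg (ind_mem f a _).1]
      exact (ind_mem f a _).2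
    have h5 := integral_condExp_mul (hr.le (k + 1)) (fun x => inn μ f a (T^[k] x))
      (fun x => ind f a (T^[p] x)) hip hmeas.stronglyMeasurable hprod
    have h6 : ∫ x, (μ[(fun x => inn μ f a (T^[k] x)) | (GG f).comap (T^[k + 1])]) x
        * ind f a (T^[p] x) ∂μ = 0 := by
      rw [integral_congr_ae (g := fun _ => (0 : ℝ))]
      · simp
      · filter_upwards [hr.ce k] with x hx
        rw [hx]; simp
    have h7 : ∫ x, inn μ f a (T^[k] x) * ind f a (T^[p] x) ∂μ = 0 := by
      rw [← h5]
      exact h6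
    rw [← h7]
    congr 1
    ext x
    ring

end Pool.Agent.H263R3.Join
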