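import Mathlib
import Pool.Agent.H263R3.Join

set_option autoImplicit false
open scoped ENNReal Topology
open Filter MeasureTheory

namespace Pool.Agent.H263R3.Join

open Coupling Ent

variable {m m' : ℕ}

lemma ind_cont (f : ℕ → Fin m) (a : Fin m) : Continuous (ind f a) := by
  unfold ind
  have h1 : Continuous (fun n : ℕ => if f n = a then (1 : ℝ) else 0) := continuous_of_discreteTopology
  exact h1.comp (continuous_apply 0)

lemma T_iter_cont (p : ℕ) : Continuous (T^[p]) := T_cont.iterate p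

/-- the correlation function as a bounded continuous function -/
noncomputable def FF (f : ℕ → Fin m) (a : Fin m) (g : ℕ → Fin m') (b : Fin m') (p q : ℕ) :
    BoundedContinuousFunction ((ℕ → ℕ) × (ℕ → ℕ)) ℝ :=
  BoundedContinuousFunction.ofNormedAddCommGroup
    (fun z => ind f a (T^[p] z.1) * ind g b (T^[q] z.2))
    (((ind_cont f a).comp ((T_iter_cont p).comp continuous_fst)).mul
      ((ind_cont g b).comp ((T_iter_cont q).comp continuous_snd))) 1
    (by
      intro z
      rw [Real.norm_eq_abs, abs_mul, abs_of_nonneg (ind_mem f a _).1, abs_of_nonneg (ind_mem g b _).1]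
      exact mul_le_one₀ (ind_mem f a _).2 (ind_mem g b _).1 (ind_mem g b _).2)

lemma FF_apply (f : ℕ → Fin m) (a : Fin m) (g : ℕ → Fin m') (b : Fin m') (p q : ℕ)
    (z : (ℕ → ℕ) × (ℕ → ℕ)) :
    FF f a g b p q z = ind f a (T^[p] z.1) * ind g b (T^[q] z.2) := rfl

lemma sum_shift (s t : ℕ → ℝ) (p q n L : ℕ) :
    ∑ k ∈ Finset.range (n + L), H2.ps (p + n) s k * H2.ps (q + n) t k
      = ∑ k ∈ Finset.range L, H2.ps p s k * H2.ps q t k := by
  rw [Finset.sum_range_add]
  have h1 : ∑ k ∈ Finset.range n, H2.ps (p + n) s k * H2.ps (q + n) t k = 0 := by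
    apply Finset.sum_eq_zero
    intro k hk
    have : ¬ (p + n ≤ k) := by
      have := Finset.mem_range.mp hk
      omega
    simp [H2.ps, this]
  rw [h1, zero_add]
  apply Finset.sum_congr rfl
  intro k _
  have e1 : H2.ps (p + n) s (n + k) = H2.ps p s k := by
    unfold H2.ps
    have h2 : (p + n ≤ n + k) ↔ (p ≤ k) := by omega
    have h3 : n + k - (p + n) = k - p := by omega
    simp only [h2, h3]
  have e2 : H2.ps (q + n) t (n + k) = H2.ps q t k := by
    unfold H2.ps
    have h2 : (q + n ≤ n + k) ↔ (q ≤ k) := by omega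
    have h3 : n + k - (q + n) = k - q := by omega
    simp only [h2, h3]
  rw [e1, e2]

lemma ps_summable (s : ℕ → ℝ) (hs : Summable (fun k => s k ^ 2)) (p : ℕ) :
    Summable (fun k => H2.ps p s k ^ 2) := by
  rw [← summable_nat_add_iff p]
  have h : (fun n => H2.ps p s (n + p) ^ 2) = fun k => s k ^ 2 := by
    funext k
    unfold H2.ps
    rw [if_pos (Nat.le_add_left p k), Nat.add_sub_cancel]
  rw [h]
  exact hs

lemma prod_summable (s t : ℕ → ℝ) (hs : Summable (fun k => s k ^ 2))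
    (ht : Summable (fun k => t k ^ 2)) (p q : ℕ) :
    Summable (fun k => |H2.ps p s k * H2.ps q t k|) := by
  apply Summable.of_nonneg_of_le (fun k => abs_nonneg _) (fun k => ?_)
    ((ps_summable s hs p).add (ps_summable t ht q))
  rw [abs_le]
  constructor
  · nlinarith [sq_nonneg (H2.ps p s k + H2.ps q t k), sq_nonneg (H2.ps p s k), sq_nonneg (H2.ps q t k)]
  · nlinarith [sq_nonneg (H2.ps p s k - H2.ps q t k), sq_nonneg (H2.ps p s k), sq_nonneg (H2.ps q t k)]

theorem stationary_pair (μ ν : Measure (ℕ → ℕ)) [IsProbabilityMeasure μ] [IsProbabilityMeasure ν]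
    (hμ : MeasurePreserving T μ μ) (hν : MeasurePreserving T ν ν)
    (f : ℕ → Fin m) (a : Fin m) (g : ℕ → Fin m') (b : Fin m')
    (ha : ¬ (μ[ind f a | (GG f).comap T] =ᵐ[μ] ind f a))
    (hb : ¬ (ν[ind g b | (GG g).comap T] =ᵐ[ν] ind g b)) :
    ∃ ξ : Measure ((ℕ → ℕ) × (ℕ → ℕ)), IsProbabilityMeasure ξ ∧
      MeasurePreserving (Prod.map T T) ξ ξ ∧ ξ.map Prod.fst = μ ∧ ξ.map Prod.snd = ν ∧
      ∫ z, ind f a z.1 * ind g b z.2 ∂ξ ≠ (∫ x, ind f a x ∂μ) * ∫ y, ind g b y ∂ν := by
  set α := resp μ f a with hα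
  set β := resp ν g b with hβ
  have hαs : Summable (fun k => α k ^ 2) := resp_summable hμ f a
  have hβs : Summable (fun k => β k ^ 2) := resp_summable hν g b
  obtain ⟨p, q, hpq⟩ := H2.exists_cross_ne_zero α β hαs hβs (resp_zero_ne f a ha)
    (resp_zero_ne g b hb)
  set t : ℕ → ℝ := fun k => H2.ps p α k * H2.ps q β k with ht
  have htabs : Summable (fun k => |t k|) := prod_summable α β hαs hβs p q
  have hts : Summable t := htabs.of_abs
  set c : ℝ := ∑' k, t k with hc
  have hc0 : c ≠ 0 := hpq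
  have hcpos : 0 < |c| := abs_pos.mpr hc0
  set ε : ℝ := min 1 (|c| / 2) with hε
  have hε0 : 0 < ε := lt_min one_pos (by positivity)
  have hε1 : ε ≤ 1 := min_le_left _ _
  have hεc : ε < |c| := lt_of_le_of_lt (min_le_right _ _) (by linarith)
  set E := (∫ x, ind f a x ∂μ) * ∫ y, ind g b y ∂ν with hE
  have hu := rmd hμ f a
  have hv := rmd hν g b
  set u : ℕ → (ℕ → ℕ) → ℝ := fun k x => inn μ f a (T^[k] x) with hudef
  set v : ℕ → (ℕ → ℕ) → ℝ := fun k x => inn ν g b (T^[k] x) with hvdef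
  -- tails
  set r : ℕ → ℝ := fun N => ∑' k, |t (k + N)| with hr
  have hr0 : Tendsto r atTop (𝓝 0) := tendsto_sum_nat_add (fun k => |t k|)
  have hranti : ∀ N L, N ≤ L → |∑ k ∈ Finset.range L, t k - c| ≤ r N := by
    intro N L hNL
    have h1 : ∑ k ∈ Finset.range L, t k + ∑' k, t (k + L) = c := hts.sum_add_tsum_nat_add L
    have h2 : ∑ k ∈ Finset.range L, t k - c = - ∑' k, t (k + L) := by linarith
    rw [h2, abs_neg]
    have hsL : Summable (fun k => |t (k + L)|) := (summable_nat_add_iff L).mpr htabs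
    have hsN : Summable (fun k => |t (k + N)|) := (summable_nat_add_iff N).mpr htabs
    have h3 : |∑' k, t (k + L)| ≤ ∑' k, |t (k + L)| := by
      have := norm_tsum_le_tsum_norm (f := fun k => t (k + L)) (by simpa using hsL)
      simpa [Real.norm_eq_abs] using this
    obtain ⟨j, rfl⟩ := Nat.exists_eq_add_of_le hNL
    have h4 : ∑ k ∈ Finset.range j, |t (k + N)| + ∑' k, |t (k + j + N)| = r N :=
      hsN.sum_add_tsum_nat_add j
    have h5 : ∑' k, |t (k + (N + j))| = ∑' k, |t (k + j + N)| := by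
      congr 1
      ext k
      congr 2
      ring
    have h6 : 0 ≤ ∑ k ∈ Finset.range j, |t (k + N)| := Finset.sum_nonneg (fun _ _ => abs_nonneg _)
    rw [h5] at h3
    linarith
  set eN : ℕ → ℝ := fun N => ε ^ 2 + ε * r N with heN
  have heNlim : Tendsto eN atTop (𝓝 (ε ^ 2)) := by
    have := (hr0.const_mul ε).const_add (ε ^ 2)
    simpa using this
  have hmain : ∀ N, ∀ n ≤ N, |∫ z, FF f a g b p q ((Prod.map T T)^[n] z)
      ∂(cpl μ ν ε u v (N + N)) - (E + ε * c)| ≤ eN N := by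
    intro N n hn
    have e0 : ∀ z : (ℕ → ℕ) × (ℕ → ℕ), FF f a g b p q ((Prod.map T T)^[n] z)
        = (fun x => ind f a (T^[p + n] x)) z.1 * (fun y => ind g b (T^[q + n] y)) z.2 := by
      intro z
      rw [FF_apply, Prod.map_iterate]
      simp only [Prod.map_apply', Function.iterate_add_apply, Prod.map_fst, Prod.map_snd]
    simp only [e0]
    rw [cpl_integral hε0.le hε1 hu hv (N + N) (fun x => ind f a (T^[p + n] x))
      (fun y => ind g b (T^[q + n] y))]
    have hφ : MemLp (fun x => ind f a (T^[p + n] x)) 2 μ :=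
      (ind_memLp f a).comp_measurePreserving (hμ.iterate (p + n))
    have hψ : MemLp (fun y => ind g b (T^[q + n] y)) 2 ν :=
      (ind_memLp g b).comp_measurePreserving (hν.iterate (q + n))
    have h3 := (est hε0.le hε1 hu hv (N + N) 0 _ _ hφ hψ).2.2
    have i1 : ∫ x, ind f a (T^[p + n] x) ∂μ = ∫ x, ind f a x ∂μ := by
      have h4 := integral_map (μ := μ) (hμ.measurable.iterate (p + n)).aemeasurable
        (f := ind f a) (ind_cont f a).stronglyMeasurable.aestronglyMeasurable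
      rw [(hμ.iterate (p + n)).map_eq] at h4
      exact h4.symm
    have i2 : ∫ x, ind g b (T^[q + n] x) ∂ν = ∫ x, ind g b x ∂ν := by
      have h4 := integral_map (μ := ν) (hν.measurable.iterate (q + n)).aemeasurable
        (f := ind g b) (ind_cont g b).stronglyMeasurable.aestronglyMeasurable
      rw [(hν.iterate (q + n)).map_eq] at h4
      exact h4.symm
    have j1 : ∀ k, ∫ x, ind f a (T^[p + n] x) * u (0 + k) x ∂μ = H2.ps (p + n) α k := by
      intro k
      rw [zero_add]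
      exact resp_shift hμ f a (p + n) k
    have j2 : ∀ k, ∫ x, ind g b (T^[q + n] x) * v (0 + k) x ∂ν = H2.ps (q + n) β k := by
      intro k
      rw [zero_add]
      exact resp_shift hν g b (q + n) k
    rw [i1, i2] at h3
    simp only [j1, j2] at h3
    rw [← hE] at h3
    have k1 : ∫ x, (ind f a (T^[p + n] x)) ^ 2 ∂μ ≤ 1 := by
      have : ∫ x, (ind f a (T^[p + n] x)) ^ 2 ∂μ ≤ ∫ x : ℕ → ℕ, (1 : ℝ) ∂μ := by
        apply integral_mono hφ.integrable_sq (integrable_const _)
        intro x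
        have := ind_mem f a (T^[p + n] x)
        exact pow_le_one₀ this.1 this.2
      simpa using this
    have k2 : ∫ x, (ind g b (T^[q + n] x)) ^ 2 ∂ν ≤ 1 := by
      have : ∫ x, (ind g b (T^[q + n] x)) ^ 2 ∂ν ≤ ∫ x : ℕ → ℕ, (1 : ℝ) ∂ν := by
        apply integral_mono hψ.integrable_sq (integrable_const _)
        intro x
        have := ind_mem g b (T^[q + n] x)
        exact pow_le_one₀ this.1 this.2
      simpa using this
    obtain ⟨L, hL⟩ := Nat.exists_eq_add_of_le (le_trans hn (Nat.le_add_right N N))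
    have hNL : N ≤ L := by omega
    have l1 : ∑ k ∈ Finset.range (N + N), H2.ps (p + n) α k * H2.ps (q + n) β k
        = ∑ k ∈ Finset.range L, t k := by
      rw [hL]
      exact sum_shift α β p q n L
    rw [l1] at h3
    have h4 := hranti N L hNL
    set I0 := II μ ν ε u v 0 (N + N) (fun x => ind f a (T^[p + n] x)) (fun y => ind g b (T^[q + n] y))
    have h5 : I0 - (E + ε * c) = (I0 - E - ε * ∑ k ∈ Finset.range L, t k)
        + ε * (∑ k ∈ Finset.range L, t k - c) := by ring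
    rw [h5]
    have h6 : ε ^ 2 * ((∫ x, (ind f a (T^[p + n] x)) ^ 2 ∂μ + ∫ y, (ind g b (T^[q + n] y)) ^ 2 ∂ν) / 2)
        ≤ ε ^ 2 := by
      apply mul_le_of_le_one_right (sq_nonneg _)
      linarith
    calc _ ≤ |I0 - E - ε * ∑ k ∈ Finset.range L, t k| + |ε * (∑ k ∈ Finset.range L, t k - c)| :=
          abs_add_le _ _
      _ = |I0 - E - ε * ∑ k ∈ Finset.range L, t k| + ε * |∑ k ∈ Finset.range L, t k - c| := by
          rw [abs_mul, abs_of_pos hε0]
      _ ≤ ε ^ 2 + ε * r N := by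
          have := mul_le_mul_of_nonneg_left h4 hε0.le
          linarith
  obtain ⟨ξ0, hξp, hξT, hξ1, hξ2, hξe⟩ := Stat.exists_stationary μ ν T T_cont hμ hν
    (fun N => cpl μ ν ε u v (N + N)) (fun N => cpl_prob hε0.le hε1 hu hv (N + N))
    (fun N => cpl_fst hε0.le hε1 hu hv (N + N)) (fun N => cpl_snd hε0.le hε1 hu hv (N + N))
    (FF f a g b p q) (E + ε * c) (ε ^ 2) eN heNlim hmain
  have hRm : Measurable (Prod.map (T^[p]) (T^[q])) :=
    (T_meas.iterate p).prodMap (T_meas.iterate q)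
  have hSm : Measurable (Prod.map T T) := T_meas.prodMap T_meas
  refine ⟨ξ0.map (Prod.map (T^[p]) (T^[q])), Measure.isProbabilityMeasure_map hRm.aemeasurable,
    ⟨hSm, ?_⟩, ?_, ?_, ?_⟩
  · rw [Measure.map_map hSm hRm]
    have hcomm : Prod.map T T ∘ Prod.map (T^[p]) (T^[q]) = Prod.map (T^[p]) (T^[q]) ∘ Prod.map T T := by
      funext z
      show (T (T^[p] z.1), T (T^[q] z.2)) = (T^[p] (T z.1), T^[q] (T z.2))
      rw [← Function.iterate_succ_apply' T p, ← Function.iterate_succ_apply' T q,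
        Function.iterate_succ_apply, Function.iterate_succ_apply]
    rw [hcomm, ← Measure.map_map hRm hSm, hξT.map_eq]
  · rw [Measure.map_map measurable_fst hRm]
    have : Prod.fst ∘ Prod.map (T^[p]) (T^[q]) = T^[p] ∘ Prod.fst := rfl
    rw [this, ← Measure.map_map (T_meas.iterate p) measurable_fst, hξ1, (hμ.iterate p).map_eq]
  · rw [Measure.map_map measurable_snd hRm]
    have : Prod.snd ∘ Prod.map (T^[p]) (T^[q]) = T^[q] ∘ Prod.snd := rfl
    rw [this, ← Measure.map_map (T_meas.iterate q) measurable_snd, hξ2, (hν.iterate q).map_eq]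
  · have h7 : ∫ z, ind f a z.1 * ind g b z.2 ∂(ξ0.map (Prod.map (T^[p]) (T^[q])))
        = ∫ z, FF f a g b p q z ∂ξ0 := by
      rw [integral_map hRm.aemeasurable]
      · rfl
      · exact (((ind_cont f a).comp continuous_fst).mul
          ((ind_cont g b).comp continuous_snd)).stronglyMeasurable.aestronglyMeasurable
    rw [h7]
    intro hcon
    rw [hcon] at hξe
    have h8 : E - (E + ε * c) = - (ε * c) := by ring
    rw [h8, abs_neg, abs_mul, abs_of_pos hε0] at hξe
    nlinarith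

theorem joining_main (μ ν : Measure (ℕ → ℕ)) [IsProbabilityMeasure μ] [IsProbabilityMeasure ν]
    (hμ : MeasurePreserving (fun (x : ℕ → ℕ) (n : ℕ) => x (n + 1)) μ μ)
    (hν : MeasurePreserving (fun (x : ℕ → ℕ) (n : ℕ) => x (n + 1)) ν ν)
    (f : ℕ → Fin m) (c : ℝ) (hc : 0 < c)
    (hH : ∀ n : ℕ, c * (n : ℝ) ≤ ∑ w : Fin n → Fin m,
      Real.negMulLog ((μ {x : ℕ → ℕ | ∀ i : Fin n, f (x i.val) = w i}).toReal))
    (g : ℕ → Fin m') (c' : ℝ) (hc' : 0 < c')
    (hH' : ∀ n : ℕ, c' * (n : ℝ) ≤ ∑ w : Fin n → Fin m',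
      Real.negMulLog ((ν {x : ℕ → ℕ | ∀ i : Fin n, g (x i.val) = w i}).toReal)) :
    ∃ ξ : Measure ((ℕ → ℕ) × (ℕ → ℕ)),
      IsProbabilityMeasure ξ ∧
      MeasurePreserving
        (Prod.map (fun (x : ℕ → ℕ) (n : ℕ) => x (n + 1))
                  (fun (x : ℕ → ℕ) (n : ℕ) => x (n + 1))) ξ ξ ∧
      ξ.map Prod.fst = μ ∧ ξ.map Prod.snd = ν ∧
      ∃ a b : ℕ,
        ξ ({p : (ℕ → ℕ) × (ℕ → ℕ) | p.1 0 = a} ∩ {p | p.2 0 = b}) ≠
          μ {x : ℕ → ℕ | x 0 = a} * ν {y : ℕ → ℕ | y 0 = b} := by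
  obtain ⟨a, ha⟩ := exists_innovation hμ f c hc hH
  obtain ⟨b, hb⟩ := exists_innovation hν g c' hc' hH'
  obtain ⟨ξ, hξp, hξT, hξ1, hξ2, hne⟩ := stationary_pair μ ν hμ hν f a g b ha hb
  refine ⟨ξ, hξp, hξT, hξ1, hξ2, ?_⟩
  by_contra hcon
  push Not at hcon
  apply hne
  -- law of the pair of zero coordinates
  have e0m : Measurable (fun x : ℕ → ℕ => x 0) := measurable_pi_apply 0
  have epm : Measurable (fun z : (ℕ → ℕ) × (ℕ → ℕ) => (z.1 0, z.2 0)) :=
    (e0m.comp measurable_fst).prodMk (e0m.comp measurable_snd)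
  have hpμ : IsProbabilityMeasure (μ.map (fun x : ℕ → ℕ => x 0)) :=
    Measure.isProbabilityMeasure_map e0m.aemeasurable
  have hpν : IsProbabilityMeasure (ν.map (fun x : ℕ → ℕ => x 0)) :=
    Measure.isProbabilityMeasure_map e0m.aemeasurable
  have hlaw : ξ.map (fun z : (ℕ → ℕ) × (ℕ → ℕ) => (z.1 0, z.2 0))
      = (μ.map (fun x : ℕ → ℕ => x 0)).prod (ν.map (fun x : ℕ → ℕ => x 0)) := by
    apply Measure.ext_of_singleton
    rintro ⟨i, j⟩
    rw [Measure.map_apply epm (measurableSet_singleton _), ← Set.singleton_prod_singleton,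
      Measure.prod_prod, Measure.map_apply e0m (measurableSet_singleton _),
      Measure.map_apply e0m (measurableSet_singleton _)]
    have := hcon i j
    rw [show (fun x : ℕ → ℕ => x 0) ⁻¹' {i} = {x : ℕ → ℕ | x 0 = i} from rfl,
      show (fun x : ℕ → ℕ => x 0) ⁻¹' {j} = {y : ℕ → ℕ | y 0 = j} from rfl, ← this]
    rfl
  set F1 : ℕ → ℝ := fun n => if f n = a then 1 else 0 with hF1
  set G1 : ℕ → ℝ := fun n => if g n = b then 1 else 0 with hG1
  have h1 : ∫ z, ind f a z.1 * ind g b z.2 ∂ξ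
      = ∫ w, F1 w.1 * G1 w.2 ∂(ξ.map (fun z : (ℕ → ℕ) × (ℕ → ℕ) => (z.1 0, z.2 0))) := by
    rw [integral_map epm.aemeasurable]
    · rfl
    · exact (measurable_of_countable _).aestronglyMeasurable
  have h2 : ∫ x, ind f a x ∂μ = ∫ n, F1 n ∂(μ.map (fun x : ℕ → ℕ => x 0)) := by
    rw [integral_map e0m.aemeasurable]
    · rfl
    · exact (measurable_of_countable _).aestronglyMeasurable
  have h3 : ∫ x, ind g b x ∂ν = ∫ n, G1 n ∂(ν.map (fun x : ℕ → ℕ => x 0)) := by
    rw [integral_map e0m.aemeasurable]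
    · rfl
    · exact (measurable_of_countable _).aestronglyMeasurable
  rw [h1, h2, h3, hlaw]
  exact integral_prod_mul F1 G1

end Pool.Agent.H263R3.Join
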