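import Pool.Agent.H354.NORE.Stmts

set_option autoImplicit false

namespace H263NORE

open Matrix H354P

/-! ### direct limits of chains of domains -/

section limit

variable (G : ℕ → Type) [∀ i, Ring (G i)] (f : ∀ i, G i →+* G (i + 1))

/-- transition maps -/
def tr (i j : ℕ) (h : i ≤ j) : G i →+* G j :=
  Nat.leRecOn (C := fun j => G i →+* G j) h (fun {l} g => (f l).comp g) (RingHom.id (G i))

theorem tr_self (i : ℕ) (x : G i) : tr G f i i le_rfl x = x := by
  unfold tr
  rw [Nat.leRecOn_self]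
  rfl

theorem tr_succ (i j : ℕ) (h : i ≤ j) (h' : i ≤ j + 1) (x : G i) :
    tr G f i (j + 1) h' x = f j (tr G f i j h x) := by
  unfold tr
  rw [Nat.leRecOn_succ h]
  rfl

theorem tr_tr (i j k : ℕ) (hij : i ≤ j) (hjk : j ≤ k) (x : G i) :
    tr G f j k hjk (tr G f i j hij x) = tr G f i k (hij.trans hjk) x := by
  induction k, hjk using Nat.le_induction with
  | base => rw [tr_self]
  | succ k hjk ih => rw [tr_succ G f j k hjk, tr_succ G f i k (hij.trans hjk), ih]

theorem tr_inj (hf : ∀ i, Function.Injective (f i)) (i j : ℕ) (h : i ≤ j) :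
    Function.Injective (tr G f i j h) := by
  induction j, h using Nat.le_induction with
  | base => intro x y hxy; rwa [tr_self, tr_self] at hxy
  | succ k h ih =>
    intro x y hxy
    rw [tr_succ G f i k h, tr_succ G f i k h] at hxy
    exact ih (hf k hxy)

theorem limit_exists [∀ i, IsDomain (G i)] (hf : ∀ i, Function.Injective (f i)) :
    ∃ (L : Type) (_ : Ring L) (_ : IsDomain L) (of : ∀ i, G i →+* L),
      (∀ i, Function.Injective (of i)) ∧ (∀ i x, of (i + 1) (f i x) = of i x) ∧
      ∀ z : L, ∃ (i : ℕ) (x : G i), z = of i x := by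
  classical
  haveI hds : DirectedSystem G (fun i j h => (tr G f i j h : G i → G j)) :=
    ⟨fun i x => tr_self G f i x, fun k j i hij hjk x => tr_tr G f i j k hij hjk x⟩
  let L := DirectLimit G (fun i j (h : i ≤ j) => tr G f i j h)
  letI : Ring L := inferInstance
  have hinj : ∀ i, Function.Injective (fun x : G i => (⟦⟨i, x⟩⟧ : L)) :=
    DirectLimit.mk_injective _ (fun i j h => tr_inj G f hf i j h)
  have hmul : ∀ (i : ℕ) (x y : G i), (⟦⟨i, x⟩⟧ : L) * ⟦⟨i, y⟩⟧ = ⟦⟨i, x * y⟩⟧ := fun i x y =>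
    DirectLimit.mul_def i x y
  have hadd : ∀ (i : ℕ) (x y : G i), (⟦⟨i, x⟩⟧ : L) + ⟦⟨i, y⟩⟧ = ⟦⟨i, x + y⟩⟧ := fun i x y =>
    DirectLimit.add_def i x y
  have hone : ∀ i : ℕ, (1 : L) = ⟦⟨i, 1⟩⟧ := fun i => DirectLimit.one_def i
  have hzero : ∀ i : ℕ, (0 : L) = ⟦⟨i, 0⟩⟧ := fun i => DirectLimit.zero_def i
  haveI : Nontrivial L := by
    refine ⟨0, 1, fun h => ?_⟩
    rw [hone 0, hzero 0] at h
    exact zero_ne_one (hinj 0 h)
  haveI : NoZeroDivisors L := by
    refine ⟨fun {a b} hab => ?_⟩
    obtain ⟨i, x, y, rfl, rfl⟩ := DirectLimit.exists_eq_mk₂ _ a b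
    rw [hmul, hzero i] at hab
    have := hinj i hab
    rcases mul_eq_zero.1 this with h | h
    · left; rw [h, ← hzero i]
    · right; rw [h, ← hzero i]
  refine ⟨L, inferInstance, NoZeroDivisors.to_isDomain L, fun i =>
    { toFun := fun x => ⟦⟨i, x⟩⟧
      map_one' := (hone i).symm
      map_mul' := fun x y => (hmul i x y).symm
      map_zero' := (hzero i).symm
      map_add' := fun x y => (hadd i x y).symm }, fun i => hinj i, ?_, ?_⟩
  · intro i x
    show (⟦⟨i + 1, f i x⟩⟧ : L) = ⟦⟨i, x⟩⟧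
    have h1 : f i x = tr G f i (i + 1) (Nat.le_succ i) x := by
      rw [tr_succ G f i i le_rfl, tr_self]
    rw [h1]
    exact DirectLimit.mk_apply (f := fun i j (h : i ≤ j) => tr G f i j h) i (i + 1) x (Nat.le_succ i)
  · intro z
    obtain ⟨i, x, h⟩ := DirectLimit.exists_eq_mk _ z
    exact ⟨i, x, h⟩

end limit

/-! ### certificates -/

theorem cert_map {R S : Type} [Ring R] [Ring S] (φ : R →+* S) {m n : ℕ}
    {A : Matrix (Fin m) (Fin n) R} (h : Cert A) : Cert (A.map φ) := by
  obtain ⟨l, r, U, X, s, z, w, h1, h2, h3⟩ := h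
  have hd : (diagonal r).map φ = diagonal (fun i => φ (r i)) :=
    Matrix.diagonal_map (map_zero φ)
  refine ⟨l, fun i => φ (r i), U.map φ, X.map φ, s.map φ, z.map φ, w.map φ, ?_, ?_, ?_⟩
  · rw [← Matrix.map_mul, ← Matrix.map_mul, ← Matrix.map_add φ (map_add φ), h1,
      Matrix.map_one φ (map_zero φ) (map_one φ)]
  · rw [← hd, ← Matrix.map_mul, ← Matrix.map_mul, h2]
  · rw [← hd, ← Matrix.map_mul, ← Matrix.map_mul, h3]

theorem cert_reflect {B S : Type} [Ring B] [Ring S] (ι : B →+* S) (hι : Function.Injective ι)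
    {m n l : ℕ} (A : Matrix (Fin m) (Fin n) B) (r : Fin l → B) (U : Matrix (Fin m) (Fin l) B)
    (X : Matrix (Fin l) (Fin m) B) (s : Matrix (Fin n) (Fin m) B) (z : Matrix (Fin l) (Fin n) B)
    (w : Matrix (Fin n) (Fin l) B)
    (h1 : U.map ι * X.map ι + A.map ι * s.map ι = 1)
    (h2 : X.map ι * A.map ι = diagonal (fun i => ι (r i)) * z.map ι)
    (h3 : U.map ι * diagonal (fun i => ι (r i)) = A.map ι * w.map ι) : Cert A := by
  have hd : (diagonal r).map ι = diagonal (fun i => ι (r i)) :=
    Matrix.diagonal_map (map_zero ι)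
  refine ⟨l, r, U, X, s, z, w, ?_, ?_, ?_⟩
  · refine Matrix.map_injective hι ?_
    show (U * X + A * s).map ι = (1 : Matrix (Fin m) (Fin m) B).map ι
    rw [Matrix.map_add ι (map_add ι), Matrix.map_mul, Matrix.map_mul, h1,
      Matrix.map_one ι (map_zero ι) (map_one ι)]
  · refine Matrix.map_injective hι ?_
    show (X * A).map ι = (diagonal r * z).map ι
    rw [Matrix.map_mul, Matrix.map_mul, hd, h2]
  · refine Matrix.map_injective hι ?_
    show (U * diagonal r).map ι = (A * w).map ι
    rw [Matrix.map_mul, Matrix.map_mul, hd, h3]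

/-! ### countable domain algebras -/

/-- countable domain algebras -/
structure Dom (k : Type) [Field k] where
  C : Type
  [ring : Ring C]
  [alg : Algebra k C]
  [dom : IsDomain C]
  [cnt : Countable C]

attribute [instance] Dom.ring Dom.alg Dom.dom Dom.cnt

/-- all matrices -/
abbrev Mat (R : Type) : Type := Σ m n : ℕ, Matrix (Fin m) (Fin n) R

/-- pushing forward -/
def push {R S : Type} (φ : R → S) (c : Mat R) : Mat S := ⟨c.1, c.2.1, c.2.2.map φ⟩

theorem step_exists {k : Type} [Field k] (hk : Countable k) (hX : TheoremX k) (D : Dom k)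
    (M : Mat D.C) : ∃ (D' : Dom k) (φ : D.C →ₐ[k] D'.C), Function.Injective φ ∧
      Cert (push φ M).2.2 := by
  obtain ⟨S, _, _, _, φ, hφ, l, r, U, X, s, z, w, h1, h2, h3⟩ := hX D.C M.1 M.2.1 M.2.2
  let T : Set S := Set.range φ ∪ (Set.range r ∪ (Set.range (fun p : _ × _ => U p.1 p.2) ∪
    (Set.range (fun p : _ × _ => X p.1 p.2) ∪ (Set.range (fun p : _ × _ => s p.1 p.2) ∪
    (Set.range (fun p : _ × _ => z p.1 p.2) ∪ Set.range (fun p : _ × _ => w p.1 p.2))))))
  have hT : T.Countable := by
    refine (Set.countable_range _).union ((Set.countable_range _).union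
      ((Set.countable_range _).union ((Set.countable_range _).union
      ((Set.countable_range _).union ((Set.countable_range _).union (Set.countable_range _))))))
  have hB : Countable (Algebra.adjoin k T) := by
    rw [← Cardinal.mk_le_aleph0_iff]
    refine (Algebra.cardinalMk_adjoin_le k T).trans ?_
    refine max_le (max_le ?_ ?_) le_rfl
    · exact Cardinal.mk_le_aleph0_iff.2 hk
    · exact Cardinal.mk_le_aleph0_iff.2 hT.to_subtype
  have hφT : ∀ x, φ x ∈ Algebra.adjoin k T := fun x => Algebra.subset_adjoin (Or.inl ⟨x, rfl⟩)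
  have hr : ∀ i, r i ∈ Algebra.adjoin k T := fun i =>
    Algebra.subset_adjoin (Or.inr (Or.inl ⟨i, rfl⟩))
  have hU : ∀ i j, U i j ∈ Algebra.adjoin k T := fun i j =>
    Algebra.subset_adjoin (Or.inr (Or.inr (Or.inl ⟨(i, j), rfl⟩)))
  have hXm : ∀ i j, X i j ∈ Algebra.adjoin k T := fun i j =>
    Algebra.subset_adjoin (Or.inr (Or.inr (Or.inr (Or.inl ⟨(i, j), rfl⟩))))
  have hs : ∀ i j, s i j ∈ Algebra.adjoin k T := fun i j =>
    Algebra.subset_adjoin (Or.inr (Or.inr (Or.inr (Or.inr (Or.inl ⟨(i, j), rfl⟩)))))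
  have hz : ∀ i j, z i j ∈ Algebra.adjoin k T := fun i j =>
    Algebra.subset_adjoin (Or.inr (Or.inr (Or.inr (Or.inr (Or.inr (Or.inl ⟨(i, j), rfl⟩))))))
  have hw : ∀ i j, w i j ∈ Algebra.adjoin k T := fun i j =>
    Algebra.subset_adjoin (Or.inr (Or.inr (Or.inr (Or.inr (Or.inr (Or.inr ⟨(i, j), rfl⟩))))))
  let φ' : D.C →ₐ[k] Algebra.adjoin k T := φ.codRestrict _ hφT
  have hφ' : Function.Injective φ' := by
    intro x y hxy
    exact hφ (congrArg Subtype.val hxy)
  refine ⟨{ C := Algebra.adjoin k T, cnt := hB }, φ', hφ', ?_⟩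
  exact cert_reflect (Algebra.adjoin k T).val.toRingHom Subtype.val_injective
    (M.2.2.map φ') (fun i => ⟨r i, hr i⟩) (Matrix.of fun i j => ⟨U i j, hU i j⟩)
    (Matrix.of fun i j => ⟨X i j, hXm i j⟩) (Matrix.of fun i j => ⟨s i j, hs i j⟩)
    (Matrix.of fun i j => ⟨z i j, hz i j⟩) (Matrix.of fun i j => ⟨w i j, hw i j⟩) h1 h2 h3

theorem enum_exists (R : Type) [Countable R] : ∃ f : ℕ → Mat R, Function.Surjective f := by
  haveI : Countable (Mat R) := by
    haveI : ∀ m n : ℕ, Countable (Matrix (Fin m) (Fin n) R) := fun m n => by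
      unfold Matrix; infer_instance
    infer_instance
  haveI : Nonempty (Mat R) := ⟨⟨0, 0, fun i => i.elim0⟩⟩
  exact exists_surjective_nat _

/-- an enumeration of the matrices -/
noncomputable def enum (R : Type) [Countable R] : ℕ → Mat R := (enum_exists R).choose

theorem enum_surj (R : Type) [Countable R] : Function.Surjective (enum R) :=
  (enum_exists R).choose_spec

/-- states of the construction -/
structure St (k : Type) [Field k] where
  D : Dom k
  e : ℕ → ℕ → Mat D.C

section chain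

variable {k : Type} [Field k] (hk : Countable k) (hX : TheoremX k)

/-- the matrix treated at step `i` -/
def cur (i : ℕ) (s : St k) : Mat s.D.C := s.e (Nat.unpair i).1 (Nat.unpair i).2

/-- the next algebra -/
noncomputable def nextD (i : ℕ) (s : St k) : Dom k := (step_exists hk hX s.D (cur i s)).choose

/-- the map to the next algebra -/
noncomputable def nextφ (i : ℕ) (s : St k) : s.D.C →ₐ[k] (nextD hk hX i s).C :=
  (step_exists hk hX s.D (cur i s)).choose_spec.choose

theorem nextφ_inj (i : ℕ) (s : St k) : Function.Injective (nextφ hk hX i s) :=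
  (step_exists hk hX s.D (cur i s)).choose_spec.choose_spec.1

theorem nextφ_cert (i : ℕ) (s : St k) : Cert (push (nextφ hk hX i s) (cur i s)).2.2 :=
  (step_exists hk hX s.D (cur i s)).choose_spec.choose_spec.2

/-- the next state -/
noncomputable def next (i : ℕ) (s : St k) : St k where
  D := nextD hk hX i s
  e := fun j l => if j ≤ i then push (nextφ hk hX i s) (s.e j l) else enum (nextD hk hX i s).C l

/-- the chain -/
noncomputable def st (D0 : Dom k) : ℕ → St k
  | 0 => ⟨D0, fun _ l => enum D0.C l⟩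
  | i + 1 => next hk hX i (st D0 i)

/-- the maps of the chain -/
noncomputable def phi (D0 : Dom k) (i : ℕ) : (st hk hX D0 i).D.C →+* (st hk hX D0 (i + 1)).D.C :=
  (nextφ hk hX i (st hk hX D0 i)).toRingHom

theorem phi_inj (D0 : Dom k) (i : ℕ) : Function.Injective (phi hk hX D0 i) :=
  nextφ_inj hk hX i _

theorem phi_cert (D0 : Dom k) (i : ℕ) :
    Cert (push (phi hk hX D0 i) (cur i (st hk hX D0 i))).2.2 :=
  nextφ_cert hk hX i _

theorem st_self (D0 : Dom k) (i l : ℕ) :
    (st hk hX D0 i).e i l = enum (st hk hX D0 i).D.C l := by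
  cases i with
  | zero => rfl
  | succ i =>
    show (if i + 1 ≤ i then _ else _) = _
    rw [if_neg (by omega)]
    rfl

theorem st_push (D0 : Dom k) (i j l : ℕ) (h : j ≤ i) :
    (st hk hX D0 (i + 1)).e j l = push (phi hk hX D0 i) ((st hk hX D0 i).e j l) := by
  show (if j ≤ i then _ else _) = _
  rw [if_pos h]
  rfl

end chain

theorem taskL (k : Type) [Field k] : TaskL k := by
  intro hk hX R _ _ _ hR
  let D0 : Dom k := { C := R }
  let G : ℕ → Type := fun i => (st hk hX D0 i).D.C
  obtain ⟨L, _, _, of, hinj, hcompat, hex⟩ :=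
    limit_exists (fun i => (st hk hX D0 i).D.C) (phi hk hX D0) (phi_inj hk hX D0)
  refine ⟨L, inferInstance, inferInstance, of 0, hinj 0, fun m n A => ?_⟩
  -- elements come from all late stages
  have hup : ∀ (i j : ℕ), i ≤ j → ∀ x : (st hk hX D0 i).D.C,
      ∃ y : (st hk hX D0 j).D.C, of i x = of j y := by
    intro i j hij
    induction j, hij using Nat.le_induction with
    | base => exact fun x => ⟨x, rfl⟩
    | succ j hij ih =>
      intro x
      obtain ⟨y, hy⟩ := ih x
      exact ⟨phi hk hX D0 j y, by rw [hy, hcompat]⟩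
  -- matrices come from a stage
  have hmat : ∃ (i : ℕ) (B : Matrix (Fin m) (Fin n) (st hk hX D0 i).D.C), B.map (of i) = A := by
    choose i x hx using fun (p : Fin m × Fin n) => hex (A p.1 p.2)
    let N := Finset.univ.sup i
    have hN : ∀ p, i p ≤ N := fun p => Finset.le_sup (Finset.mem_univ p)
    choose y hy using fun p : Fin m × Fin n => hup (i p) N (hN p) (x p)
    refine ⟨N, Matrix.of fun a b => y (a, b), ?_⟩
    ext a b
    rw [Matrix.map_apply, Matrix.of_apply, ← hy (a, b), ← hx (a, b)]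
  obtain ⟨i, B, hB⟩ := hmat
  obtain ⟨l, hl⟩ := enum_surj (st hk hX D0 i).D.C ⟨m, n, B⟩
  -- the enumeration of stage `i` is transported
  have htrans : ∀ t, i ≤ t → push (of t) ((st hk hX D0 t).e i l) = ⟨m, n, A⟩ := by
    intro t ht
    induction t, ht using Nat.le_induction with
    | base =>
      rw [st_self, hl]
      unfold push
      rw [hB]
    | succ t ht ih =>
      rw [st_push hk hX D0 t i l ht, ← ih]
      unfold push
      simp only [Matrix.map_map]
      congr 3
      funext x
      exact hcompat t x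
  have ht : i ≤ Nat.pair i l := Nat.left_le_pair i l
  have hc := phi_cert hk hX D0 (Nat.pair i l)
  have hcur : cur (Nat.pair i l) (st hk hX D0 (Nat.pair i l)) =
      (st hk hX D0 (Nat.pair i l)).e i l := by
    unfold cur
    rw [Nat.unpair_pair]
  have h1 : Cert (push (of (Nat.pair i l + 1)) (push (phi hk hX D0 (Nat.pair i l))
      (cur (Nat.pair i l) (st hk hX D0 (Nat.pair i l))))).2.2 :=
    cert_map (of (Nat.pair i l + 1)) hc
  have h2 : push (of (Nat.pair i l + 1)) (push (phi hk hX D0 (Nat.pair i l))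
      (cur (Nat.pair i l) (st hk hX D0 (Nat.pair i l)))) = ⟨m, n, A⟩ := by
    rw [hcur, ← st_push hk hX D0 _ i l ht]
    exact htrans _ (by omega)
  rw [h2] at h1
  exact h1

end H263NORE
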