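import Mathlib

/-!
# Two disjoint thick sets in an infinite group
-/

namespace H263R3

open Set Cardinal

universe u

/-- In an infinite group, any family of finite sets indexed by a type of cardinality at most that
of the group has pairwise disjoint right translates. -/
theorem exists_disjoint_translates {G : Type u} [Group G] [Infinite G] {I : Type u}
    (F : I → Finset G) (hI : #I ≤ #G) :
    ∃ g : I → G, ∀ i j, i ≠ j → ∀ a ∈ F i, ∀ b ∈ F j, a * g i ≠ b * g j := by
  classical
  obtain ⟨_, _, hord⟩ := Cardinal.exists_ord_eq_type_lt I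
  have hseg : ∀ i : I, #(Iio i) < #G := fun i => (Cardinal.mk_Iio_lt i hord).trans_le hI
  have hex : ∀ (i : I) (g : ∀ j, j < i → G), ∃ x : G, ∀ (j : I) (hj : j < i), ∀ a ∈ F i,
      ∀ b ∈ F j, a * x ≠ b * g j hj := by
    intro i g
    let T : Iio i → Set G := fun j =>
      (((F i) ×ˢ (F j.1)).image (fun p : G × G => p.1⁻¹ * (p.2 * g j.1 j.2)) : Finset G)
    have hTfin : ∀ j, (T j).Finite := fun j => Finset.finite_toSet _
    have hcard : #(⋃ j, T j) < #G := by
      rcases lt_or_ge #(Iio i) ℵ₀ with h | h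
      · have : Finite (Iio i) := Cardinal.lt_aleph0_iff_finite.mp h
        have hf : (⋃ j, T j).Finite := Set.finite_iUnion hTfin
        exact (Cardinal.lt_aleph0_iff_set_finite.mpr hf).trans_le (Cardinal.aleph0_le_mk G)
      · calc #(⋃ j, T j) ≤ #(Iio i) * ⨆ j, #(T j) := Cardinal.mk_iUnion_le T
          _ ≤ #(Iio i) * ℵ₀ := by
              refine mul_le_mul_right ?_ _
              exact ciSup_le' fun j => (Cardinal.lt_aleph0_iff_set_finite.mpr (hTfin j)).le
          _ = #(Iio i) := Cardinal.mul_aleph0_eq h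
          _ < #G := hseg i
    have hne : (⋃ j, T j) ≠ Set.univ := by
      intro h
      rw [h, Cardinal.mk_univ] at hcard
      exact lt_irrefl _ hcard
    obtain ⟨x, hx⟩ := (Set.ne_univ_iff_exists_notMem _).mp hne
    refine ⟨x, fun j hj a ha b hb hab => hx ?_⟩
    rw [Set.mem_iUnion]
    refine ⟨⟨j, hj⟩, ?_⟩
    rw [Finset.mem_coe, Finset.mem_image]
    refine ⟨(a, b), Finset.mk_mem_product ha hb, ?_⟩
    show a⁻¹ * (b * g j hj) = x
    rw [← hab, inv_mul_cancel_left]
  choose st hst using hex
  let g : I → G := (wellFounded_lt (α := I)).fix st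
  have hg : ∀ i, g i = st i (fun j _ => g j) := fun i => WellFounded.fix_eq _ _ _
  have key : ∀ i j, j < i → ∀ a ∈ F i, ∀ b ∈ F j, a * g i ≠ b * g j := by
    intro i j hj a ha b hb
    rw [hg i]
    exact hst i (fun j _ => g j) j hj a ha b hb
  refine ⟨g, fun i j hij a ha b hb => ?_⟩
  rcases lt_or_gt_of_ne hij with h | h
  · exact fun e => key j i h b hb a ha e.symm
  · exact key i j h a ha b hb

/-- A set such that it and its complement contain right translates of all finite sets. -/
theorem exists_thick (G : Type u) [Group G] [Infinite G] :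
    ∃ B : Set G, (∀ F : Finset G, ∃ g, ∀ s ∈ F, s * g ∈ B) ∧
      (∀ F : Finset G, ∃ g, ∀ s ∈ F, s * g ∉ B) := by
  classical
  have hIcard : #(Finset G × Bool) ≤ #G := by
    have h1 : #(Finset G × Bool) = #G * 2 := by
      simp [Cardinal.mk_prod, Cardinal.mk_finset_of_infinite]
    rw [h1]
    exact (Cardinal.mul_eq_left (Cardinal.aleph0_le_mk G)
      ((Cardinal.natCast_lt_aleph0 (n := 2)).le.trans (Cardinal.aleph0_le_mk G)) (by norm_num)).le
  obtain ⟨g, hg⟩ := exists_disjoint_translates (fun p : Finset G × Bool => p.1) hIcard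
  refine ⟨{x | ∃ F : Finset G, ∃ s ∈ F, x = s * g (F, true)}, ?_, ?_⟩
  · intro F
    exact ⟨g (F, true), fun s hs => ⟨F, s, hs, rfl⟩⟩
  · intro F
    refine ⟨g (F, false), fun s hs => ?_⟩
    rintro ⟨F', s', hs', h⟩
    exact hg (F, false) (F', true) (by simp) s hs s' hs' h

end H263R3
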