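import Pool.Agent.H263R3.ArensBridge
import Pool.Agent.H263R3.Thick
import Pool.Agent.H263R3.L1Def

/-!
# The bidual of the group algebra of an infinite discrete group is never semisimple

For every infinite discrete group `G` and every weight `ω` on `G` with `ω ≤ C χ` for a
positive character `χ` of `G` (in particular for `ω = 1`), the second dual of the Beurling algebra
`ℓ¹(G, ω)` with the first Arens product has nonzero Jacobson radical; it even contains
`Φ ≠ 0` with `Φ □ Ψ □ Φ = 0` for all `Ψ`.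
-/

namespace RadicalL1_H263

open H263R3 H263R3.Arens

theorem exists_sandwich_of_dominated {G : Type*} [Group G] [Infinite G] (ω : Weight G)
    (χ : G →* ℝ) (hχ : ∀ s, 0 < χ s) (C : ℝ) (hC : ∀ s, ω.toFun s ≤ C * χ s) :
    ∃ Φ : ArensBidual.Bidual (Beurling G ω), Φ ≠ 0 ∧
      ∀ Ψ : ArensBidual.Bidual (Beurling G ω), Φ * Ψ * Φ = 0 := by
  classical
  have hC1 : 1 ≤ C := by
    have := hC 1
    rwa [ω.one, map_one, mul_one] at this
  have hC0 : 0 < C := by linarith
  have hlow : ∀ s, χ s ≤ C * ω.toFun s := by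
    intro s
    have h1 : 1 ≤ ω.toFun s * ω.toFun s⁻¹ := by
      have := ω.mul_le s s⁻¹
      rwa [mul_inv_cancel, ω.one] at this
    have h2 : χ s * χ s⁻¹ = 1 := by rw [← map_mul, mul_inv_cancel, map_one]
    calc χ s = χ s * 1 := (mul_one _).symm
      _ ≤ χ s * (ω.toFun s * ω.toFun s⁻¹) := mul_le_mul_of_nonneg_left h1 (hχ s).le
      _ ≤ χ s * (ω.toFun s * (C * χ s⁻¹)) :=
          mul_le_mul_of_nonneg_left
            (mul_le_mul_of_nonneg_left (hC s⁻¹) (ω.pos s).le) (hχ s).le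
      _ = (χ s * χ s⁻¹) * (C * ω.toFun s) := by ring
      _ = C * ω.toFun s := by rw [h2, one_mul]
  let δ : G →* L1 G ω :=
    { toFun := fun s => ((χ s)⁻¹ : ℂ) • delta ω s
      map_one' := by
        rw [map_one, map_one, Complex.ofReal_one, inv_one, one_smul]
      map_mul' := by
        intro s t
        rw [map_mul, map_mul, smul_mul_smul_comm, Complex.ofReal_mul, mul_inv] }
  have hδs : ∀ s, δ s = ((χ s)⁻¹ : ℂ) • delta ω s := fun s => rfl
  have hnorm : ∀ s, ‖((χ s : ℂ))⁻¹‖ = (χ s)⁻¹ := by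
    intro s
    rw [norm_inv, Complex.norm_of_nonneg (hχ s).le]
  have hδ : ∀ s, ‖δ s‖ ≤ C := by
    intro s
    rw [hδs, norm_smul, hnorm, norm_delta, inv_mul_le_iff₀ (hχ s), mul_comm]
    exact hC s
  have hfs : ∀ (f : StrongDual ℂ (L1 G ω)) (s : G), f (delta ω s) = (χ s : ℂ) * f (δ s) := by
    intro f s
    have hne : (χ s : ℂ) ≠ 0 := Complex.ofReal_ne_zero.mpr (hχ s).ne'
    rw [hδs, map_smul, smul_eq_mul, ← mul_assoc, mul_inv_cancel₀ hne, one_mul]
  have h1 : ∀ (f : StrongDual ℂ (L1 G ω)) (D : ℝ), (∀ s, ‖f (δ s)‖ ≤ D) → ‖f‖ ≤ C * D := by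
    intro f D hD
    have hD0 : 0 ≤ D := (norm_nonneg _).trans (hD 1)
    apply norm_le_of_delta
    intro s
    rw [hfs, norm_mul, Complex.norm_of_nonneg (hχ s).le]
    calc χ s * ‖f (δ s)‖ ≤ (C * ω.toFun s) * D :=
          mul_le_mul (hlow s) (hD s) (norm_nonneg _) (mul_nonneg hC0.le (ω.pos s).le)
      _ = C * D * ω.toFun s := by ring
  obtain ⟨B, hB1, hB0⟩ := exists_thick G
  obtain ⟨h, hh⟩ := exists_functional ω (fun s => if s ∈ B then (χ s : ℂ) else 0) C (by
    intro s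
    by_cases hs : s ∈ B
    · simp only [hs, if_true]
      rw [Complex.norm_of_nonneg (hχ s).le]
      exact hlow s
    · simp only [hs, if_false, norm_zero]
      exact mul_nonneg hC0.le (ω.pos s).le)
  have hhδ : ∀ s, h (δ s) = if s ∈ B then 1 else 0 := by
    intro s
    have hne : (χ s : ℂ) ≠ 0 := Complex.ofReal_ne_zero.mpr (hχ s).ne'
    rw [hδs, map_smul, hh, smul_eq_mul]
    by_cases hs : s ∈ B
    · simp only [hs, if_true]
      exact inv_mul_cancel₀ hne
    · simp only [hs, if_false, mul_zero]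
  obtain ⟨Φ, hΦ, hsand⟩ := exists_sandwich δ hδ h1 h
    (by
      intro F
      obtain ⟨g, hg⟩ := hB1 F
      exact ⟨g, fun s hs => by rw [hhδ, if_pos (hg s hs)]⟩)
    (by
      intro F
      obtain ⟨g, hg⟩ := hB0 F
      exact ⟨g, fun s hs => by rw [hhδ, if_neg (hg s hs)]⟩)
  exact ArensBidual.sandwich_of_old (A := Beurling G ω) Φ hΦ hsand

/-- For every infinite discrete group `G` and every weight `ω` on `G` dominated by a multiple of a
positive character (for instance the trivial weight), the bidual of `ℓ¹(G, ω)` with the first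
Arens product is not semisimple; it contains `Φ ≠ 0` with `Φ □ Ψ □ Φ = 0` for all `Ψ`. -/
theorem radicalL1 {G : Type*} [Group G] [Infinite G] (ω : Weight G)
    (χ : G →* ℝ) (hχ : ∀ s, 0 < χ s) (C : ℝ) (hC : ∀ s, ω.toFun s ≤ C * χ s) :
    Ring.jacobson (ArensBidual.Bidual (Beurling G ω)) ≠ ⊥ ∧
      ∃ Φ : ArensBidual.Bidual (Beurling G ω), Φ ≠ 0 ∧
        ∀ Ψ : ArensBidual.Bidual (Beurling G ω), Φ * Ψ * Φ = 0 := by
  obtain ⟨Φ, hΦ, h⟩ := exists_sandwich_of_dominated ω χ hχ C hC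
  refine ⟨fun hbot => ?_, Φ, hΦ, h⟩
  have h1 := mem_jacobson_of_sandwich h
  rw [hbot] at h1
  exact hΦ ((Submodule.mem_bot _).mp h1)

end RadicalL1_H263
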