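import Mathlib
import Pool.Agent.H263R3.FermatLine
import Pool.Agent.H598R2.Deriv
import Pool.Agent.H952R2.Sextic.CommonZero

/-!
Every complex polynomial of degree at most `d * e` is a sum of `d` powers `q ^ d` with
`deg q ≤ e`; the homogeneous (binary form) version.
-/

open Polynomial

namespace Pool.Agent.H263R3

/-- a point of the Fermat hypersurface with dual derivations -/
theorem exists_point (d : ℕ) (hd : 0 < d) :
    ∃ (c : Fin d → ℂ) (j0 : Fin d) (D : Fin d → Derivation ℤ ℂ ℂ), ∑ i, c i ^ d = 1 ∧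
      ∀ j, j ≠ j0 → ∀ i, i ≠ j0 → D j (c i) = if i = j then 1 else 0 := by
  classical
  obtain ⟨v, D, -, hD, -⟩ := Pool.Agent.H598R2.exists_dual_system (Fin d) ∅ (by simp)
  set j0 : Fin d := ⟨0, hd⟩
  obtain ⟨z, hz⟩ := IsAlgClosed.exists_pow_nat_eq (1 - ∑ i ∈ Finset.univ.erase j0, v i ^ d) hd
  refine ⟨fun i => if i = j0 then z else v i, j0, fun j => (D j).restrictScalars ℤ, ?_, ?_⟩
  · rw [← Finset.add_sum_erase _ _ (Finset.mem_univ j0)]
    have : ∑ x ∈ Finset.univ.erase j0, (if x = j0 then z else v x) ^ d =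
        ∑ x ∈ Finset.univ.erase j0, v x ^ d :=
      Finset.sum_congr rfl (fun x hx => by rw [if_neg (Finset.ne_of_mem_erase hx)])
    simp only [if_true]
    rw [this, hz]
    ring
  · intro j _ i hi
    simp only [if_neg hi]
    exact hD j i

theorem sum_powers_monic (d e : ℕ) (hd : 0 < d) (b : ℕ → ℂ) :
    ∃ q : Fin d → ℂ[X], (∀ i, (q i).natDegree ≤ e) ∧
      ∑ i, q i ^ d = 1 + ∑ k ∈ Finset.range (d * e), C (b k) * X ^ (k + 1) := by
  classical
  obtain ⟨c, j0, D, hc, hD⟩ := exists_point d hd
  let Q : Fin d → Polynomial (MvPolynomial (Option (Fin d × Fin e)) ℂ) := fun i =>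
    C (MvPolynomial.C (c i)) + ∑ j : Fin e, C (MvPolynomial.X (some (i, j))) * X ^ ((j : ℕ) + 1)
  let F : Fin (d * e) → MvPolynomial (Option (Fin d × Fin e)) ℂ := fun k =>
    (∑ i, Q i ^ d).coeff ((k : ℕ) + 1) -
      MvPolynomial.C (b k) * MvPolynomial.X none ^ ((k : ℕ) + 1)
  let q : (Option (Fin d × Fin e) → ℂ) → Fin d → ℂ[X] := fun x i =>
    C (c i) + ∑ j : Fin e, C (x (some (i, j))) * X ^ ((j : ℕ) + 1)
  have hQ : ∀ x i, (Q i).map (MvPolynomial.eval x) = q x i := by
    intro x i
    simp only [Q, q, Polynomial.map_add, Polynomial.map_sum, Polynomial.map_mul, map_C,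
      Polynomial.map_pow, map_X, MvPolynomial.eval_C, MvPolynomial.eval_X]
  have hF : ∀ x k, MvPolynomial.eval x (F k) =
      (∑ i, q x i ^ d).coeff ((k : ℕ) + 1) - b k * x none ^ ((k : ℕ) + 1) := by
    intro x k
    simp only [F, map_sub, map_mul, map_pow, MvPolynomial.eval_C, MvPolynomial.eval_X]
    rw [← coeff_map, Polynomial.map_sum]
    simp only [Polynomial.map_pow, hQ]
  have hdeg : ∀ x i, (q x i).natDegree ≤ e := by
    intro x i
    simp only [q]
    refine (natDegree_add_le _ _).trans (max_le (by simp) ?_)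
    refine natDegree_sum_le_of_forall_le _ _ (fun j _ => ?_)
    refine (natDegree_C_mul_X_pow_le _ _).trans ?_
    have := j.2
    omega
  have hdegS : ∀ x, (∑ i, q x i ^ d).natDegree ≤ d * e := by
    intro x
    refine natDegree_sum_le_of_forall_le _ _ (fun i _ => ?_)
    exact natDegree_pow_le.trans (Nat.mul_le_mul_left _ (hdeg x i))
  have hc0 : ∀ x, (∑ i, q x i ^ d).coeff 0 = 1 := by
    intro x
    rw [coeff_zero_eq_eval_zero, eval_finsetSum, ← hc]
    refine Finset.sum_congr rfl (fun i _ => ?_)
    simp [q, eval_finsetSum]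
  obtain ⟨x, hx0, hx⟩ := Pool.Agent.H952R2.Sextic.exists_common_zero (K := ℂ)
    (ι := Option (Fin d × Fin e)) (κ := Fin (d * e)) (by simp) F (by
      intro k
      rw [hF]
      have : ∀ i, q 0 i = C (c i) := fun i => by simp [q]
      have h2 : ∑ i, q 0 i ^ d = 1 := by
        simp only [this, ← C_pow]
        rw [← map_sum, hc, C_1]
      rw [h2, coeff_one]
      simp)
  by_cases hz : x none = 0
  · exfalso
    have h1 : ∑ i, q x i ^ d = 1 := by
      ext k
      rcases Nat.eq_zero_or_pos k with rfl | hk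
      · rw [hc0]; simp
      · rw [coeff_one, if_neg (by omega)]
        by_cases hk2 : k ≤ d * e
        · have := hx ⟨k - 1, by omega⟩
          rw [hF] at this
          simp only [hz] at this
          rw [zero_pow (by omega), mul_zero, sub_zero] at this
          have h2 : k - 1 + 1 = k := by omega
          rw [h2] at this
          exact this
        · exact coeff_eq_zero_of_natDegree_lt (lt_of_le_of_lt (hdegS x) (by omega))
    have h2 := const_of_sum_pow d (by simp) hd j0 (q x) h1 D (by
      intro j hj i hi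
      have : ∀ i, (q x i).coeff 0 = c i := by
        intro i
        rw [coeff_zero_eq_eval_zero]
        simp [q, eval_finsetSum]
      rw [this]
      exact hD j hj i hi)
    apply hx0
    funext o
    rcases o with _ | ⟨i, j⟩
    · exact hz
    · have h3 := congrArg (fun p => coeff p (j : ℕ)) (h2 i)
      simp only [coeff_derivative, coeff_zero] at h3
      have h4 : (q x i).coeff ((j : ℕ) + 1) = 0 := by
        rcases mul_eq_zero.1 h3 with h | h
        · exact h
        · exfalso
          exact Nat.cast_add_one_ne_zero (R := ℂ) (j : ℕ) h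
      simp only [q, coeff_add, finsetSum_coeff, coeff_C_mul_X_pow, coeff_C] at h4
      rw [if_neg (by omega), zero_add] at h4
      rw [Finset.sum_eq_single j] at h4
      · simpa using h4
      · intro l _ hl
        rw [if_neg]
        intro h
        apply hl
        apply Fin.ext
        omega
      · simp
  · refine ⟨fun i => (q x i).comp (C (x none)⁻¹ * X), fun i => ?_, ?_⟩
    · refine natDegree_comp_le.trans ?_
      have h1 : (C (x none)⁻¹ * X : ℂ[X]).natDegree ≤ 1 := by
        have := natDegree_C_mul_X_pow_le ((x none)⁻¹) 1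
        rwa [pow_one] at this
      refine (Nat.mul_le_mul (hdeg x i) h1).trans ?_
      omega
    · have h1 : ∑ i, (q x i).comp (C (x none)⁻¹ * X) ^ d =
          (∑ i, q x i ^ d).comp (C (x none)⁻¹ * X) := by
        rw [Polynomial.sum_comp]
        simp only [pow_comp]
      rw [h1]
      ext k
      rw [comp_C_mul_X_coeff]
      have hR : (1 + ∑ k ∈ Finset.range (d * e), C (b k) * X ^ (k + 1) : ℂ[X]).coeff k =
          (if k = 0 then 1 else 0) + ∑ l ∈ Finset.range (d * e), if k = l + 1 then b l else 0 := by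
        simp only [coeff_add, finsetSum_coeff, coeff_C_mul_X_pow, coeff_one]
      rw [hR]
      rcases Nat.eq_zero_or_pos k with rfl | hk
      · rw [hc0]
        simp
      · rw [if_neg (by omega), zero_add]
        by_cases hk2 : k ≤ d * e
        · have := hx ⟨k - 1, by omega⟩
          rw [hF] at this
          have h2 : k - 1 + 1 = k := by omega
          simp only [h2] at this
          rw [sub_eq_zero.1 this, Finset.sum_eq_single (k - 1)]
          · rw [if_pos (by omega)]
            rw [mul_assoc, ← mul_pow, mul_inv_cancel₀ hz, one_pow, mul_one]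
          · intro l _ hl
            rw [if_neg (by omega)]
          · intro h
            exfalso
            apply h
            rw [Finset.mem_range]
            omega
        · rw [coeff_eq_zero_of_natDegree_lt (lt_of_le_of_lt (hdegS x) (by omega)), zero_mul]
          symm
          apply Finset.sum_eq_zero
          intro l hl
          rw [Finset.mem_range] at hl
          rw [if_neg (by omega)]

/-- every polynomial of degree at most `d * e` is a sum of `d` `d`-th powers of polynomials of
degree at most `e` -/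
theorem sum_powers (d e : ℕ) (hd : 0 < d) (p : ℂ[X]) (hp : p.natDegree ≤ d * e) :
    ∃ q : Fin d → ℂ[X], (∀ i, (q i).natDegree ≤ e) ∧ ∑ i, q i ^ d = p := by
  by_cases hp0 : p = 0
  · refine ⟨fun _ => 0, by simp, ?_⟩
    rw [hp0]
    simp [hd.ne']
  obtain ⟨s, hs⟩ : ∃ s : ℂ, p.eval s ≠ 0 := by
    by_contra hcon
    push Not at hcon
    exact hp0 (Polynomial.funext (fun r => by rw [hcon r, eval_zero]))
  set w := p.eval s with hw
  obtain ⟨μ, hμ⟩ := IsAlgClosed.exists_pow_nat_eq w hd
  obtain ⟨q, hq, hqs⟩ := sum_powers_monic d e hd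
    (fun k => w⁻¹ * (p.comp (X + C s)).coeff (k + 1))
  have h1 : p.comp (X + C s) = C w * (1 + ∑ k ∈ Finset.range (d * e),
      C (w⁻¹ * (p.comp (X + C s)).coeff (k + 1)) * X ^ (k + 1)) := by
    have h2 : (p.comp (X + C s)).natDegree < d * e + 1 := by
      rw [natDegree_comp, natDegree_X_add_C]
      omega
    conv_lhs => rw [as_sum_range' _ _ h2]
    rw [Finset.sum_range_succ', mul_add, mul_one, add_comm]
    congr 1
    · rw [monomial_zero_left, coeff_zero_eq_eval_zero, eval_comp]
      simp [hw]
    · rw [Finset.mul_sum]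
      refine Finset.sum_congr rfl (fun k _ => ?_)
      rw [← mul_assoc, ← C_mul, ← mul_assoc, mul_inv_cancel₀ hs, one_mul, C_mul_X_pow_eq_monomial]
  refine ⟨fun i => C μ * (q i).comp (X - C s), fun i => ?_, ?_⟩
  · refine (natDegree_C_mul_le _ _).trans ?_
    rw [natDegree_comp, natDegree_X_sub_C, mul_one]
    exact hq i
  · have h3 : ∑ i, (C μ * (q i).comp (X - C s)) ^ d = C w * (∑ i, q i ^ d).comp (X - C s) := by
      rw [Polynomial.sum_comp, Finset.mul_sum]
      refine Finset.sum_congr rfl (fun i _ => ?_)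
      rw [mul_pow, ← C_pow, hμ, pow_comp]
    rw [h3, hqs]
    have h4 : (p.comp (X + C s)).comp (X - C s) = _ := congrArg (fun r : ℂ[X] => r.comp (X - C s)) h1
    rw [mul_comp, C_comp] at h4
    rw [← h4, comp_assoc]
    simp

/-- homogenisation of degree `e` in two variables -/
noncomputable def hom2 (e : ℕ) (q : ℂ[X]) : MvPolynomial (Fin 2) ℂ :=
  ∑ j ∈ Finset.range (e + 1), MvPolynomial.C (q.coeff j) *
    (MvPolynomial.X 0 ^ (e - j) * MvPolynomial.X 1 ^ j)

theorem hom2_isHomogeneous (e : ℕ) (q : ℂ[X]) : (hom2 e q).IsHomogeneous e := by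
  refine MvPolynomial.IsHomogeneous.sum _ _ _ (fun j hj => ?_)
  rw [Finset.mem_range] at hj
  have h1 : (MvPolynomial.X 0 ^ (e - j) * MvPolynomial.X 1 ^ j :
      MvPolynomial (Fin 2) ℂ).IsHomogeneous (1 * (e - j) + 1 * j) :=
    ((MvPolynomial.isHomogeneous_X _ _).pow _).mul ((MvPolynomial.isHomogeneous_X _ _).pow _)
  have h2 := (MvPolynomial.isHomogeneous_C (Fin 2) (q.coeff j)).mul h1
  have h3 : 0 + (1 * (e - j) + 1 * j) = e := by omega
  rw [h3] at h2
  exact h2

/-- dehomogenisation -/
noncomputable def deh : MvPolynomial (Fin 2) ℂ →ₐ[ℂ] ℂ[X] :=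
  MvPolynomial.aeval ![1, X]

theorem deh_hom2 (e : ℕ) (q : ℂ[X]) (hq : q.natDegree ≤ e) : deh (hom2 e q) = q := by
  simp only [deh, hom2, map_sum, map_mul, map_pow, MvPolynomial.aeval_X, MvPolynomial.algHom_C]
  conv_rhs => rw [as_sum_range_C_mul_X_pow' _ (Nat.lt_succ_of_le hq)]
  refine Finset.sum_congr rfl (fun j _ => ?_)
  simp

theorem deh_injective (N : ℕ) (f : MvPolynomial (Fin 2) ℂ) (hf : f.IsHomogeneous N)
    (h : deh f = 0) : f = 0 := by
  classical
  ext m
  rw [MvPolynomial.coeff_zero]
  by_contra hne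
  have hm : m 0 + m 1 = N := by
    have := hf hne
    rw [Finsupp.weight_apply, Finsupp.sum_fintype _ _ (by simp)] at this
    simpa [Fin.sum_univ_two] using this
  have h1 : (deh f).coeff (m 1) = f.coeff m := by
    rw [deh, MvPolynomial.aeval_def, MvPolynomial.eval₂_eq', finsetSum_coeff]
    rw [Finset.sum_eq_single m]
    · simp [Fin.prod_univ_two]
    · intro m' hm' hmm
      rw [Polynomial.algebraMap_apply, Algebra.algebraMap_self_apply, coeff_C_mul]
      simp only [Fin.prod_univ_two, Matrix.cons_val_zero, one_pow, one_mul, Matrix.cons_val_one,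
        coeff_X_pow]
      rw [if_neg, mul_zero]
      intro h1
      apply hmm
      have hm2 : m' 0 + m' 1 = N := by
        have := hf (MvPolynomial.mem_support_iff.1 hm')
        rw [Finsupp.weight_apply, Finsupp.sum_fintype _ _ (by simp)] at this
        simpa [Fin.sum_univ_two] using this
      ext i
      fin_cases i
      · change m' 0 = m 0
        omega
      · change m' 1 = m 1
        omega
    · intro h
      exact absurd (MvPolynomial.mem_support_iff.2 hne) h
  rw [h, coeff_zero] at h1
  exact hne h1.symm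

theorem natDegree_deh_le (N : ℕ) (f : MvPolynomial (Fin 2) ℂ) (hf : f.IsHomogeneous N) :
    (deh f).natDegree ≤ N := by
  classical
  rw [deh, MvPolynomial.aeval_def, MvPolynomial.eval₂_eq']
  refine natDegree_sum_le_of_forall_le _ _ (fun m hm => ?_)
  rw [Polynomial.algebraMap_apply, Algebra.algebraMap_self_apply]
  simp only [Fin.prod_univ_two, Matrix.cons_val_zero, one_pow, one_mul, Matrix.cons_val_one]
  refine (natDegree_C_mul_X_pow_le _ _).trans ?_
  have := hf (MvPolynomial.mem_support_iff.1 hm)
  rw [Finsupp.weight_apply, Finsupp.sum_fintype _ _ (by simp)] at this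
  simp [Fin.sum_univ_two] at this
  omega

theorem shapiro (d e : ℕ) (hd : 0 < d) (f : MvPolynomial (Fin 2) ℂ)
    (hf : f.IsHomogeneous (d * e)) :
    ∃ g : Fin d → MvPolynomial (Fin 2) ℂ,
      (∀ i, (g i).IsHomogeneous e) ∧ f = ∑ i, g i ^ d := by
  obtain ⟨q, hq, hqs⟩ := sum_powers d e hd (deh f) (natDegree_deh_le _ _ hf)
  refine ⟨fun i => hom2 e (q i), fun i => hom2_isHomogeneous _ _, ?_⟩
  have h1 : (∑ i, hom2 e (q i) ^ d).IsHomogeneous (d * e) := by
    refine MvPolynomial.IsHomogeneous.sum _ _ _ (fun i _ => ?_)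
    have := (hom2_isHomogeneous e (q i)).pow d
    rwa [mul_comm] at this
  refine sub_eq_zero.1 (deh_injective (d * e) _ (hf.sub h1) ?_)
  rw [map_sub, map_sum, ← hqs, sub_eq_zero]
  refine Finset.sum_congr rfl (fun i _ => ?_)
  rw [map_pow, deh_hom2 _ _ (hq i)]

end Pool.Agent.H263R3
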